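import Pool.Agent.H68.TL.Dfl
import Pool.Agent.H68.IM.Sub

/-!
ROW Ccl (complex conjugation; about 170 lines).  PROOF.
Every number field has an embedding into `ℂ` (`NumberField.Embeddings` / `Algebra.IsAlgebraic` lift: `IsAlgClosed.lift` or `(Embeddings.card F ℂ)`: `Nonempty (F →+* ℂ)`), embeddings are injective.
`IsCC.unique`, `IsCC.comm`: `φ (J (g x)) = conj (φ (g x)) = conj ((φ ∘ g) x) = (φ ∘ g) (J x) = φ (g (J x))` for the embedding `φ ∘ g`. `IsCC.invol`: `conj (conj z) = z`. `isCC_down`: `F0 ⊆ F` (`Algebra F0 F`), the image of `F0` is stable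
under `J`, so `J` induces an injective ring homomorphism `J0 : F0 → F0`, and `J0 (J0 x) = x` (`IsCC.invol`), so it is an equivalence (`RingEquiv.ofHomInv` / `RingEquiv.ofRingHom`); every `φ0 : F0 →+* ℂ` extends to `F`
(`F/F0` algebraic, `ℂ` algebraically closed: `IsAlgClosed.lift` with `Algebra F0 ℂ := φ0.toAlgebra`; `AlgHom.commutes`).
`isCC_sub`: `e : B →+* N`, `N/ℚ` Galois: for `x ∈ B`, `J (e x)` is fixed by every automorphism `g` of `N` fixing `e.range`: `g (J (e x)) = J (g (e x)) = J (e x)` (`IsCC.comm`), so `J (e x) ∈ e.range` (Galois correspondence: `N / e.fieldRange` is Galois: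
`IsGalois.tower_top_of_isGalois`, `IsGalois.mem_bot_iff_fixed` or `IntermediateField.fixedField_fixingSubgroup`); then use `isCC_down` (with `Algebra B N := e.toAlgebra`).
`comp_stab`: `S = {x : K | J (algebraMap K L x) ∈ range (algebraMap K L)}` is a subfield of `K` (a comap of a map); it contains `C.f b` : `φ (J (algebraMap K L (C.f b))) = conj (φ (algebraMap (C.f b))) = φ (algebraMap (C.f (JB b)))` for one embedding `φ`
of `L` (`φ ∘ algebraMap ∘ C.f` is an embedding of `B`), and `C.g x`: `algebraMap K L (C.g x) = C.h (algebraMap K' L' x)` is mapped by every `φ` to a real number (`L'` is totally real: `IsTotallyReal.isReal`,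
`ComplexEmbedding.IsReal`, `ComplexEmbedding.isReal_iff`, `conj`), so `J` fixes it; `H68IM.gen_mem C.genK`.  Get `τK` as in `isCC_down` (`J (J x) = x`).
`comp_down`: same for the subfield `{x : L0 | J (algebraMap L0 L x) ∈ range}` with `gen_mem C₁.genL`, then `isCC_down`.
`comp_exists`: `φ₀ : L →+* ℂ` an embedding; the subfield `{x : L | conj (φ₀ x) ∈ φ₀.range}` contains `algebraMap K L (C.f b)` (`= φ₀ (algebraMap (C.f (JB b)))`) and `C.h y` (real), so it is everything; this defines `J` (`φ₀ (J x) = conj (φ₀ x)`,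
an involution, so an equivalence). For any `φ`: `{x | φ (J x) = conj (φ x)}` is a subfield (`RingHom.eqLocusField`) containing `algebraMap K L (C.f b)` (`φ (J ..) = φ (algebraMap (C.f (JB b)))`) and `C.h y`.
-/

set_option autoImplicit false
set_option linter.style.haveILetI false

open IsDedekindDomain NumberField H5SW H68QS

namespace H68TL

theorem cc_emb (F : Type) [Field F] [NumberField F] : Nonempty (F →+* ℂ) :=
  inferInstance

theorem IsCC.unique {F : Type} [Field F] [NumberField F] {J J' : F ≃+* F} (h : IsCC J)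
    (h' : IsCC J') : J = J' := by
  obtain ⟨φ⟩ := cc_emb F
  ext x
  apply φ.injective
  rw [h, h']

theorem IsCC.comm {F : Type} [Field F] [NumberField F] {J : F ≃+* F} (h : IsCC J) (g : F ≃+* F)
    (x : F) : J (g x) = g (J x) := by
  obtain ⟨φ⟩ := cc_emb F
  apply φ.injective
  rw [h]
  exact (h (φ.comp (g : F →+* F)) x).symm

theorem IsCC.invol {F : Type} [Field F] [NumberField F] {J : F ≃+* F} (h : IsCC J) (x : F) :
    J (J x) = x := by
  obtain ⟨φ⟩ := cc_emb F
  apply φ.injective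
  rw [h, h]
  exact Complex.conj_conj _

/-- A subfield stable under an involution. -/
theorem stab_of {F0 F : Type} [Field F0] [Field F] {J : F ≃+* F} (e : F0 →+* F)
    (hJ : ∀ x, J (J x) = x) (hs : ∀ x : F0, ∃ y : F0, J (e x) = e y) :
    ∃ J0 : F0 ≃+* F0, ∀ x, J (e x) = e (J0 x) := by
  choose j hj using hs
  have hinj := e.injective
  have hjj : ∀ x, j (j x) = x := by
    intro x
    apply hinj
    rw [← hj, ← hj, hJ]
  refine ⟨{ toFun := j, invFun := j, left_inv := hjj, right_inv := hjj, map_mul' := ?_,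
            map_add' := ?_ }, fun x => hj x⟩
  · intro x y
    apply hinj
    rw [← hj, map_mul, map_mul, map_mul, hj, hj]
  · intro x y
    apply hinj
    rw [← hj, map_add, map_add, map_add, hj, hj]

/-- Embeddings extend. -/
theorem emb_ext {F0 F : Type} [Field F0] [NumberField F0] [Field F] [NumberField F]
    (e : F0 →+* F) (φ0 : F0 →+* ℂ) : ∃ φ : F →+* ℂ, ∀ x, φ (e x) = φ0 x := by
  let _ : Algebra F0 F := e.toAlgebra
  let _ : Algebra F0 ℂ := φ0.toAlgebra
  have : IsScalarTower ℚ F0 F := IsScalarTower.of_algebraMap_eq fun q => by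
    rw [eq_ratCast, eq_ratCast, map_ratCast]
  have : Algebra.IsAlgebraic F0 F := Algebra.IsAlgebraic.tower_top (K := ℚ) F0
  let φ : F →ₐ[F0] ℂ := IsAlgClosed.lift
  exact ⟨φ.toRingHom, fun x => φ.commutes x⟩

theorem isCC_down' {F0 F : Type} [Field F0] [NumberField F0] [Field F] [NumberField F]
    (e : F0 →+* F) {J : F ≃+* F} (h : IsCC J)
    (hs : ∀ x : F0, ∃ y : F0, J (e x) = e y) :
    ∃ J0 : F0 ≃+* F0, IsCC J0 ∧ ∀ x, J (e x) = e (J0 x) := by
  obtain ⟨J0, hJ0⟩ := stab_of e h.invol hs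
  refine ⟨J0, fun φ0 x => ?_, hJ0⟩
  obtain ⟨φ, hφ⟩ := emb_ext e φ0
  rw [← hφ, ← hφ, ← hJ0, h]

theorem isCC_down {F0 F : Type} [Field F0] [NumberField F0] [Field F] [NumberField F]
    [Algebra F0 F] {J : F ≃+* F} (h : IsCC J)
    (hs : ∀ x : F0, ∃ y : F0, J (algebraMap F0 F x) = algebraMap F0 F y) :
    ∃ J0 : F0 ≃+* F0, IsCC J0 ∧ ∀ x, J (algebraMap F0 F x) = algebraMap F0 F (J0 x) :=
  isCC_down' (algebraMap F0 F) h hs

theorem isCC_sub {B N : Type} [Field B] [NumberField B] [Field N] [NumberField N] [IsGalois ℚ N]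
    {J : N ≃+* N} (h : IsCC J) (e : B →+* N) :
    ∃ J0 : B ≃+* B, IsCC J0 ∧ ∀ x, J (e x) = e (J0 x) := by
  apply isCC_down' e h
  intro x
  let _ : Algebra B N := e.toAlgebra
  have : IsScalarTower ℚ B N := IsScalarTower.of_algebraMap_eq fun q => by
    rw [eq_ratCast, eq_ratCast, map_ratCast]
  have : IsGalois B N := IsGalois.tower_top_of_isGalois ℚ B N
  have h1 : J (e x) ∈ (⊥ : IntermediateField B N) := by
    rw [IsGalois.mem_bot_iff_fixed]
    intro g
    have h2 := h.comm (g : N ≃+* N) (e x)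
    have h3 : (g : N ≃+* N) (e x) = e x := g.commutes x
    rw [h3] at h2
    exact h2.symm
  obtain ⟨y, hy⟩ := IntermediateField.mem_bot.1 h1
  exact ⟨y, hy.symm⟩

theorem real_fix {L' L : Type} [Field L'] [NumberField L'] [Field L] (hL' : IsTotallyReal L')
    (e : L' →+* L) (φ : L →+* ℂ) (x : L') : starRingEnd ℂ (φ (e x)) = φ (e x) := by
  have h1 : ComplexEmbedding.IsReal (φ.comp e) :=
    InfinitePlace.isReal_mk_iff.mp (hL'.isReal (InfinitePlace.mk (φ.comp e)))
  exact RingHom.congr_fun (ComplexEmbedding.isReal_iff.1 h1) x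

theorem cc_f {B K' L' K L : Type} [Field B] [NumberField B] [Field K'] [NumberField K']
    [Field L'] [NumberField L'] [Field K] [NumberField K] [Field L] [NumberField L]
    [Algebra K' L'] [Algebra K L] (C : Comp B K' L' K L) {JB : B ≃+* B} (hB : IsCC JB)
    (φ : L →+* ℂ) (b : B) :
    starRingEnd ℂ (φ (algebraMap K L (C.f b))) = φ (algebraMap K L (C.f (JB b))) :=
  (hB ((φ.comp (algebraMap K L)).comp C.f) b).symm

theorem comp_stab {B K' L' K L : Type} [Field B] [NumberField B] [Field K'] [NumberField K']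
    [Field L'] [NumberField L'] [Field K] [NumberField K] [Field L] [NumberField L]
    [Algebra K' L'] [Algebra K L] (C : Comp B K' L' K L) (hL' : IsTotallyReal L')
    {JB : B ≃+* B} (hB : IsCC JB) {J : L ≃+* L} (hJ : IsCC J) : Stab K J := by
  obtain ⟨φ⟩ := cc_emb L
  obtain ⟨M, hM⟩ : ∃ M : Subfield K, M =
      (Subfield.map (J.symm : L →+* L) (algebraMap K L).fieldRange).comap (algebraMap K L) :=
    ⟨_, rfl⟩
  have hmem : ∀ x : K, (∃ y : K, J (algebraMap K L x) = algebraMap K L y) → x ∈ M := by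
    rintro x ⟨y, hy⟩
    rw [hM, Subfield.mem_comap, Subfield.mem_map]
    refine ⟨algebraMap K L y, ⟨y, rfl⟩, ?_⟩
    rw [← hy]
    exact J.symm_apply_apply _
  have hmem' : ∀ x : K, x ∈ M → ∃ y : K, J (algebraMap K L x) = algebraMap K L y := by
    intro x hx
    rw [hM, Subfield.mem_comap, Subfield.mem_map] at hx
    obtain ⟨z, ⟨y, rfl⟩, hz⟩ := hx
    refine ⟨y, ?_⟩
    rw [← hz]
    exact J.apply_symm_apply _
  have hall : ∀ x : K, x ∈ M := by
    intro x
    refine H68IM.gen_mem C.genK M (fun q => H68IM.rat_mem M q) ?_ x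
    rintro z (⟨b, rfl⟩ | ⟨y, rfl⟩)
    · apply hmem
      refine ⟨C.f (JB b), φ.injective ?_⟩
      rw [hJ φ, cc_f C hB φ b]
    · apply hmem
      refine ⟨C.g y, φ.injective ?_⟩
      rw [hJ φ, ← C.comm]
      exact real_fix hL' C.h φ _
  exact stab_of (algebraMap K L) hJ.invol fun x => hmem' x (hall x)

theorem comp_down {B K' L' K L L2 : Type} [Field B] [NumberField B] [Field K'] [NumberField K']
    [Field L'] [NumberField L'] [Field K] [NumberField K] [Field L] [NumberField L]
    [Field L2] [NumberField L2]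
    [Algebra K' L'] [Algebra K L] [Algebra L L2] (C : Comp B K' L' K L) (hL' : IsTotallyReal L')
    {JB : B ≃+* B} (hB : IsCC JB) {J : L2 ≃+* L2} (hJ : IsCC J) :
    ∃ J0 : L ≃+* L, IsCC J0 ∧ ∀ x, J (algebraMap L L2 x) = algebraMap L L2 (J0 x) := by
  obtain ⟨φ⟩ := cc_emb L2
  obtain ⟨M, hM⟩ : ∃ M : Subfield L, M =
      (Subfield.map (J.symm : L2 →+* L2) (algebraMap L L2).fieldRange).comap (algebraMap L L2) :=
    ⟨_, rfl⟩
  have hmem : ∀ x : L, (∃ y : L, J (algebraMap L L2 x) = algebraMap L L2 y) → x ∈ M := by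
    rintro x ⟨y, hy⟩
    rw [hM, Subfield.mem_comap, Subfield.mem_map]
    refine ⟨algebraMap L L2 y, ⟨y, rfl⟩, ?_⟩
    rw [← hy]
    exact J.symm_apply_apply _
  have hmem' : ∀ x : L, x ∈ M → ∃ y : L, J (algebraMap L L2 x) = algebraMap L L2 y := by
    intro x hx
    rw [hM, Subfield.mem_comap, Subfield.mem_map] at hx
    obtain ⟨z, ⟨y, rfl⟩, hz⟩ := hx
    refine ⟨y, ?_⟩
    rw [← hz]
    exact J.apply_symm_apply _
  have hall : ∀ x : L, x ∈ M := by
    intro x
    refine H68IM.gen_mem C.genL M (fun q => H68IM.rat_mem M q) ?_ x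
    rintro z (⟨b, rfl⟩ | ⟨y, rfl⟩)
    · apply hmem
      refine ⟨algebraMap K L (C.f (JB b)), φ.injective ?_⟩
      rw [hJ φ]
      exact cc_f C hB (φ.comp (algebraMap L L2)) b
    · apply hmem
      refine ⟨C.h y, φ.injective ?_⟩
      rw [hJ φ]
      exact real_fix hL' ((algebraMap L L2).comp C.h) φ y
  exact isCC_down hJ fun x => hmem' x (hall x)

theorem comp_exists {B K' L' K L : Type} [Field B] [NumberField B] [Field K'] [NumberField K']
    [Field L'] [NumberField L'] [Field K] [NumberField K] [Field L] [NumberField L]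
    [Algebra K' L'] [Algebra K L] (C : Comp B K' L' K L) (hL' : IsTotallyReal L')
    {JB : B ≃+* B} (hB : IsCC JB) : ∃ J : L ≃+* L, IsCC J := by
  obtain ⟨φ⟩ := cc_emb L
  obtain ⟨M, hM⟩ : ∃ M : Subfield L, M =
      φ.fieldRange.comap ((starRingEnd ℂ : ℂ →+* ℂ).comp φ) := ⟨_, rfl⟩
  have hmem : ∀ x : L, x ∈ M ↔ ∃ y : L, φ y = starRingEnd ℂ (φ x) := by
    intro x
    rw [hM, Subfield.mem_comap]
    exact Iff.rfl
  have hall : ∀ x : L, x ∈ M := by
    intro x
    refine H68IM.gen_mem C.genL M (fun q => H68IM.rat_mem M q) ?_ x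
    rintro z (⟨b, rfl⟩ | ⟨y, rfl⟩)
    · exact (hmem _).2 ⟨algebraMap K L (C.f (JB b)), (cc_f C hB φ b).symm⟩
    · exact (hmem _).2 ⟨C.h y, (real_fix hL' C.h φ y).symm⟩
  have hj : ∀ x : L, ∃ y : L, φ y = starRingEnd ℂ (φ x) := fun x => (hmem x).1 (hall x)
  choose j hj using hj
  have hjj : ∀ x, j (j x) = x := by
    intro x
    apply φ.injective
    rw [hj, hj]
    exact Complex.conj_conj _
  obtain ⟨J, hJ⟩ : ∃ J : L ≃+* L, ∀ x, J x = j x := by
    refine ⟨{ toFun := j, invFun := j, left_inv := hjj, right_inv := hjj, map_mul' := ?_,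
              map_add' := ?_ }, fun x => rfl⟩
    · intro x y
      apply φ.injective
      rw [hj, map_mul, map_mul, map_mul, hj, hj]
    · intro x y
      apply φ.injective
      rw [hj, map_add, map_add, map_add, hj, hj]
  have hJφ : ∀ x, φ (J x) = starRingEnd ℂ (φ x) := fun x => by rw [hJ, hj]
  refine ⟨J, fun ψ x => ?_⟩
  have key := H68IM.gen_mem C.genL
    (RingHom.eqLocusField (ψ.comp (J : L →+* L)) ((starRingEnd ℂ : ℂ →+* ℂ).comp ψ))
    (fun q => H68IM.rat_mem _ q) ?_ x
  · exact key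
  rintro z (⟨b, rfl⟩ | ⟨y, rfl⟩)
  · change ψ (J (algebraMap K L (C.f b))) = starRingEnd ℂ (ψ (algebraMap K L (C.f b)))
    rw [cc_f C hB ψ b]
    congr 1
    apply φ.injective
    rw [hJφ, cc_f C hB φ b]
  · change ψ (J (C.h y)) = starRingEnd ℂ (ψ (C.h y))
    rw [real_fix hL' C.h ψ y]
    congr 1
    apply φ.injective
    rw [hJφ, real_fix hL' C.h φ y]

end H68TL
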