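import Pool.Agent.H68.TK.Nrm

/-!
# MP_78d38b: odd primes `l`, the `l`-step, definitions
-/

set_option autoImplicit false

open IsDedekindDomain NumberField WithZero Pool.Agent.H10

namespace H68TL

/-- `τ` maps the image of `K` to itself. -/
def Stab (K : Type) {F : Type} [Field K] [Field F] [Algebra K F] (τ : F ≃+* F) : Prop :=
  ∃ τK : K ≃+* K, ∀ x, τ (algebraMap K F x) = algebraMap K F (τK x)

/-- An element `e` of `F` with all valuations divisible by `l`, whose norm to `K` is an `l`-th power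
in `F`, with `τ e = e` for `τ ∈ P` and `e * J e = 1` modulo `l`-th powers, is an `l`-th power. -/
def NoNewE (l : ℕ) (K F : Type) [Field K] [NumberField K] [Field F] [NumberField F] [Algebra K F]
    (P : Set (F ≃+* F)) (J : F ≃+* F) : Prop :=
  ∀ e : F, e ≠ 0 → (∀ w : HeightOneSpectrum (𝓞 F), (l : ℤ) ∣ log (w.valuation F e)) →
    (∃ y : F, algebraMap K F (Algebra.norm K e) = y ^ l) → (∀ τ ∈ P, ∃ y, τ e = e * y ^ l) →
    (∃ y, e * J e = y ^ l) → ∃ y, e = y ^ l

/-- The element `δ` of `K2` and the integer `m`: `m` is divisible by the differences `τ δ - δ`. -/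
def Dlt (K K2 : Type) [Field K] [Field K2] [Algebra K K2] (δ : 𝓞 K2) (m : ℤ) : Prop :=
  ∀ τ : K2 ≃ₐ[K] K2, τ ≠ 1 → ∃ c : 𝓞 K2, (τ (δ : K2) - (δ : K2)) * (c : K2) = (m : K2)

/-- The Galois group of `F / K` fixes all primes of `F` above `m`. -/
def FixP (m : ℤ) (K F : Type) [Field K] [NumberField K] [Field F] [NumberField F] [Algebra K F] :
    Prop :=
  ∀ w : HeightOneSpectrum (𝓞 F), (m : 𝓞 F) ∈ w.asIdeal → ∀ (g : F ≃ₐ[K] F) (x : F),
    w.valuation F (g x) = w.valuation F x

end H68TL
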