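import Pool.Agent.H68.TL.Dfc
import Pool.Agent.H68.QS.Df

/-!
# MP_78d38b: fields of `l`-type and layers, definitions
-/

set_option autoImplicit false
open scoped Classical

open IsDedekindDomain NumberField H5SW H68QS

namespace H68TL

/-- `J` is the complex conjugation of `F`. -/
def IsCC {F : Type} [Field F] (J : F ≃+* F) : Prop :=
  ∀ (φ : F →+* ℂ) (x : F), φ (J x) = starRingEnd ℂ (φ x)

/-- `B` contains the `M`-th roots of unity and is contained in a field `N`, Galois over the
rationals, with a complex conjugation, of degree a power of `l` over the field of the `M`-th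
roots of unity. -/
def LT (l M : ℕ) (B : Type) [Field B] [NumberField B] : Prop :=
  ∃ (N : Type) (_ : Field N) (_ : NumberField N) (C : IntermediateField ℚ N) (e : B →+* N),
    IsGalois ℚ N ∧ IsCyclotomicExtension {M} ℚ C ∧ (∀ x ∈ C, ∃ y, e y = x) ∧
    (∃ r : ℕ, Module.finrank C N = l ^ r) ∧ ∃ J : N ≃+* N, IsCC J

/-- The properties of a layer `F / K` which are needed in the descent. -/
structure GoodL (l : ℕ) (D : ℤ) (K F : Type) [Field K] [NumberField K] [Field F] [NumberField F]
    [Algebra K F] : Prop where
  gal : IsGalois K F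
  nl : ¬ l ∣ Module.finrank K F
  E : ∀ J : F ≃+* F, IsCC J → NoNewE l K F ∅ J
  U : ∀ J : F ≃+* F, IsCC J → NoUnr l K F J
  B : FixP D K F

end H68TL
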