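import Pool.Agent.H68.TL.StL
import Pool.Agent.H68.TK.Del

/-!
# MP_78d38b: fields of `l`-type, the chain of `l`-steps
-/

set_option autoImplicit false
set_option linter.style.haveILetI false
open scoped Classical

open IsDedekindDomain NumberField WithZero Finset Pool.Agent.H10 H5SW H68QS H68IM

namespace H68TL

/-- The chain of `l`-steps. -/
theorem chainL {l p M : ℕ} [Fact l.Prime] [Fact p.Prime] (hl2 : l ≠ 2) (hM : M ≠ 0) (hlM : l ∣ M)
    (hbase : ∀ (B : Type) [Field B] [NumberField B], IsCyclotomicExtension {M} ℚ B → ∀ D : ℤ,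
      D ≠ 0 → ∃ N : ℕ, ∀ (K' L' K L : Type) [Field K'] [NumberField K'] [Field L']
      [NumberField L'] [Field K] [NumberField K] [Field L] [NumberField L] [Algebra K' L']
      [Algebra K L], Comp B K' L' K L → IsR p L' → (∃ i : ℕ, Module.finrank K' L' = p ^ i) →
      p ^ N ∣ Module.finrank ℚ K' → GoodL l D K L) :
    ∀ (n : ℕ) (B : Type) [Field B] [NumberField B], Module.finrank ℚ B = n → LT l M B →
    ∀ D : ℤ, D ≠ 0 → ∃ N : ℕ, ∀ (K' L' K L : Type) [Field K'] [NumberField K'] [Field L']
      [NumberField L'] [Field K] [NumberField K] [Field L] [NumberField L] [Algebra K' L']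
      [Algebra K L], Comp B K' L' K L → IsR p L' → (∃ i : ℕ, Module.finrank K' L' = p ^ i) →
      p ^ N ∣ Module.finrank ℚ K' → GoodL l D K L := by
  intro n
  induction n using Nat.strong_induction_on with
  | _ n ih =>
    intro B _ _ hn hB D hD
    rcases exists_index_l hM hB with hcyc | ⟨F, hF, hFG, hFT⟩
    · exact hbase B hcyc D hD
    · obtain ⟨δ, m, hm0, hadj, hd⟩ := H68TK.exists_delta3 (F := F) (k := B)
      have hlt : Module.finrank ℚ F < n := by
        have h3 := Module.finrank_mul_finrank ℚ F B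
        have h4 : 0 < Module.finrank ℚ F := Module.finrank_pos
        have h5 := (Fact.out : l.Prime).two_le
        rw [hF, hn] at h3
        nlinarith
      obtain ⟨N, hN⟩ := ih _ hlt F rfl hFT (m * D) (mul_ne_zero hm0 hD)
      refine ⟨N, ?_⟩
      intro K' L' K L _ _ _ _ _ _ _ _ _ _ C hL hi hKN
      have hDD : D ∣ m * D := dvd_mul_left _ _
      have hmD : m ∣ m * D := dvd_mul_right _ _
      rcases sub_pair' C F (δ : B) hadj with ⟨C₁, hC₁⟩ | ⟨K0, L0, _, _, _, _, _, _, _, _, _, _,
        C₁, hf, hne, hgK, hgL, hgen⟩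
      · exact (hN K' L' K L C₁ hL hi hKN).weaken hDD
      · have G := hN K' L' K0 L0 C₁ hL hi hKN
        obtain ⟨hG, h3, hd'⟩ := l_push (F := F) (k := B) (K0 := K0) (K := K) hF C.f C₁.f
          (fun x => hf x) hne hgK (fun τ hτ => hd τ hτ)
        haveI := hG
        refine goodL_step hl2 h3 hgen ?_ ?_ hd' hDD hmD G
        · -- the roots of unity
          intro z hz
          obtain ⟨ζ, hζ⟩ := LT.zeta hM hlM hFT
          have hζ' : IsPrimitiveRoot (algebraMap K0 L (C₁.f ζ)) l :=
            hζ.map_of_injective (f := ((algebraMap K0 L).comp C₁.f))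
              ((algebraMap K0 L).comp C₁.f).injective
          haveI : NeZero l := ⟨(Fact.out : l.Prime).ne_zero⟩
          obtain ⟨i, -, hi'⟩ := hζ'.eq_pow_of_pow_eq_one hz
          exact ⟨(C₁.f ζ) ^ i, by rw [map_pow]; exact hi'⟩
        · intro J2 hJ2
          obtain ⟨JB, hJB⟩ := LT.cc hFT
          obtain ⟨J, hJ, hJc⟩ := comp_down C₁ hL.1 hJB hJ2
          exact ⟨J, hJ, comp_stab C₁ hL.1 hJB hJ, hJc⟩

end H68TL
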