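import Pool.Agent.H68.TL.Bag
import Pool.Agent.H68.TL.Chn

/-!
# MP_78d38b: fields of `l`-type, all layers high enough are good
-/

set_option autoImplicit false
open scoped Classical

open NumberField H5SW H68QS H68IM

namespace H68TL

/-- Let `B` be a field of `l`-type (conductor `M` arbitrary, divisible by `l`). All layers `L / K` of
the field `B ℚ_∞` which are high enough are good. -/
theorem layerL {l p M : ℕ} [Fact l.Prime] [Fact p.Prime] (hl2 : l ≠ 2) (hp2 : p ≠ 2)
    (hlp : l ≠ p) (hlM : l ∣ M) (hM : M ≠ 0) (B : Type) [Field B] [NumberField B]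
    (hB : LT l M B) (D : ℤ) (hD : D ≠ 0) :
    ∃ N : ℕ, ∀ (K' L' K L : Type) [Field K'] [NumberField K'] [Field L']
      [NumberField L'] [Field K] [NumberField K] [Field L] [NumberField L] [Algebra K' L']
      [Algebra K L], Comp B K' L' K L → IsR p L' → (∃ i : ℕ, Module.finrank K' L' = p ^ i) →
      p ^ N ∣ Module.finrank ℚ K' → GoodL l D K L :=
  chainL hl2 hM hlM (fun B _ _ hB D hD => goodL_base_g hl2 hp2 hlp hlM hM B hB D hD) _ B rfl hB
    D hD

end H68TL
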