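import Pool.Agent.H68.TL.Dfm
import Pool.Agent.H68.TL.Psh

/-!
# MP_78d38b: the layer `L / K = B L' / B K'` inside `F / Km`, `B` of conductor `M p^a`
(after helper33, `Bst.lean`)
-/

set_option autoImplicit false
set_option linter.style.haveILetI false
open scoped Classical

open IsDedekindDomain NumberField H5SW H68QS H68IM H78M

namespace H68TL

/-- a subfield which contains a primitive `M`-th root of unity is everything -/
private theorem Bsg_cyc {M : ℕ} [NeZero M] {B : Type} [Field B] [NumberField B]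
    [IsCyclotomicExtension {M} ℚ B] (N : Subfield B) {z : B} (hz : IsPrimitiveRoot z M) (h : z ∈ N)
    (x : B) : x ∈ N := by
  have h1 : x ∈ Algebra.adjoin ℚ ({z} : Set B) := by
    rw [IsCyclotomicExtension.adjoin_primitive_root_eq_top hz]
    exact Algebra.mem_top
  induction h1 using Algebra.adjoin_induction with
  | mem y hy => rw [Set.mem_singleton_iff.1 hy]; exact h
  | algebraMap r =>
    rw [eq_ratCast (algebraMap ℚ B) r]
    exact SubfieldClass.ratCast_mem N r
  | add y y' _ _ hy hy' => exact N.add_mem hy hy'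
  | mul y y' _ _ hy hy' => exact N.mul_mem hy hy'

/-- a subfield of `L` which contains the images of `B` and `L'` is everything -/
private theorem Bsg_genL {B K' L' K L : Type} [Field B] [Field K'] [Field L'] [Field K] [NumberField K]
    [Field L] [NumberField L] [Algebra K' L'] [Algebra K L] (C : Comp B K' L' K L) (N : Subfield L)
    (h1 : ∀ b, algebraMap K L (C.f b) ∈ N) (h2 : ∀ y, C.h y ∈ N) (x : L) : x ∈ N := by
  refine gen_mem C.genL N (fun q => ?_) ?_ x
  · rw [eq_ratCast (algebraMap ℚ L) q]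
    exact SubfieldClass.ratCast_mem N q
  · rintro _ (⟨b, rfl⟩ | ⟨y, rfl⟩)
    · exact h1 b
    · exact h2 y

private theorem Bsg_genK {B K' L' K L : Type} [Field B] [Field K'] [Field L'] [Field K] [NumberField K]
    [Field L] [NumberField L] [Algebra K' L'] [Algebra K L] (C : Comp B K' L' K L) (N : Subfield K)
    (h1 : ∀ b, C.f b ∈ N) (h2 : ∀ y, C.g y ∈ N) (x : K) : x ∈ N := by
  refine gen_mem C.genK N (fun q => ?_) ?_ x
  · rw [eq_ratCast (algebraMap ℚ K) q]
    exact SubfieldClass.ratCast_mem N q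
  · rintro _ (⟨b, rfl⟩ | ⟨y, rfl⟩)
    · exact h1 b
    · exact h2 y

/-- (1) the embedding of `L` -/
private theorem Bsg_iota {M : ℕ} [NeZero M] {B K' L' K L F : Type} [Field B] [NumberField B]
    [Field K'] [Field L'] [NumberField L'] [Field K] [NumberField K]
    [Field L] [NumberField L] [Field F] [NumberField F] [IsCyclotomicExtension {M} ℚ B]
    [Algebra K' L'] [Algebra K L] [Algebra L' F] (C : Comp B K' L' K L) {w : F}
    (hw : IsPrimitiveRoot w M) : ∃ ι : L →+* F, ∀ x, ι (C.h x) = algebraMap L' F x := by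
  letI : Algebra L' L := C.h.toAlgebra
  have hz := IsCyclotomicExtension.zeta_spec M ℚ B
  set z := IsCyclotomicExtension.zeta M ℚ B with hzz
  have hz1 : (algebraMap K L (C.f z)) ^ M = 1 := by
    rw [← map_pow, ← map_pow, hz.pow_eq_one, map_one, map_one]
  have hadj : IntermediateField.adjoin L' ({algebraMap K L (C.f z)} : Set L) = ⊤ := by
    refine adj_top fun N hB hM x => ?_
    refine Bsg_genL C N (fun b => ?_) (fun y => hB y) x
    exact Bsg_cyc (N.comap ((algebraMap K L).comp C.f)) hz (hM rfl) b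
  have hfd : FiniteDimensional L' L := Module.Finite.of_restrictScalars_finite ℚ L' L
  have hdvd : minpoly L' (algebraMap K L (C.f z)) ∣ Polynomial.X ^ M - Polynomial.C 1 := by
    refine minpoly.dvd _ _ ?_
    rw [map_sub, map_pow, Polynomial.aeval_X, Polynomial.aeval_C, map_one, hz1, sub_self]
  have hne : (Polynomial.X ^ M - Polynomial.C (1 : F)) ≠ 0 :=
    Polynomial.X_pow_sub_C_ne_zero (NeZero.pos M) 1
  obtain ⟨φ⟩ := IntermediateField.nonempty_algHom_of_adjoin_splits (F := L') (E := L) (K := F)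
    (S := {algebraMap K L (C.f z)}) (fun s hs => by
      rw [Set.mem_singleton_iff.1 hs]
      refine ⟨IsIntegral.of_finite L' _, ?_⟩
      have h1 := Polynomial.X_pow_sub_one_splits hw
      refine h1.of_dvd hne ?_
      have h2 := Polynomial.map_dvd (algebraMap L' F) hdvd
      rwa [Polynomial.map_sub, Polynomial.map_pow, Polynomial.map_X, Polynomial.map_C, map_one] at h2) hadj
  exact ⟨φ.toRingHom, fun x => φ.commutes x⟩

private theorem Bsg_rho {K M K2 M2 : Type} [Field K] [Field M] [Field K2] [Field M2]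
    [Algebra K M] [Algebra K K2] [Algebra K M2] [Algebra M M2] [Algebra K2 M2]
    [IsScalarTower K M M2] [IsScalarTower K K2 M2] [Normal K K2]
    (hgen : IntermediateField.adjoin M (Set.range (algebraMap K2 M2)) = ⊤) :
    ∃ ρ : (M2 ≃ₐ[M] M2) →* (K2 ≃ₐ[K] K2), Function.Injective ρ ∧
      ∀ τ x, algebraMap K2 M2 (ρ τ x) = τ (algebraMap K2 M2 x) := by
  let ρ : (M2 ≃ₐ[M] M2) →* (K2 ≃ₐ[K] K2) :=
    (AlgEquiv.restrictNormalHom K2).comp (AlgEquiv.restrictScalarsHom K)
  have hc : ∀ τ x, algebraMap K2 M2 (ρ τ x) = τ (algebraMap K2 M2 x) := fun τ x =>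
    AlgEquiv.restrictNormal_commutes (τ.restrictScalars K) K2 x
  refine ⟨ρ, ?_, hc⟩
  rw [injective_iff_map_eq_one]
  intro τ hτ
  have h1 : ∀ x, x ∈ (RingHom.eqLocusField (τ : M2 →+* M2) (RingHom.id M2)) := by
    refine gen_mem hgen _ (fun b => ?_) ?_
    · exact τ.commutes b
    · rintro _ ⟨x, rfl⟩
      have h2 := hc τ x
      rw [hτ] at h2
      exact h2.symm
  ext x
  exact h1 x

/-- (4) the extension `L / K` -/
private theorem Bsg_galL {l p i : ℕ} [Fact l.Prime] [Fact p.Prime] (hlp : l ≠ p)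
    {B K' L' K L : Type} [Field B] [NumberField B] [Field K'] [NumberField K']
    [Field L'] [NumberField L'] [Field K] [NumberField K] [Field L] [NumberField L]
    [Algebra K' L'] [Algebra K L] (C : Comp B K' L' K L) (hL' : IsGalois ℚ L')
    (hi : Module.finrank K' L' = p ^ i) :
    IsGalois K L ∧ ¬ l ∣ Module.finrank K L ∧
      ∀ h : L ≃ₐ[K] L, ∃ t : L' ≃ₐ[K'] L', ∀ x, C.h (t x) = h (C.h x) := by
  letI a1 : Algebra K' K := C.g.toAlgebra
  letI a2 : Algebra L' L := C.h.toAlgebra
  letI a3 : Algebra K' L := ((algebraMap K L).comp C.g).toAlgebra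
  haveI t1 : IsScalarTower K' K L := IsScalarTower.of_algebraMap_eq (fun x => rfl)
  haveI t2 : IsScalarTower K' L' L := IsScalarTower.of_algebraMap_eq (fun x => (C.comm x).symm)
  haveI hG' : IsGalois K' L' := IsGalois.tower_top_of_isGalois ℚ K' L'
  have hgen : IntermediateField.adjoin K (Set.range (algebraMap L' L)) = ⊤ := by
    refine adj_top fun N hB hM x => ?_
    exact Bsg_genL C N (fun b => hB (C.f b)) (fun y => hM ⟨y, rfl⟩) x
  haveI hG : IsGalois K L := galois_up (K := K') (L := L') (K2 := K) (L2 := L) hgen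
  haveI f1 : FiniteDimensional K' L' := Module.Finite.of_restrictScalars_finite ℚ K' L'
  haveI f2 : FiniteDimensional K L := Module.Finite.of_restrictScalars_finite ℚ K L
  obtain ⟨ρ, hρ, hc⟩ := Bsg_rho (K := K') (M := K) (K2 := L') (M2 := L) hgen
  refine ⟨hG, ?_, fun h => ⟨ρ h, fun x => hc h x⟩⟩
  intro hd
  have h1 := Subgroup.card_dvd_of_injective ρ hρ
  rw [IsGalois.card_aut_eq_finrank, IsGalois.card_aut_eq_finrank, hi] at h1
  have h2 := (Fact.out : l.Prime).dvd_of_dvd_pow (hd.trans h1)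
  exact hlp ((Nat.prime_dvd_prime_iff_eq Fact.out Fact.out).1 h2)

/-- the degree of `F` over the smaller cyclotomic field -/
private theorem Bsg_deg {l p M m n : ℕ} [Fact l.Prime] [Fact p.Prime] [NeZero M] (hlp : l ≠ p)
    (hpM : p.Coprime M) (hmn : m ≤ n) {Km F : Type} [Field Km] [NumberField Km] [Field F]
    [NumberField F] [Algebra Km F] [IsCyclotomicExtension {M * p ^ (m + 1)} ℚ Km]
    [IsCyclotomicExtension {M * p ^ (n + 1)} ℚ F] : ¬ l ∣ Module.finrank Km F := by
  have hp : p.Prime := Fact.out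
  haveI h0 : NeZero (M * p ^ (m + 1)) := ⟨mul_ne_zero (NeZero.ne M) (pow_ne_zero _ hp.ne_zero)⟩
  haveI h1 : NeZero (M * p ^ (n + 1)) := ⟨mul_ne_zero (NeZero.ne M) (pow_ne_zero _ hp.ne_zero)⟩
  have e1 : Module.finrank ℚ Km = M.totient * (p ^ m * (p - 1)) := by
    rw [IsCyclotomicExtension.finrank (n := M * p ^ (m + 1)) Km
      (Polynomial.cyclotomic.irreducible_rat (NeZero.pos (M * p ^ (m + 1)))),
      Nat.totient_mul ((hpM.symm).pow_right _), Nat.totient_prime_pow_succ hp]
  have e2 : Module.finrank ℚ F = M.totient * (p ^ n * (p - 1)) := by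
    rw [IsCyclotomicExtension.finrank (n := M * p ^ (n + 1)) F
      (Polynomial.cyclotomic.irreducible_rat (NeZero.pos (M * p ^ (n + 1)))),
      Nat.totient_mul ((hpM.symm).pow_right _), Nat.totient_prime_pow_succ hp]
  haveI f1 : FiniteDimensional Km F := Module.Finite.of_restrictScalars_finite ℚ Km F
  have e3 := Module.finrank_mul_finrank ℚ Km F
  rw [e1, e2] at e3
  have e4 : Module.finrank Km F = p ^ (n - m) := by
    have hpos : 0 < M.totient * (p ^ m * (p - 1)) :=
      Nat.mul_pos (Nat.totient_pos.2 (NeZero.pos M))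
        (Nat.mul_pos (pow_pos hp.pos _) (Nat.sub_pos_of_lt hp.one_lt))
    refine Nat.eq_of_mul_eq_mul_left hpos ?_
    rw [e3]
    have e5 : p ^ n = p ^ m * p ^ (n - m) := by rw [← pow_add, Nat.add_sub_cancel' hmn]
    rw [e5]
    ring
  rw [e4]
  intro hd
  exact hlp ((Nat.prime_dvd_prime_iff_eq Fact.out Fact.out).1
    ((Fact.out : l.Prime).dvd_of_dvd_pow hd))

private theorem Bsg_pow_mod {C : Type} [Field C] {η : C} {N : ℕ} (h : η ^ N = 1) (a : ℕ) :
    η ^ (a % N) = η ^ a := by
  conv_rhs => rw [← Nat.mod_add_div a N, pow_add, pow_mul, h, one_pow, mul_one]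

theorem exists_sp_g {l p M a m n : ℕ} [Fact l.Prime] [Fact p.Prime] [NeZero M] (hlp : l ≠ p)
    (hlM : l ∣ M) (hpM : p.Coprime M) (ham : a ≤ m + 1) {hmn : m ≤ n} {B K' L' K L F : Type} [Field B]
    [NumberField B] [Field K'] [NumberField K'] [Field L'] [NumberField L'] [Field K]
    [NumberField K] [Field L] [NumberField L] [Field F] [NumberField F]
    [IsCyclotomicExtension {M * p ^ a} ℚ B] [Algebra K' L'] [Algebra K L]
    [IsCyclotomicExtension {M * p ^ (n + 1)} ℚ F] [Algebra L' F] [Algebra K' F]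
    [IsScalarTower K' L' F] (C : Comp B K' L' K L) (hL' : IsGalois ℚ L') {i : ℕ}
    (hi : Module.finrank K' L' = p ^ i) (X : CTm p M m n hmn K' L' F) :
    ∃ (Km : Type) (_ : Field Km) (_ : NumberField Km)
      (_ : IsCyclotomicExtension {M * p ^ (m + 1)} ℚ Km) (_ : Algebra K Km) (_ : Algebra Km F)
      (_ : Algebra K F) (_ : IsScalarTower K Km F) (_ : Algebra L F) (_ : IsScalarTower K L F),
      SP l K Km L F ∅ := by
  have hp : p.Prime := Fact.out
  haveI h0 : NeZero (M * p ^ (m + 1)) := ⟨mul_ne_zero (NeZero.ne M) (pow_ne_zero _ hp.ne_zero)⟩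
  haveI h1 : NeZero (M * p ^ (n + 1)) := ⟨mul_ne_zero (NeZero.ne M) (pow_ne_zero _ hp.ne_zero)⟩
  haveI ha : NeZero (M * p ^ a) := ⟨mul_ne_zero (NeZero.ne M) (pow_ne_zero _ hp.ne_zero)⟩
  have hζ := IsCyclotomicExtension.zeta_spec (M * p ^ (n + 1)) ℚ F
  have hz := IsCyclotomicExtension.zeta_spec (M * p ^ a) ℚ B
  obtain ⟨ζ₁, hζ₁⟩ : ∃ ζ₁ : F, IsPrimitiveRoot ζ₁ (M * p ^ (m + 1)) :=
    ⟨_, hζ.pow (NeZero.pos _) (a := p ^ (n - m)) (b := M * p ^ (m + 1)) (by
      have e5 : p ^ (n + 1) = p ^ (n - m) * p ^ (m + 1) := by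
        rw [← pow_add]
        congr 1
        omega
      rw [e5]
      ring)⟩
  have hw : IsPrimitiveRoot (ζ₁ ^ (p ^ (m + 1 - a))) (M * p ^ a) :=
    hζ₁.pow (NeZero.pos _) (a := p ^ (m + 1 - a)) (b := M * p ^ a) (by
      have e5 : p ^ (m + 1) = p ^ (m + 1 - a) * p ^ a := by
        rw [← pow_add]
        congr 1
        omega
      rw [e5]
      ring)
  haveI hG : IsGalois ℚ F := IsCyclotomicExtension.isGalois {M * p ^ (n + 1)} ℚ F
  let Km : IntermediateField ℚ F := IntermediateField.adjoin ℚ {ζ₁}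
  haveI hNF : NumberField Km := NumberField.of_intermediateField _
  haveI hKm : IsCyclotomicExtension {M * p ^ (m + 1)} ℚ Km :=
    hζ₁.intermediateField_adjoin_isCyclotomicExtension ℚ
  haveI hGK : IsGalois Km F := IsGalois.tower_top_of_isGalois ℚ Km F
  have hroot : ∀ y : F, y ^ (M * p ^ a) = 1 → y ∈ Km := by
    intro y hy
    obtain ⟨j, -, rfl⟩ := hw.eq_pow_of_pow_eq_one hy
    exact pow_mem (pow_mem (IntermediateField.mem_adjoin_simple_self ℚ ζ₁) (p ^ (m + 1 - a))) j
  have hfix : ∀ y : F, (∀ g : F ≃ₐ[ℚ] F, InH p M m n hmn g → g y = y) → y ∈ Km := by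
    intro y hy
    have h2 : y ∈ (⊥ : IntermediateField Km F) := by
      rw [IsGalois.mem_bot_iff_fixed]
      intro τ
      have h3 : InH p M m n hmn (τ.restrictScalars ℚ) := by
        rw [inH_iff (Km := Km) hmn]
        intro x
        exact τ.commutes x
      exact hy (τ.restrictScalars ℚ) h3
    obtain ⟨x, hx⟩ := IntermediateField.mem_bot.1 h2
    rw [← hx]
    exact x.2
  obtain ⟨ι, hι⟩ := Bsg_iota (M := M * p ^ a) C hw
  have hB : ∀ b : B, ι (algebraMap K L (C.f b)) ∈ Km := by
    intro b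
    refine Bsg_cyc (Km.toSubfield.comap (ι.comp ((algebraMap K L).comp C.f))) hz ?_ b
    change ι (algebraMap K L (C.f _)) ∈ Km
    refine hroot _ ?_
    rw [← map_pow, ← map_pow, ← map_pow, hz.pow_eq_one, map_one, map_one, map_one]
  have hKK : ∀ x : K, (ι.comp (algebraMap K L)) x ∈ Km := by
    intro x
    refine Bsg_genK C (Km.toSubfield.comap (ι.comp (algebraMap K L))) (fun b => hB b) (fun y => ?_) x
    change ι (algebraMap K L (C.g y)) ∈ Km
    rw [← C.comm, hι, ← IsScalarTower.algebraMap_apply K' L' F]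
    exact hfix _ (fun g hg => X.fixK g hg y)
  obtain ⟨hgalB, hnlB, ht⟩ := Bsg_galL hlp C hL' hi
  letI aKm : Algebra K Km := (RingHom.codRestrict (ι.comp (algebraMap K L)) Km hKK).toAlgebra
  letI aLF : Algebra L F := ι.toAlgebra
  letI aKF : Algebra K F := (ι.comp (algebraMap K L)).toAlgebra
  have t1 : IsScalarTower K Km F := IsScalarTower.of_algebraMap_eq (fun x => rfl)
  have t2 : IsScalarTower K L F := IsScalarTower.of_algebraMap_eq (fun x => rfl)
  have hgal : IsGalois K F := IsGalois.tower_top_of_isGalois ℚ K F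
  refine ⟨Km, inferInstance, hNF, hKm, aKm, inferInstance, aKF, t1, aLF, t2, ?_⟩
  refine ⟨hgal, hgalB, ?_, Bsg_deg hlp hpM hmn, hnlB, ?_, ⟨?_, ?_⟩, ?_⟩
  · intro g h
    have h2 : (g * h).restrictScalars ℚ = (h * g).restrictScalars ℚ := by
      apply (IsCyclotomicExtension.Rat.galEquivZMod (M * p ^ (n + 1)) F).injective
      change IsCyclotomicExtension.Rat.galEquivZMod (M * p ^ (n + 1)) F
        (g.restrictScalars ℚ * h.restrictScalars ℚ) =
        IsCyclotomicExtension.Rat.galEquivZMod (M * p ^ (n + 1)) F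
        (h.restrictScalars ℚ * g.restrictScalars ℚ)
      rw [map_mul, map_mul]
      exact mul_comm _ _
    ext x
    exact DFunLike.congr_fun h2 x
  · intro z hz
    obtain ⟨k, hk⟩ := hlM
    exact ⟨⟨z, hroot z (by rw [hk, mul_assoc, pow_mul, hz, one_pow])⟩, rfl⟩
  · intro g
    refine ⟨(g.restrictScalars K).restrictNormal L, trivial, fun x => ?_⟩
    exact (AlgEquiv.restrictNormal_commutes (g.restrictScalars K) L x).symm
  · intro h _
    obtain ⟨t, htt⟩ := ht h
    obtain ⟨g, hg, hgt⟩ := X.cov t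
    have hgK := (inH_iff (Km := Km) hmn g).1 hg
    refine ⟨AlgEquiv.ofRingEquiv (f := (g : F ≃+* F)) hgK, ?_⟩
    intro x
    change g (ι x) = ι (h x)
    refine Bsg_genL C (RingHom.eqLocusField ((g : F →+* F).comp ι) (ι.comp (h : L →+* L)))
      (fun b => ?_) (fun y => ?_) x
    · change g (ι (algebraMap K L (C.f b))) = ι (h (algebraMap K L (C.f b)))
      rw [h.commutes]
      exact hgK ⟨ι (algebraMap K L (C.f b)), hB b⟩
    · change g (ι (C.h y)) = ι (h (C.h y))
      rw [hι, hgt, ← htt, hι]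
  · intro τ hτ
    exact absurd hτ (Set.notMem_empty τ)

end H68TL
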