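import Pool.Agent.H68.TL.Ccl
import Pool.Agent.H78.MG.Df

/-!
ROW Ccy (complex conjugation of a cyclotomic field; about 60 lines).  PROOF.
`J = (IsCyclotomicExtension.Rat.galEquivZMod N C).symm (-1)`. `ζ = IsCyclotomicExtension.zeta N ℚ C`: `J ζ = ζ ^ ((-1 : ZMod N).val)` (`IsCyclotomicExtension.Rat.galEquivZMod_apply_of_pow_eq`), `= ζ⁻¹` (`ζ * ζ ^ (-1 : ZMod N).val = 1` since
`1 + (-1 : ZMod N).val = 0` modulo `N`). For `φ : C →+* ℂ`: `φ ζ` is a root of unity, of absolute value `1` (`Complex.norm_eq_one_of_pow_eq_one`), so `conj (φ ζ) = (φ ζ)⁻¹ = φ (J ζ)` (`Complex.inv_def`/`Complex.conj_eq_inv..`,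
`Complex.mul_conj`). The set of `x` with `φ (J x) = conj (φ x)` is a subfield (`RingHom.eqLocusField` of the two ring homomorphisms) containing `ζ`, and `C = ℚ(ζ)` (`IsCyclotomicExtension.adjoin_primitive_root_eq_top`-type lemma for
`IntermediateField.adjoin` or `Algebra.adjoin`).
-/

set_option autoImplicit false
open scoped Classical

open IsDedekindDomain NumberField H78M

namespace H68TL

theorem exists_JC (N : ℕ) [NeZero N] (C : Type) [Field C] [NumberField C]
    [IsCyclotomicExtension {N} ℚ C] : ∃ J : C ≃ₐ[ℚ] C, kp N J = -1 ∧ IsCC (J : C ≃+* C) := by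
  obtain ⟨J, hJ⟩ : ∃ J : C ≃ₐ[ℚ] C, kp N J = -1 :=
    ⟨(IsCyclotomicExtension.Rat.galEquivZMod N C).symm (-1),
      (IsCyclotomicExtension.Rat.galEquivZMod N C).apply_symm_apply (-1)⟩
  refine ⟨J, hJ, ?_⟩
  have hζ := IsCyclotomicExtension.zeta_spec N ℚ C
  obtain ⟨ζ, hζd⟩ : ∃ ζ : C, ζ = IsCyclotomicExtension.zeta N ℚ C := ⟨_, rfl⟩
  rw [← hζd] at hζ
  have h1 : ζ ^ N = 1 := hζ.pow_eq_one
  have h2 : J ζ = ζ ^ ((-1 : (ZMod N)ˣ)).val.val := by
    have h := IsCyclotomicExtension.Rat.galEquivZMod_apply_of_pow_eq N C J h1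
    rw [show IsCyclotomicExtension.Rat.galEquivZMod N C J = -1 from hJ] at h
    exact h
  have h3 : ζ * J ζ = 1 := by
    rw [h2, ← pow_succ']
    have h4 : N ∣ ((-1 : (ZMod N)ˣ)).val.val + 1 := by
      rw [← ZMod.natCast_eq_zero_iff]
      push_cast
      rw [ZMod.natCast_zmod_val]
      simp
    obtain ⟨k, hk⟩ := h4
    rw [hk, pow_mul, h1, one_pow]
  intro φ x
  have h5 : starRingEnd ℂ (φ ζ) = φ (J ζ) := by
    have hn : ‖φ ζ‖ = 1 := by
      apply Complex.norm_eq_one_of_pow_eq_one (n := N) _ (NeZero.ne N)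
      rw [← map_pow, h1, map_one]
    have hz : φ ζ * starRingEnd ℂ (φ ζ) = 1 := by
      rw [Complex.mul_conj, Complex.normSq_eq_norm_sq, hn]
      simp
    have hz2 : φ ζ * φ (J ζ) = 1 := by rw [← map_mul, h3, map_one]
    have hz0 : φ ζ ≠ 0 := left_ne_zero_of_mul_eq_one hz
    exact mul_left_cancel₀ hz0 (hz.trans hz2.symm)
  have htop := IsCyclotomicExtension.adjoin_primitive_root_eq_top (A := ℚ) hζ
  have hx : x ∈ Algebra.adjoin ℚ ({ζ} : Set C) := by rw [htop]; exact Algebra.mem_top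
  refine Algebra.adjoin_induction (p := fun y _ => φ (J y) = starRingEnd ℂ (φ y)) ?_ ?_ ?_ ?_ hx
  · intro y hy
    rw [Set.mem_singleton_iff] at hy
    rw [hy]
    exact h5.symm
  · intro q
    rw [J.commutes, eq_ratCast, map_ratCast, map_ratCast]
  · intro y z _ _ hy hz
    rw [map_add, map_add, map_add, map_add, hy, hz]
  · intro y z _ _ hy hz
    rw [map_mul, map_mul, map_mul, map_mul, hy, hz]

end H68TL
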