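import Mathlib

/-!
# MP_78d38b: characters of groups with values in `ℤ / l`, group theory of the `l`-step
-/

set_option autoImplicit false
set_option linter.style.haveILetI false

open Finset

namespace H68TL

section

variable {G : Type*} [Group G] {l : ℕ}

/-- additivity on a subgroup -/
def AddOn (S : Subgroup G) (a : G → ZMod l) : Prop := ∀ u ∈ S, ∀ v ∈ S, a (u * v) = a u + a v

lemma AddOn.one {S : Subgroup G} {a : G → ZMod l} (h : AddOn S a) : a 1 = 0 := by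
  have h1 := h 1 S.one_mem 1 S.one_mem
  rw [mul_one] at h1
  exact left_eq_add.mp h1

lemma AddOn.inv {S : Subgroup G} {a : G → ZMod l} (h : AddOn S a) {u : G} (hu : u ∈ S) :
    a u⁻¹ = -a u := by
  have h1 := h u hu u⁻¹ (S.inv_mem hu)
  rw [mul_inv_cancel, h.one] at h1
  exact (neg_eq_of_add_eq_zero_right h1.symm).symm

lemma AddOn.conj {S : Subgroup G} {a : G → ZMod l} (h : AddOn S a) {c u : G} (hc : c ∈ S)
    (hu : u ∈ S) : a (c * u * c⁻¹) = a u := by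
  rw [h _ (S.mul_mem hc hu) _ (S.inv_mem hc), h _ hc _ hu, h.inv hc]
  ring

lemma AddOn.pow {S : Subgroup G} {a : G → ZMod l} (h : AddOn S a) {u : G} (hu : u ∈ S) (n : ℕ) :
    a (u ^ n) = n * a u := by
  induction n with
  | zero => rw [pow_zero, h.one, Nat.cast_zero, zero_mul]
  | succ n ih =>
    rw [pow_succ, h _ (S.pow_mem hu n) _ hu, ih]
    push_cast
    ring

/-- Extension of a character from a normal subgroup with cyclic quotient of order `l`. -/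
theorem extend_char {S S2 : Subgroup G} (hle : S2 ≤ S) {s : G}
    (hex : ∀ g ∈ S, ∃ i : ℕ, (s ^ i)⁻¹ * g ∈ S2) (hl : ∀ i : ℕ, s ^ i ∈ S2 → l ∣ i)
    (hsl : s ^ l ∈ S2) (hn : ∀ u ∈ S2, s⁻¹ * u * s ∈ S2)
    {a : G → ZMod l} (ha : AddOn S2 a) (hinv : ∀ u ∈ S2, a (s⁻¹ * u * s) = a u)
    (hal : a (s ^ l) = 0) : ∃ a' : G → ZMod l, (∀ u ∈ S2, a' u = a u) ∧ AddOn S a' := by
  classical
  -- conjugation by powers of `s`
  have hnp : ∀ n : ℕ, ∀ u ∈ S2, (s ^ n)⁻¹ * u * s ^ n ∈ S2 ∧ a ((s ^ n)⁻¹ * u * s ^ n) = a u := by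
    intro n
    induction n with
    | zero =>
      intro u hu
      simpa using hu
    | succ n ih =>
      intro u hu
      obtain ⟨h1, h2⟩ := ih u hu
      have e : (s ^ (n + 1))⁻¹ * u * s ^ (n + 1) = s⁻¹ * ((s ^ n)⁻¹ * u * s ^ n) * s := by
        rw [pow_succ]
        group
      rw [e]
      exact ⟨hn _ h1, by rw [hinv _ h1, h2]⟩
  -- the powers of `s` in `S2`
  have hpz : ∀ k : ℕ, s ^ k ∈ S2 → a (s ^ k) = 0 := by
    intro k hk
    obtain ⟨c, rfl⟩ := hl k hk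
    rw [pow_mul, ha.pow hsl, hal, mul_zero]
  -- the value does not depend on the choice
  have hwd1 : ∀ (g : G) (i j : ℕ), i ≤ j → (s ^ i)⁻¹ * g ∈ S2 → (s ^ j)⁻¹ * g ∈ S2 →
      a ((s ^ i)⁻¹ * g) = a ((s ^ j)⁻¹ * g) := by
    intro g i j hij hi hj
    obtain ⟨k, rfl⟩ := Nat.exists_eq_add_of_le hij
    have e1 : (s ^ i)⁻¹ * g = s ^ k * ((s ^ (i + k))⁻¹ * g) := by
      rw [add_comm i k, pow_add]
      group
    have hk : s ^ k ∈ S2 := by
      have e2 : s ^ k = ((s ^ i)⁻¹ * g) * ((s ^ (i + k))⁻¹ * g)⁻¹ := by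
        rw [e1]
        group
      rw [e2]
      exact S2.mul_mem hi (S2.inv_mem hj)
    rw [e1, ha _ hk _ hj, hpz k hk, zero_add]
  have hwd : ∀ (g : G) (i j : ℕ), (s ^ i)⁻¹ * g ∈ S2 → (s ^ j)⁻¹ * g ∈ S2 →
      a ((s ^ i)⁻¹ * g) = a ((s ^ j)⁻¹ * g) := by
    intro g i j hi hj
    rcases le_total i j with h | h
    · exact hwd1 g i j h hi hj
    · exact (hwd1 g j i h hj hi).symm
  let ch : G → ℕ := fun g => if h : g ∈ S then (hex g h).choose else 0
  have hch : ∀ g ∈ S, (s ^ ch g)⁻¹ * g ∈ S2 := by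
    intro g hg
    have h1 : ch g = (hex g hg).choose := dif_pos hg
    rw [h1]
    exact (hex g hg).choose_spec
  refine ⟨fun g => a ((s ^ ch g)⁻¹ * g), fun u hu => ?_, fun g hg g' hg' => ?_⟩
  · have h1 := hwd u (ch u) 0 (hch u (hle hu)) (by simpa using hu)
    change a ((s ^ ch u)⁻¹ * u) = a u
    rw [h1, pow_zero, inv_one, one_mul]
  · change a ((s ^ ch (g * g'))⁻¹ * (g * g')) = a ((s ^ ch g)⁻¹ * g) + a ((s ^ ch g')⁻¹ * g')
    obtain ⟨h1, h2⟩ := hnp (ch g') _ (hch g hg)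
    have e : (s ^ (ch g + ch g'))⁻¹ * (g * g') =
        ((s ^ ch g')⁻¹ * ((s ^ ch g)⁻¹ * g) * s ^ ch g') * ((s ^ ch g')⁻¹ * g') := by
      rw [pow_add]
      group
    have h3 : (s ^ (ch g + ch g'))⁻¹ * (g * g') ∈ S2 := by
      rw [e]
      exact S2.mul_mem h1 (hch g' hg')
    rw [hwd _ _ _ (hch _ (S.mul_mem hg hg')) h3, e, ha _ h1 _ (hch g' hg'), h2]

lemma two_ne [Fact l.Prime] (hl2 : l ≠ 2) : (2 : ZMod l) ≠ 0 := by
  intro h6
  have h7 : ((2 : ℕ) : ZMod l) = 0 := by exact_mod_cast h6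
  rw [ZMod.natCast_eq_zero_iff] at h7
  exact hl2 ((Nat.prime_dvd_prime_iff_eq (Fact.out : l.Prime) Nat.prime_two).mp h7)

/-- The value at the `l`-th power of `s` vanishes. -/
theorem value_pow_zero {S2 : Subgroup G} [Fact l.Prime] (hl2 : l ≠ 2) {s t u : G}
    (hsl : s ^ l ∈ S2) (hn : ∀ u ∈ S2, s⁻¹ * u * s ∈ S2)
    {a : G → ZMod l} (ha : AddOn S2 a) (hinv : ∀ u ∈ S2, a (s⁻¹ * u * s) = a u)
    (hu : u ∈ S2) (ht : t * s * t⁻¹ = s * u) (hta : ∀ u ∈ S2, a (t * u * t⁻¹) = -a u) :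
    a (s ^ l) = 0 := by
  have key : ∀ k : ℕ, ∃ w ∈ S2, (s * u) ^ k = s ^ k * w ∧ a w = k * a u := by
    intro k
    induction k with
    | zero => exact ⟨1, S2.one_mem, by simp, by rw [ha.one, Nat.cast_zero, zero_mul]⟩
    | succ k ih =>
      obtain ⟨w, hw, h1, h2⟩ := ih
      refine ⟨(s⁻¹ * w * s) * u, S2.mul_mem (hn w hw) hu, ?_, ?_⟩
      · rw [pow_succ, h1, pow_succ]
        group
      · rw [ha _ (hn w hw) _ hu, hinv w hw, h2]
        push_cast
        ring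
  obtain ⟨w, hw, h1, h2⟩ := key l
  have h3 : t * s ^ l * t⁻¹ = s ^ l * w := by
    rw [← h1, ← ht, conj_pow]
  have h4 := hta _ hsl
  rw [h3, ha _ hsl _ hw, h2, CharP.cast_eq_zero (ZMod l) l, zero_mul, add_zero] at h4
  have h5 : (2 : ZMod l) * a (s ^ l) = 0 := by
    linear_combination h4
  exact (mul_eq_zero.mp h5).resolve_left (two_ne hl2)

/-- Reduction to invariant characters. -/
theorem reduce_inv [Fact l.Prime] {S2 : Subgroup G} {s : G}
    (hsl : s ^ l ∈ S2) (A : (G → ZMod l) → Prop)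
    (hA : ∀ a, A a → A (fun u => a (s * u * s⁻¹) - a u)) (hhom : ∀ a, A a → AddOn S2 a)
    (hfix : ∀ a, A a → (∀ u ∈ S2, a (s * u * s⁻¹) = a u) → ∀ u ∈ S2, a u = 0) :
    ∀ a, A a → ∀ u ∈ S2, a u = 0 := by
  intro a haA
  let T : Module.End (ZMod l) (G → ZMod l) :=
    { toFun := fun f u => f (s * u * s⁻¹)
      map_add' := fun f g => rfl
      map_smul' := fun c f => rfl }
  have hT : ∀ f u, T f u = f (s * u * s⁻¹) := fun f u => rfl
  have hTn : ∀ n : ℕ, ∀ f u, (T ^ n) f u = f (s ^ n * u * (s ^ n)⁻¹) := by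
    intro n
    induction n with
    | zero =>
      intro f u
      simp
    | succ n ih =>
      intro f u
      rw [pow_succ', Module.End.mul_apply, hT, ih, pow_succ]
      congr 1
      group
  have hx : ∀ i : ℕ, A (((T - 1) ^ i) a) := by
    intro i
    induction i with
    | zero => simpa using haA
    | succ i ih =>
      rw [pow_succ', Module.End.mul_apply]
      exact hA _ ih
  haveI : CharP (Module.End (ZMod l) (G → ZMod l)) l := by
    haveI : Nontrivial (G → ZMod l) := inferInstance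
    exact charP_of_injective_algebraMap
      (algebraMap (ZMod l) (Module.End (ZMod l) (G → ZMod l))).injective l
  have hTl : (T - 1) ^ l = T ^ l - 1 := by
    rw [sub_pow_char_of_commute (p := l) (Commute.one_right T), one_pow]
  have hlast : ∀ u ∈ S2, ((T - 1) ^ l) a u = 0 := by
    intro u hu
    rw [hTl]
    change (T ^ l) a u - a u = 0
    rw [hTn, (hhom a haA).conj hsl hu, sub_self]
  have hdown : ∀ j : ℕ, j ≤ l → ∀ u ∈ S2, ((T - 1) ^ (l - j)) a u = 0 := by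
    intro j
    induction j with
    | zero =>
      intro _
      simpa using hlast
    | succ j ih =>
      intro hj
      have h1 := ih (by omega)
      refine hfix _ (hx _) fun u hu => ?_
      have h2 := h1 u hu
      rw [show l - j = (l - (j + 1)) + 1 by omega, pow_succ', Module.End.mul_apply] at h2
      change ((T - 1) ^ (l - (j + 1))) a (s * u * s⁻¹) - ((T - 1) ^ (l - (j + 1))) a u = 0 at h2
      exact sub_eq_zero.mp h2
  have h := hdown l le_rfl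
  simpa using h

/-- Extension of a character in the minus part with trivial norm. -/
theorem extend_minus [Fact l.Prime] (hl2 : l ≠ 2) {S S2 : Subgroup G} (hle : S2 ≤ S) {s : G}
    (hs : s ∈ S)
    (hex : ∀ g ∈ S, ∃ i : ℕ, (s ^ i)⁻¹ * g ∈ S2) (hl : ∀ i : ℕ, s ^ i ∈ S2 → l ∣ i)
    (hsl : s ^ l ∈ S2) (hn : ∀ u ∈ S2, s⁻¹ * u * s ∈ S2) {t : G}
    (htS : ∀ u ∈ S, t * u * t⁻¹ ∈ S) (htt : t * t ∈ S)
    (hts : ∃ u ∈ S2, t * s * t⁻¹ = s * u)
    {a : G → ZMod l} (ha : AddOn S2 a) (hinv : ∀ u ∈ S2, a (s⁻¹ * u * s) = a u)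
    (hta : ∀ u ∈ S2, a (t * u * t⁻¹) = -a u) (htS2 : ∀ u ∈ S2, t * u * t⁻¹ ∈ S2)
    {ι : Type*} [Fintype ι] {r : ι → G} (hrS : ∀ h, ∀ u ∈ S, r h * u * (r h)⁻¹ ∈ S)
    (hrS2 : ∀ h, ∀ u ∈ S2, r h * u * (r h)⁻¹ ∈ S2)
    (hsum : ∀ u ∈ S2, ∑ h, a (r h * u * (r h)⁻¹) = 0)
    (he : ∃ e : ι ≃ ι, ∀ h, ∃ c ∈ S, r h * t = t * (c * r (e h))) :
    ∃ b : G → ZMod l, (∀ u ∈ S2, b u = a u) ∧ AddOn S b ∧ (∀ u ∈ S, b (t * u * t⁻¹) = -b u) ∧
      (∀ u ∈ S, ∑ h, b (r h * u * (r h)⁻¹) = 0) := by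
  obtain ⟨w, hw, htw⟩ := hts
  have hal := value_pow_zero hl2 hsl hn ha hinv hw htw hta
  obtain ⟨a', ha'1, ha'2⟩ := extend_char hle hex hl hsl hn ha hinv hal
  have h2 := two_ne hl2
  obtain ⟨b, hb⟩ : ∃ b : G → ZMod l, ∀ g, b g = (a' g - a' (t * g * t⁻¹)) / 2 := ⟨_, fun g => rfl⟩
  have hbext : ∀ u ∈ S2, b u = a u := by
    intro u hu
    rw [hb, ha'1 u hu, ha'1 _ (htS2 u hu), hta u hu]
    field_simp
    ring
  have hbadd : AddOn S b := by
    intro u hu v hv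
    have e : t * (u * v) * t⁻¹ = (t * u * t⁻¹) * (t * v * t⁻¹) := by group
    rw [hb, hb, hb, ha'2 u hu v hv, e, ha'2 _ (htS u hu) _ (htS v hv)]
    ring
  have hbt : ∀ u ∈ S, b (t * u * t⁻¹) = -b u := by
    intro u hu
    have e : t * (t * u * t⁻¹) * t⁻¹ = (t * t) * u * (t * t)⁻¹ := by group
    rw [hb, hb, e, ha'2.conj htt hu]
    ring
  refine ⟨b, hbext, hbadd, hbt, ?_⟩
  obtain ⟨n, hn'⟩ : ∃ n : G → ZMod l, ∀ g, n g = ∑ h, b (r h * g * (r h)⁻¹) := ⟨_, fun g => rfl⟩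
  have hn0 : ∀ u ∈ S2, n u = 0 := by
    intro u hu
    rw [hn', ← hsum u hu]
    exact Finset.sum_congr rfl fun h _ => hbext _ (hrS2 h u hu)
  have hnadd : AddOn S n := by
    intro u hu v hv
    rw [hn', hn', hn', ← Finset.sum_add_distrib]
    refine Finset.sum_congr rfl fun h _ => ?_
    have e : r h * (u * v) * (r h)⁻¹ = (r h * u * (r h)⁻¹) * (r h * v * (r h)⁻¹) := by group
    rw [e, hbadd _ (hrS h u hu) _ (hrS h v hv)]
  have hnt : ∀ u ∈ S, n (t * u * t⁻¹) = -n u := by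
    intro u hu
    obtain ⟨e, he⟩ := he
    rw [hn', hn', ← Finset.sum_neg_distrib,
      ← Equiv.sum_comp e (fun h => -b (r h * u * (r h)⁻¹))]
    refine Finset.sum_congr rfl fun h _ => ?_
    obtain ⟨c, hc, h3⟩ := he h
    have e1 : r h * (t * u * t⁻¹) * (r h)⁻¹ =
        t * (c * (r (e h) * u * (r (e h))⁻¹) * c⁻¹) * t⁻¹ := by
      have e2 : r h * (t * u * t⁻¹) * (r h)⁻¹ = (r h * t) * u * (r h * t)⁻¹ := by group
      rw [e2, h3]
      group
    have h4 := hrS (e h) u hu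
    rw [e1, hbt _ (S.mul_mem (S.mul_mem hc h4) (S.inv_mem hc)), hbadd.conj hc h4]
  have hns : n s = 0 := by
    have h3 := hnt s hs
    rw [htw, hnadd _ hs _ (hle hw), hn0 w hw, add_zero] at h3
    have h5 : (2 : ZMod l) * n s = 0 := by linear_combination h3
    exact (mul_eq_zero.mp h5).resolve_left h2
  intro u hu
  rw [← hn']
  obtain ⟨i, hi⟩ := hex u hu
  have e : u = s ^ i * ((s ^ i)⁻¹ * u) := by group
  rw [e, hnadd _ (S.pow_mem hs i) _ (hle hi), hnadd.pow hs, hns, hn0 _ hi, mul_zero, add_zero]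

end

end H68TL
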