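import Pool.Agent.H68.TL.Dfc
import Pool.Agent.H68.TL.GrpU

/-!
# MP_78d38b: automorphisms of a Galois number field extending automorphisms of subfields
-/

set_option autoImplicit false
set_option linter.style.haveILetI false
open scoped Classical

open IsDedekindDomain NumberField

namespace H68TL

section

variable {F N : Type} [Field F] [Field N] [Algebra F N]

variable (F N) in
/-- the automorphisms fixing `F` -/
def Sg : Subgroup (N ≃+* N) where
  carrier := {u | Fx F u}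
  one_mem' := fun x => rfl
  mul_mem' := by
    intro u v hu hv x
    change u (v (algebraMap F N x)) = _
    rw [hv x, hu x]
  inv_mem' := by
    intro u hu x
    change u.symm (algebraMap F N x) = _
    rw [RingEquiv.symm_apply_eq, hu x]

lemma mem_Sg {u : N ≃+* N} : u ∈ Sg F N ↔ Fx F u := Iff.rfl

lemma Ext.mul {t t' : N ≃+* N} {g g' : F ≃+* F} (h : Ext t g) (h' : Ext t' g') :
    Ext (t * t') (g * g') := by
  intro x
  change t (t' (algebraMap F N x)) = _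
  rw [h' x, h]
  rfl

lemma Ext.inv {t : N ≃+* N} {g : F ≃+* F} (h : Ext t g) : Ext t⁻¹ g⁻¹ := by
  intro x
  change t.symm (algebraMap F N x) = algebraMap F N (g.symm x)
  rw [RingEquiv.symm_apply_eq, h, RingEquiv.apply_symm_apply]

lemma Ext.one : Ext (1 : N ≃+* N) (1 : F ≃+* F) := fun _ => rfl

lemma Ext.mem {t : N ≃+* N} (h : Ext t (1 : F ≃+* F)) : t ∈ Sg F N := h

lemma ext_of_mem {t : N ≃+* N} (h : t ∈ Sg F N) : Ext t (1 : F ≃+* F) := h

lemma Ext.div {t t' : N ≃+* N} {g : F ≃+* F} (h : Ext t g) (h' : Ext t' g) :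
    t'⁻¹ * t ∈ Sg F N := by
  have h1 := h'.inv.mul h
  rw [inv_mul_cancel] at h1
  exact h1

lemma Ext.conj {t : N ≃+* N} {g : F ≃+* F} (h : Ext t g) {u : N ≃+* N} (hu : u ∈ Sg F N) :
    t * u * t⁻¹ ∈ Sg F N := by
  have h1 := (h.mul (ext_of_mem hu)).mul h.inv
  rw [mul_one, mul_inv_cancel] at h1
  exact h1

lemma Ext.unique {t : N ≃+* N} {g g' : F ≃+* F} (h : Ext t g) (h' : Ext t g') : g = g' := by
  ext x
  apply (algebraMap F N).injective
  rw [← h x, ← h' x]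

lemma exists_ext [CharZero F] [CharZero N] [IsGalois ℚ N] [Algebra.IsAlgebraic ℚ F]
    (g : F ≃+* F) : ∃ t : N ≃+* N, Ext t g := by
  have : IsScalarTower ℚ F N := IsScalarTower.of_algebraMap_eq fun x => by
    rw [eq_ratCast, eq_ratCast, map_ratCast]
  let g' : F ≃ₐ[ℚ] F := RingEquiv.toRatAlgEquiv g
  refine ⟨(g'.liftNormal N : N ≃ₐ[ℚ] N).toRingEquiv, fun x => ?_⟩
  exact g'.liftNormal_commutes N x

end

section prime

variable {N : Type} [Field N]

/-- the image of a prime under an automorphism -/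
noncomputable def mp (t : N ≃+* N) (P : Ideal (𝓞 N)) : Ideal (𝓞 N) :=
  P.comap (RingOfIntegers.mapRingEquiv t⁻¹ : 𝓞 N →+* 𝓞 N)

lemma mem_mp {t : N ≃+* N} {P : Ideal (𝓞 N)} {x : 𝓞 N} :
    x ∈ mp t P ↔ RingOfIntegers.mapRingEquiv t⁻¹ x ∈ P := Iff.rfl

lemma mp_mem {t : N ≃+* N} {P : Ideal (𝓞 N)} {x : 𝓞 N} (h : x ∈ P) :
    RingOfIntegers.mapRingEquiv t x ∈ mp t P := by
  rw [mem_mp]
  have : RingOfIntegers.mapRingEquiv t⁻¹ (RingOfIntegers.mapRingEquiv t x) = x := by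
    apply RingOfIntegers.ext
    change t.symm (t (x : N)) = x
    exact t.symm_apply_apply _
  rw [this]
  exact h

lemma mp_prime {t : N ≃+* N} {P : Ideal (𝓞 N)} (h : P.IsPrime) : (mp t P).IsPrime :=
  Ideal.IsPrime.comap _

lemma mp_ne_bot {t : N ≃+* N} {P : Ideal (𝓞 N)} (h : P ≠ ⊥) : mp t P ≠ ⊥ := by
  intro h1
  apply h
  rw [eq_bot_iff]
  intro x hx
  have h2 := mp_mem (t := t) hx
  rw [h1, Ideal.mem_bot] at h2
  rw [Ideal.mem_bot]
  exact (map_eq_zero_iff _ (RingOfIntegers.mapRingEquiv t).injective).mp h2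

lemma InI.conj {t u : N ≃+* N} {P : Ideal (𝓞 N)} (h : InI P u) : InI (mp t P) (t * u * t⁻¹) := by
  intro x
  obtain ⟨y, hy, h1⟩ := h (RingOfIntegers.mapRingEquiv t⁻¹ x)
  refine ⟨RingOfIntegers.mapRingEquiv t y, mp_mem hy, ?_⟩
  change t (u ((RingOfIntegers.mapRingEquiv t⁻¹ x : 𝓞 N) : N)) = x + t (y : N)
  rw [h1, map_add]
  congr 1
  exact t.apply_symm_apply _

lemma InI.mul {u v : N ≃+* N} {P : Ideal (𝓞 N)} (hu : InI P u) (hv : InI P v) : InI P (u * v) := by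
  intro x
  obtain ⟨y, hy, h1⟩ := hv x
  obtain ⟨z, hz, h2⟩ := hu (x + y)
  refine ⟨y + z, P.add_mem hy hz, ?_⟩
  change u (v (x : N)) = _
  rw [h1]
  have h3 : ((x + y : 𝓞 N) : N) = (x : N) + y := rfl
  rw [← h3, h2, h3]
  change _ = (x : N) + ((y : N) + z)
  ring

lemma InI.inv {u : N ≃+* N} {P : Ideal (𝓞 N)} (hu : InI P u) : InI P u⁻¹ := by
  intro x
  -- `u (u⁻¹ x) = u⁻¹ x + y`
  obtain ⟨y, hy, h1⟩ := hu (RingOfIntegers.mapRingEquiv u⁻¹ x)
  refine ⟨-y, P.neg_mem hy, ?_⟩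
  have h2 : u ((RingOfIntegers.mapRingEquiv u⁻¹ x : 𝓞 N) : N) = x := u.apply_symm_apply _
  rw [h2] at h1
  change ((RingOfIntegers.mapRingEquiv u⁻¹ x : 𝓞 N) : N) = (x : N) + ((-y : 𝓞 N) : N)
  have h3 : ((-y : 𝓞 N) : N) = -(y : N) := rfl
  rw [h3, h1]
  ring

end prime

end H68TL
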