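import Pool.Agent.H68.TL.Una
import Pool.Agent.H2.T4.HA

/-!
ROW Unc (no new ideal classes, in the form needed; about 120 lines).  PROOF.
Apply `HT` (`H78M.NoNewT`) to `T` (`H2T4.icl` and `H55T3.icl` are the same formula: `rfl` after `unfold`). `Stab T`: `h1`. `icl I ^ l ∈ T`: `h2`. `∏_{InH g} icl (g • I) ∈ T`: by `hh0` the elements `g` with `InH g` are the `h0^k`, `k < orderOf h0`, pairwise different
(`pow_injOn_Iio_orderOf`), so the product is `∏_{k < orderOf h0} icl (h0^k • I)` (`Finset.prod_bij`/`Finset.prod_image`) `= icl (∏_{k < orderOf h0} h0^k • I)` (`H2T4.icl_mul`, induction over the finset; `g • I ≠ ⊥` for `I ≠ ⊥`: `Ideal.IsPrime.smul`-like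
lemma `CZ_smul_ne_bot` in `Pool/Agent/H2/T4/CZ.lean`, a product of nonzero ideals is nonzero), in `T` by `h3`. `kp g = -1` means `g = J` (`MulEquiv.injective`): `icl I * icl (J • I) = icl (∏_{j < 2} J^j • I) ∈ T` (`orderOf J = 2`, `Finset.prod_range_succ`).
`IsTau g` means `g = τ`. Let `I' = J • I`: `icl I' * icl (J • I') ∈ T` and `icl I' * icl ((J τ) • I') ∈ T`; `J • J • I = I` (`J * J = 1`), `(J τ) • J • I = τ • I` (commutative). The quotient is `icl (τ • I) * (icl I)⁻¹ ∈ T` (`Subgroup.mul_mem`,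
`inv_mem`).
-/

set_option autoImplicit false
open scoped Classical nonZeroDivisors Pointwise

open IsDedekindDomain NumberField Finset H78M

namespace H68TL

theorem Unc_ne {C : Type} [Field C] [NumberField C] (t : C ≃ₐ[ℚ] C) {I : Ideal (𝓞 C)}
    (hI : I ≠ ⊥) : t • I ≠ ⊥ := by
  intro h0
  apply hI
  have h1 : t⁻¹ • t • I = t⁻¹ • (⊥ : Ideal (𝓞 C)) := by rw [h0]
  rw [inv_smul_smul] at h1
  rw [h1]
  exact Ideal.map_bot

theorem Unc_prod {C : Type} [Field C] [NumberField C] {ι : Type} (s : Finset ι)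
    (f : ι → Ideal (𝓞 C)) (hf : ∀ i, f i ≠ ⊥) :
    H2T4.icl (∏ i ∈ s, f i) = ∏ i ∈ s, H2T4.icl (f i) ∧ ∏ i ∈ s, f i ≠ ⊥ := by
  induction s using Finset.induction_on with
  | empty =>
    rw [Finset.prod_empty, Finset.prod_empty]
    have h1 : (1 : Ideal (𝓞 C)) ≠ ⊥ := one_ne_zero
    refine ⟨(H2T4.icl_eq_one h1).2 ?_, h1⟩
    rw [Ideal.one_eq_top]
    exact ⟨1, by rw [← Ideal.span, Ideal.span_singleton_one]⟩
  | insert a s ha ih =>
    rw [Finset.prod_insert ha, Finset.prod_insert ha]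
    refine ⟨?_, mul_ne_zero (hf a) ih.2⟩
    rw [H2T4.icl_mul (hf a) ih.2, ih.1]

theorem top_of_noNewT {l p M m n : ℕ} [Fact l.Prime] [Fact p.Prime] [NeZero M] {hmn : m ≤ n}
    {F : Type} [Field F] [NumberField F] [IsCyclotomicExtension {M * p ^ (n + 1)} ℚ F]
    (HT : NoNewT l p M m n hmn F) {J h0 τ : F ≃ₐ[ℚ] F} (hJ : kp (M * p ^ (n + 1)) J = -1)
    (hh0 : ∀ g : F ≃ₐ[ℚ] F, InH p M m n hmn g ↔ ∃ k < orderOf h0, g = h0 ^ k)
    (hτ : ∀ g : F ≃ₐ[ℚ] F, IsTau p M n g → g = τ) (hJ2 : orderOf J = 2)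
    (hJτ2 : orderOf (J * τ) = 2) (hc : ∀ g g' : F ≃ₐ[ℚ] F, g * g' = g' * g)
    (T : Subgroup (ClassGroup (𝓞 F)))
    (h1 : ∀ (t : F ≃ₐ[ℚ] F) (I : Ideal (𝓞 F)), I ≠ ⊥ → H2T4.icl I ∈ T → H2T4.icl (t • I) ∈ T)
    (h2 : ∀ c, c ^ l ∈ T)
    (h3 : ∀ g ∈ ({h0, J, J * τ} : Set (F ≃ₐ[ℚ] F)), ∀ I : Ideal (𝓞 F), I ≠ ⊥ →
      H2T4.icl (∏ j ∈ range (orderOf g), g ^ j • I) ∈ T) : T = ⊤ := by
  have hdouble : ∀ g ∈ ({h0, J, J * τ} : Set (F ≃ₐ[ℚ] F)), orderOf g = 2 →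
      ∀ I : Ideal (𝓞 F), I ≠ ⊥ → H2T4.icl I * H2T4.icl (g • I) ∈ T := by
    intro g hg h2' I hI
    have h4 := h3 g hg I hI
    rw [h2', Finset.prod_range_succ, Finset.prod_range_one, pow_zero, one_smul, pow_one,
      H2T4.icl_mul hI (Unc_ne g hI)] at h4
    exact h4
  refine HT T (fun t I hI h => h1 t I hI h) (fun I _ => h2 _) ?_ ?_ ?_
  · intro I hI
    have e : univ.filter (fun g : F ≃ₐ[ℚ] F => InH p M m n hmn g) =
        (range (orderOf h0)).image (fun k => h0 ^ k) := by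
      ext g
      rw [mem_filter, mem_image]
      constructor
      · rintro ⟨_, h⟩
        obtain ⟨k, hk, h4⟩ := (hh0 g).1 h
        exact ⟨k, mem_range.2 hk, h4.symm⟩
      · rintro ⟨k, hk, h4⟩
        exact ⟨mem_univ _, (hh0 g).2 ⟨k, mem_range.1 hk, h4.symm⟩⟩
    rw [e, Finset.prod_image (fun k hk k' hk' h =>
      pow_injOn_Iio_orderOf (Set.mem_Iio.2 (mem_range.1 hk)) (Set.mem_Iio.2 (mem_range.1 hk')) h)]
    have h4 := h3 h0 (by simp) I hI
    rw [(Unc_prod _ (fun j => h0 ^ j • I) (fun j => Unc_ne _ hI)).1] at h4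
    exact h4
  · intro g hg I hI
    have hgJ : g = J := (IsCyclotomicExtension.Rat.galEquivZMod (M * p ^ (n + 1)) F).injective
      (hg.trans hJ.symm)
    rw [hgJ]
    exact hdouble J (by simp) hJ2 I hI
  · intro g hg I hI
    rw [hτ g hg]
    have hJJ : J * J = 1 := by
      rw [← pow_two, ← hJ2]
      exact pow_orderOf_eq_one J
    have h5 := hdouble J (by simp) hJ2 (J • I) (Unc_ne J hI)
    have h6 := hdouble (J * τ) (by simp) hJτ2 (J • I) (Unc_ne J hI)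
    rw [smul_smul, hJJ, one_smul] at h5
    have e2 : J * τ * J = τ := by
      rw [mul_assoc, hc τ J, ← mul_assoc, hJJ, one_mul]
    rw [smul_smul, e2] at h6
    have e3 : H55T3.icl (τ • I) * (H55T3.icl I)⁻¹ =
        (H2T4.icl (J • I) * H2T4.icl (τ • I)) * (H2T4.icl (J • I) * H2T4.icl I)⁻¹ := by
      rw [mul_inv, mul_comm (H2T4.icl (J • I)) (H2T4.icl (τ • I)), mul_assoc, mul_inv_cancel_left]
      rfl
    rw [e3]
    exact T.mul_mem h6 (T.inv_mem h5)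

end H68TL
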