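import Pool.Agent.H68.TL.Bas
import Pool.Agent.H68.TL.Bsg
import Pool.Agent.H68.TL.Ung

/-!
# MP_78d38b: fields of `l`-type, the base of the chain for an arbitrary conductor
-/

set_option autoImplicit false
set_option linter.style.haveILetI false
open scoped Classical

open IsDedekindDomain NumberField WithZero Finset Pool.Agent.H10 H5SW H68QS H68IM H78M

namespace H68TL

theorem base_E_g {l p M m n : ℕ} [Fact p.Prime] [NeZero M] {hmn : m ≤ n} {Km F : Type} [Field Km]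
    [NumberField Km] [Field F] [NumberField F] [Algebra Km F]
    [IsCyclotomicExtension {M * p ^ (m + 1)} ℚ Km] [IsCyclotomicExtension {M * p ^ (n + 1)} ℚ F]
    (HE : H78H.NoNewE l p M m n hmn F) (J : F ≃ₐ[ℚ] F) (hJ : kp (M * p ^ (n + 1)) J = -1) :
    NoNewE l Km F ∅ (J : F ≃+* F) := by
  intro e he hv hN _ hJe
  refine HE e he hv ?_ ?_
  · obtain ⟨y, hy⟩ := hN
    exact ⟨y, by rw [← hy, norm_eq_inH (p := p) (M := M) (Km := Km) hmn]⟩
  · intro g hg
    have h1 : g = J := by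
      rw [← hJ] at hg
      exact (MulEquiv.injective _) hg
    rw [h1]
    exact hJe

/-- The base of the chain, conductor `M * p ^ a`. -/
theorem goodL_base_a {l p M a : ℕ} [Fact l.Prime] [Fact p.Prime] [NeZero M] (hl2 : l ≠ 2)
    (hp2 : p ≠ 2) (hlp : l ≠ p) (hlM : l ∣ M) (hpM : p.Coprime M) (B : Type) [Field B]
    [NumberField B] (hB : IsCyclotomicExtension {M * p ^ a} ℚ B) (D : ℤ) (hD : D ≠ 0) :
    ∃ N : ℕ, ∀ (K' L' K L : Type) [Field K'] [NumberField K'] [Field L']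
      [NumberField L'] [Field K] [NumberField K] [Field L] [NumberField L] [Algebra K' L']
      [Algebra K L], Comp B K' L' K L → IsR p L' → (∃ i : ℕ, Module.finrank K' L' = p ^ i) →
      p ^ N ∣ Module.finrank ℚ K' → GoodL l D K L := by
  have hM1 : 1 < M := lt_of_lt_of_le (Fact.out : l.Prime).one_lt
    (Nat.le_of_dvd (NeZero.pos M) hlM)
  haveI h00 : NeZero (M * p ^ a) :=
    ⟨mul_ne_zero (NeZero.ne M) (pow_ne_zero _ (Fact.out : p.Prime).ne_zero)⟩
  obtain ⟨k0, hk0⟩ := H78H.exists_level l p M hl2 hp2 hlp hpM hM1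
  obtain ⟨T, hT⟩ := exists_val_bound (p := p) (D := D.natAbs) (Int.natAbs_ne_zero.mpr hD)
  refine ⟨k0 + a + T + padicValNat p (M * p ^ a).totient, ?_⟩
  intro K' L' K L _ _ _ _ _ _ _ _ _ _ C hL ⟨i, hi⟩ hN
  have hv : k0 + a + T + padicValNat p (M * p ^ a).totient ≤
      padicValNat p (Module.finrank ℚ K') := by
    rw [← padicValNat_dvd_iff_le (Module.finrank_pos (R := ℚ) (M := K')).ne']
    exact hN
  obtain ⟨n, M', F', _, _, _, _, _, _, _, ⟨Tw⟩⟩ := exists_tower (p := p) hp2 hL hi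
  obtain ⟨F, _, _, _, _, _, _, X⟩ := exists_CM (M := M) hp2 hpM Tw
  obtain ⟨Km, _, _, _, _, _, _, _, _, _, S⟩ :=
    exists_sp_g (l := l) (a := a) hlp hlM hpM (by omega) C (Dec_gal hL) hi X
  obtain ⟨JF, hJF, hcc⟩ := exists_JC (M * p ^ (n + 1)) F
  obtain ⟨HE, HT⟩ := hk0 _ n Tw.rp.hmn (by omega) F
  refine ⟨S.galB, S.nlB, ?_, ?_, ?_⟩
  · intro J hJ
    exact noNewE_sub S hcc (base_E_g (Km := Km) HE JF hJF) hJ
  · intro J hJ
    exact noUnr_sub hl2 S hcc (noUnr_cyc_g (Km := Km) hl2 hp2 hlp hlM hpM HT hJF) hJ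
  · exact fixP_base (M := M * p ^ a) hp2 hD hT C hL hi (by omega)

/-- The base of the chain, arbitrary conductor. -/
theorem goodL_base_g {l p M : ℕ} [Fact l.Prime] [Fact p.Prime] (hl2 : l ≠ 2)
    (hp2 : p ≠ 2) (hlp : l ≠ p) (hlM : l ∣ M) (hM : M ≠ 0) (B : Type) [Field B]
    [NumberField B] (hB : IsCyclotomicExtension {M} ℚ B) (D : ℤ) (hD : D ≠ 0) :
    ∃ N : ℕ, ∀ (K' L' K L : Type) [Field K'] [NumberField K'] [Field L']
      [NumberField L'] [Field K] [NumberField K] [Field L] [NumberField L] [Algebra K' L']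
      [Algebra K L], Comp B K' L' K L → IsR p L' → (∃ i : ℕ, Module.finrank K' L' = p ^ i) →
      p ^ N ∣ Module.finrank ℚ K' → GoodL l D K L := by
  obtain ⟨a, M0, hM0, rfl⟩ := Nat.exists_eq_pow_mul_and_not_dvd hM p
    (Fact.out : p.Prime).ne_one
  have h1 : M0 ≠ 0 := fun h => hM (by rw [h, mul_zero])
  haveI : NeZero M0 := ⟨h1⟩
  have h2 : l ∣ M0 := by
    rcases (Fact.out : l.Prime).dvd_mul.1 hlM with h | h
    · exact absurd ((Nat.prime_dvd_prime_iff_eq Fact.out Fact.out).1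
        ((Fact.out : l.Prime).dvd_of_dvd_pow h)) hlp
    · exact h
  rw [mul_comm] at hB
  exact goodL_base_a hl2 hp2 hlp h2 (((Fact.out : p.Prime).coprime_iff_not_dvd).2 hM0) B hB D hD

end H68TL
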