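import Pool.Agent.H68.TL.Dfm

/-!
ROW Bfa (roots in the Galois group of a real subfield of `ℚ(ζ_{p^∞})`; about 130 lines).  PROOF.
`L'` is contained in `ℚ(ζ)`, `ζ` of order `p^(n+1)` (`hL.2`), whose Galois group over `ℚ` is `(ℤ/p^(n+1))ˣ` (`IsCyclotomicExtension.Rat.galEquivZMod`), cyclic as `p` is odd (`ZMod.isCyclic_units_prime_pow`-type lemma, `ZMod.isCyclic_units_iff`),
and `Gal(L'/ℚ)` is a quotient of it (`AlgEquiv.restrictNormalHom_surjective`; `Bfa_gal hL : IsGalois ℚ L'`), so `G = Gal(L'/ℚ)` is cyclic (`isCyclic_of_surjective`), with a generator `g₀` of order `|G| = [L' : ℚ] = p^(m+i) d`, `p ∤ d`,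
`m = padicValNat p [K' : ℚ]`. `g₁ = g₀^d` has order `p^(m+i)`. `t` (as an element of `G`) satisfies `t^(p^i) = 1` (`|Gal(L'/K')| = p^i`), `t = g₀^k` so `d p^(m+i) ∣ k p^i`, `k = d p^m k'`: `t = g₁^(p^m k')`. `e = p^v c`, `c` is invertible modulo
`p^(m+i)`: `c c' = 1` modulo `p^(m+i)`; `t₂ = g₁^(p^(m-v) k' c')`: `t₂^e = g₁^(p^m k' c c') = t`. `U` = the subgroup generated by `g₁^(p^(m-v))`, of order `p^(i+v)`, `K''` = its fixed field (`IntermediateField.finrank_fixedField_eq_card`).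
-/

set_option autoImplicit false
open scoped Classical

open IsDedekindDomain NumberField H5SW H68QS

namespace H68TL

private theorem Bfa_grp {G : Type} [Group G] [Finite G] [IsCyclic G] {p : ℕ} [Fact p.Prime]
    {d i v c m : ℕ} (hcard : Nat.card G = p ^ (m + i) * d) (hc : ¬ p ∣ c) (hv : v ≤ m) (t : G)
    (ht : t ^ (p ^ i) = 1) : ∃ t2 g : G, t2 ^ (p ^ v * c) = t ∧ t2 ∈ Subgroup.zpowers g ∧
      Nat.card (Subgroup.zpowers g) = p ^ (i + v) := by
  have hp : p.Prime := Fact.out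
  obtain ⟨g₀, hg₀⟩ := IsCyclic.exists_generator (α := G)
  have ho : orderOf g₀ = p ^ (m + i) * d := by
    rw [orderOf_eq_card_of_forall_mem_zpowers hg₀, hcard]
  have hd0 : 0 < d := by
    rcases Nat.eq_zero_or_pos d with h | h
    · rw [h, mul_zero] at hcard
      exact absurd hcard Nat.card_pos.ne'
    · exact h
  obtain ⟨k, hk⟩ := (mem_powers_iff_mem_zpowers.2 (hg₀ t) : t ∈ Submonoid.powers g₀)
  have hk' : g₀ ^ k = t := hk
  have h1 : p ^ m * d ∣ k := by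
    have h2 : g₀ ^ (k * p ^ i) = 1 := by rw [pow_mul, hk', ht]
    have h3 := orderOf_dvd_of_pow_eq_one h2
    rw [ho] at h3
    have h4 : p ^ (m + i) * d = p ^ m * d * p ^ i := by ring
    rw [h4] at h3
    exact Nat.dvd_of_mul_dvd_mul_right (pow_pos hp.pos i) h3
  obtain ⟨k', rfl⟩ := h1
  obtain ⟨g₁, hg₁⟩ : ∃ g₁ : G, g₁ = g₀ ^ d := ⟨_, rfl⟩
  have ho1 : orderOf g₁ = p ^ (m + i) := by
    rw [hg₁, orderOf_pow, ho, Nat.gcd_eq_right (Dvd.intro_left _ rfl), Nat.mul_div_cancel _ hd0]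
  have hcop : IsCoprime (c : ℤ) ((p ^ (m + i) : ℕ) : ℤ) := by
    rw [Nat.isCoprime_iff_coprime]
    exact (Nat.Coprime.pow_left (m + i) ((Nat.Prime.coprime_iff_not_dvd hp).2 hc)).symm
  obtain ⟨x, y, hxy⟩ := hcop
  have hx : g₁ ^ (x * (c : ℤ)) = g₁ := by
    have h2 : x * (c : ℤ) = 1 - y * ((p ^ (m + i) : ℕ) : ℤ) := by linarith
    rw [h2, zpow_sub, zpow_one, mul_comm y, zpow_mul, zpow_natCast, ← ho1, pow_orderOf_eq_one,
      one_zpow, inv_one, mul_one]
  refine ⟨(g₁ ^ (p ^ (m - v))) ^ ((k' : ℤ) * x), g₁ ^ (p ^ (m - v)), ?_, ?_, ?_⟩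
  · have e1 : ((p ^ (m - v) : ℕ) : ℤ) * ((k' : ℤ) * x * ((p ^ v * c : ℕ) : ℤ)) =
        (x * (c : ℤ)) * ((p ^ m * k' : ℕ) : ℤ) := by
      have e2 : p ^ (m - v) * p ^ v = p ^ m := by rw [← pow_add, Nat.sub_add_cancel hv]
      rw [← e2]
      push_cast
      ring
    rw [← zpow_natCast, ← zpow_natCast g₁, ← zpow_mul, ← zpow_mul, e1, zpow_mul, hx, zpow_natCast,
      ← hk', hg₁, ← pow_mul]
    congr 1
    ring
  · exact ⟨_, rfl⟩
  · have e3 : p ^ (m + i) = p ^ (i + v) * p ^ (m - v) := by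
      rw [← pow_add]
      congr 1
      omega
    rw [Nat.card_zpowers, orderOf_pow, ho1, Nat.gcd_eq_right ⟨_, by rw [e3, mul_comm]⟩, e3,
      Nat.mul_div_cancel _ (pow_pos hp.pos _)]

private theorem Bfa_gal {p : ℕ} [Fact p.Prime] {L' : Type} [Field L'] [NumberField L'] (hR : IsR p L') :
    IsGalois ℚ L' := by
  have hp : p.Prime := Fact.out
  obtain ⟨-, n, ⟨j⟩⟩ := hR
  have hne : NeZero (p ^ (n + 1)) := ⟨pow_ne_zero _ hp.ne_zero⟩
  have hcyc : IsCyclotomicExtension {p ^ (n + 1)} ℚ (CyclotomicField (p ^ (n + 1)) ℚ) :=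
    CyclotomicField.isCyclotomicExtension _ _
  have h1 : IsAbelianGalois ℚ (CyclotomicField (p ^ (n + 1)) ℚ) :=
    IsCyclotomicExtension.isAbelianGalois {p ^ (n + 1)} ℚ _
  have h2 : IsAbelianGalois ℚ L' := IsAbelianGalois.of_algHom j.toRatAlgHom
  infer_instance

private theorem Bfa_cyc {p : ℕ} [Fact p.Prime] (hp2 : p ≠ 2) {L' : Type} [Field L']
    [NumberField L'] (hL : IsR p L') : IsCyclic (L' ≃ₐ[ℚ] L') := by
  have hp : p.Prime := Fact.out
  have hgal : IsGalois ℚ L' := Bfa_gal hL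
  obtain ⟨-, n, ⟨j⟩⟩ := hL
  have hne : NeZero (p ^ (n + 1)) := ⟨pow_ne_zero _ hp.ne_zero⟩
  have hcyc : IsCyclotomicExtension {p ^ (n + 1)} ℚ (CyclotomicField (p ^ (n + 1)) ℚ) :=
    CyclotomicField.isCyclotomicExtension _ _
  have hgC : IsGalois ℚ (CyclotomicField (p ^ (n + 1)) ℚ) :=
    IsCyclotomicExtension.isGalois {p ^ (n + 1)} ℚ _
  have h1 : IsCyclic (ZMod (p ^ (n + 1)))ˣ := ZMod.isCyclic_units_of_prime_pow p hp hp2 (n + 1)
  have h2 : IsCyclic (CyclotomicField (p ^ (n + 1)) ℚ ≃ₐ[ℚ] CyclotomicField (p ^ (n + 1)) ℚ) :=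
    isCyclic_of_surjective (IsCyclotomicExtension.Rat.galEquivZMod (p ^ (n + 1))
      (CyclotomicField (p ^ (n + 1)) ℚ)).symm
      (IsCyclotomicExtension.Rat.galEquivZMod (p ^ (n + 1)) (CyclotomicField (p ^ (n + 1)) ℚ)).symm.surjective
  let _ : Algebra L' (CyclotomicField (p ^ (n + 1)) ℚ) := j.toAlgebra
  have hn : Normal ℚ (CyclotomicField (p ^ (n + 1)) ℚ) := hgC.to_normal
  exact isCyclic_of_surjective (AlgEquiv.restrictNormalHom (F := ℚ)
    (K₁ := CyclotomicField (p ^ (n + 1)) ℚ) L') (AlgEquiv.restrictNormalHom_surjective _)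

theorem exists_root {p : ℕ} [Fact p.Prime] (hp2 : p ≠ 2) {K' L' : Type} [Field K']
    [NumberField K'] [Field L'] [NumberField L'] [Algebra K' L'] (hL : IsR p L') {i : ℕ}
    (hi : Module.finrank K' L' = p ^ i) {v c : ℕ} (hc : ¬ p ∣ c)
    (hv : v ≤ padicValNat p (Module.finrank ℚ K')) (t : L' ≃ₐ[K'] L') :
    ∃ (K'' : IntermediateField ℚ L') (t2 : L' ≃ₐ[ℚ] L'),
      (∀ x : L', (t2 ^ (p ^ v * c)) x = t x) ∧ (∀ x ∈ K'', t2 x = x) ∧
      (∃ j : ℕ, Module.finrank K'' L' = p ^ j) ∧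
      padicValNat p (Module.finrank ℚ K'') + v = padicValNat p (Module.finrank ℚ K') := by
  have hp : p.Prime := Fact.out
  have hgal : IsGalois ℚ L' := Bfa_gal hL
  have hcyc := Bfa_cyc hp2 hL
  have hgal2 : IsGalois K' L' := IsGalois.tower_top_of_isGalois ℚ K' L'
  have hK0 : Module.finrank ℚ K' ≠ 0 := Module.finrank_pos.ne'
  obtain ⟨m, d, hd, hm⟩ := Nat.exists_eq_pow_mul_and_not_dvd hK0 p hp.ne_one
  have hd0 : d ≠ 0 := fun h => hd (h ▸ dvd_zero p)
  have hval : padicValNat p (Module.finrank ℚ K') = m := by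
    rw [hm, padicValNat.mul (pow_ne_zero _ hp.ne_zero) hd0, padicValNat.prime_pow,
      padicValNat.eq_zero_of_not_dvd hd, add_zero]
  rw [hval] at hv ⊢
  have hdeg : Module.finrank ℚ K' * Module.finrank K' L' = Module.finrank ℚ L' :=
    Module.finrank_mul_finrank ℚ K' L'
  have hcard : Nat.card (L' ≃ₐ[ℚ] L') = p ^ (m + i) * d := by
    rw [IsGalois.card_aut_eq_finrank, ← hdeg, hi, hm]
    ring
  have ht : (t.restrictScalars ℚ) ^ (p ^ i) = 1 := by
    have h1 : t ^ (p ^ i) = 1 := by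
      rw [← hi, ← IsGalois.card_aut_eq_finrank K' L']
      exact pow_card_eq_one'
    have h2 : ∀ (n : ℕ) (x : L'), ((t.restrictScalars ℚ) ^ n) x = (t ^ n) x := by
      intro n
      induction n with
      | zero => intro x; rfl
      | succ n ih =>
        intro x
        rw [pow_succ, pow_succ]
        exact ih (t x)
    ext x
    rw [h2, h1]
    rfl
  obtain ⟨t2, g, h1, h2, h3⟩ := Bfa_grp hcard hc hv (t.restrictScalars ℚ) ht
  have hfr : Module.finrank (IntermediateField.fixedField (Subgroup.zpowers g)) L' = p ^ (i + v) := by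
    rw [IntermediateField.finrank_fixedField_eq_card, h3]
  refine ⟨IntermediateField.fixedField (Subgroup.zpowers g), t2, fun x => ?_, fun x hx => ?_,
    ⟨i + v, hfr⟩, ?_⟩
  · rw [h1]
    rfl
  · exact (IntermediateField.mem_fixedField_iff _ _).1 hx t2 h2
  · have hdeg2 : Module.finrank ℚ (IntermediateField.fixedField (Subgroup.zpowers g)) *
        Module.finrank (IntermediateField.fixedField (Subgroup.zpowers g)) L' = Module.finrank ℚ L' :=
      Module.finrank_mul_finrank ℚ _ L'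
    have hn0 : Module.finrank ℚ (IntermediateField.fixedField (Subgroup.zpowers g)) ≠ 0 :=
      Module.finrank_pos.ne'
    rw [hfr, ← hdeg, hi, hm, pow_add, mul_comm (p ^ i) (p ^ v), ← mul_assoc] at hdeg2
    have h4 := Nat.eq_of_mul_eq_mul_right (pow_pos hp.pos i) hdeg2
    have h5 := congrArg (padicValNat p) h4
    rw [padicValNat.mul hn0 (pow_ne_zero _ hp.ne_zero), padicValNat.prime_pow,
      padicValNat.mul (pow_ne_zero _ hp.ne_zero) hd0, padicValNat.prime_pow,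
      padicValNat.eq_zero_of_not_dvd hd, add_zero] at h5
    exact h5

end H68TL
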