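import Pool.Agent.H68.TL.Dfm
import Pool.Agent.H68.IM.Sub
import Pool.Agent.H10.StarGal

/-!
ROW Bfb (decomposition groups in an abelian compositum; about 160 lines).  PROOF.
Make `L` an `L'`-algebra by `C.h` and a `B`-algebra by `algebraMap K L ∘ C.f`. `L/ℚ` is Galois: it is generated by the images of `B` and `L'`, both Galois over `ℚ` (`IntermediateField.isGalois_sup`/`normal_iSup`, or `H68QS.galois_up` for
`ℚ ⊆ L'` pushed to `B ⊆ L` (hypothesis: `adjoin B (range C.h) = ⊤` from `C.genL`), and then ... simplest: the field ranges `Z, Z'` of `L' → L`, `B → L` are normal over `ℚ`, `Z ⊔ Z' = ⊤`, `IntermediateField.normal_sup`-type instance; see `Dec_gal`,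
`Dec_top` in `Pool/Agent/H68/IM/Dec.lean`). `w₀ = w ∩ L'` (comap of `w.asIdeal` under `𝓞 L' → 𝓞 L`, a `HeightOneSpectrum`). Lift `t2` to `g₂ ∈ Gal(L/ℚ)` (`AlgEquiv.liftNormal`): `g₂ (C.h x) = C.h (t2 x)`. The prime `w'` with
`w.valuation (g₂ x) = w'.valuation x` (`Pool.Agent.H10.exists_conj`) lies over `w₀`: for `x ∈ 𝓞 L'`: `w'.valuation (C.h x) < 1` iff `w.valuation (C.h (t2 x)) < 1` iff `t2 x ∈ w₀` iff `w₀.valuation (t2 x) < 1` iff (`hfix`) `x ∈ w₀`.
`L/L'` is Galois, so (`Algebra.IsInvariant.exists_smul_of_under_eq (𝓞 L') (𝓞 L) (L ≃ₐ[L'] L)`) there is `u ∈ Gal(L/L')` with `w'.valuation x = w.valuation (u x)` for all `x` (see the proof of `fixP_step` in `Pool/Agent/H68/TL/StepB.lean` for the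
translation between ideals and valuations). `g₃ = u⁻¹`-corrected: `g₃ := g₂ u⁻¹`: `w.valuation (g₃ x) = w'.valuation (u⁻¹ x) = w.valuation x`, and `g₃ (C.h x) = g₂ (C.h x) = C.h (t2 x)`.
`w.valuation ((g₃^e) x) = w.valuation x`. `g₃^e = h`: on `C.h x`: `C.h (t2^e x) = C.h (t x) = h (C.h x)`; on the image of `B`: `B/ℚ` is normal, `g₃` restricts to `g_B` with `g_B^e = 1` (`hB`), and `h` fixes the image of `B` (`h` fixes `K`);
so they agree on `L` (`H68IM.gen_mem C.genL`, `RingHom.eqLocusField`).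
-/

set_option autoImplicit false
set_option linter.style.haveILetI false
open scoped Classical

open IsDedekindDomain NumberField H5SW H68QS H68IM Pool.Agent.H10

namespace H68TL

private theorem Bfb_mem {F : Type} [Field F] [NumberField F] {W W' : HeightOneSpectrum (𝓞 F)}
    {σ : F ≃+* F} (h : ∀ x, W.valuation F (σ x) = W'.valuation F x) (x : 𝓞 F) :
    x ∈ W'.asIdeal ↔ RingOfIntegers.mapRingEquiv σ x ∈ W.asIdeal := by
  rw [← HeightOneSpectrum.valuation_lt_one_iff_mem (K := F), ← h,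
    ← HeightOneSpectrum.valuation_lt_one_iff_mem (K := F)]
  rfl

private theorem Bfb_normal {k E1 E2 L : Type} [Field k] [Field E1] [Field E2] [Field L] [Algebra k E1]
    [Algebra k E2] [Algebra k L] [Normal k E1] [Normal k E2] (f1 : E1 →ₐ[k] L) (f2 : E2 →ₐ[k] L)
    (htop : f1.fieldRange ⊔ f2.fieldRange = ⊤) : Normal k L := by
  have n1 : Normal k f1.fieldRange := Normal.of_algEquiv f1.equivFieldRange
  have n2 : Normal k f2.fieldRange := Normal.of_algEquiv f2.equivFieldRange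
  have n3 : Normal k (f1.fieldRange ⊔ f2.fieldRange : IntermediateField k L) :=
    IntermediateField.normal_sup k L f1.fieldRange f2.fieldRange
  rw [htop] at n3
  exact Normal.of_algEquiv (IntermediateField.topEquiv (F := k) (E := L))

private theorem Bfb_gal {B K' L' K L : Type} [Field B] [NumberField B] [Field K'] [NumberField K']
    [Field L'] [NumberField L'] [Field K] [NumberField K] [Field L] [NumberField L]
    [Algebra K' L'] [Algebra K L] [IsGalois ℚ B] [IsGalois ℚ L'] (C : Comp B K' L' K L) : IsGalois ℚ L := by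
  have n4 : Normal ℚ L := by
    refine Bfb_normal (C.h.toRatAlgHom : L' →ₐ[ℚ] L) (((algebraMap K L).comp C.f).toRatAlgHom : B →ₐ[ℚ] L) ?_
    rw [eq_top_iff, ← C.genL]
    refine IntermediateField.adjoin_le_iff.2 ?_
    rintro _ (⟨x, rfl⟩ | ⟨x, rfl⟩)
    · exact (le_sup_right : (((algebraMap K L).comp C.f).toRatAlgHom : B →ₐ[ℚ] L).fieldRange ≤ _) ⟨x, rfl⟩
    · exact (le_sup_left : (C.h.toRatAlgHom : L' →ₐ[ℚ] L).fieldRange ≤ _) ⟨x, rfl⟩
  exact ⟨⟩

private theorem Bfb_pow {E F : Type} [Field E] [Field F] [CharZero E] [CharZero F] {i : E →+* F}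
    {g : F ≃ₐ[ℚ] F} {t : E ≃ₐ[ℚ] E} (h : ∀ x, g (i x) = i (t x)) (n : ℕ) :
    ∀ x, (g ^ n) (i x) = i ((t ^ n) x) := by
  induction n with
  | zero => intro x; rfl
  | succ n ih =>
    intro x
    rw [pow_succ, pow_succ, AlgEquiv.mul_apply, AlgEquiv.mul_apply, h, ih]

theorem fix_of_root {B K' L' K L : Type} [Field B] [NumberField B] [Field K'] [NumberField K']
    [Field L'] [NumberField L'] [Field K] [NumberField K] [Field L] [NumberField L]
    [Algebra K' L'] [Algebra K L] [IsGalois ℚ B] [IsGalois ℚ L'] (C : Comp B K' L' K L) {e : ℕ}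
    (hB : ∀ g : B ≃ₐ[ℚ] B, g ^ e = 1) {h : L ≃ₐ[K] L} {t : L' ≃ₐ[K'] L'}
    (ht : ∀ x, h (C.h x) = C.h (t x)) {t2 : L' ≃ₐ[ℚ] L'} (ht2 : ∀ x, (t2 ^ e) x = t x)
    {w : HeightOneSpectrum (𝓞 L)}
    (hfix : ∀ w0 : HeightOneSpectrum (𝓞 L'),
      (∀ x : 𝓞 L', x ∈ w0.asIdeal ↔ RingOfIntegers.mapRingHom C.h x ∈ w.asIdeal) →
      ∀ x, w0.valuation L' (t2 x) = w0.valuation L' x) (x : L) :
    w.valuation L (h x) = w.valuation L x := by
  haveI hgal : IsGalois ℚ L := Bfb_gal C
  letI : Algebra L' L := C.h.toAlgebra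
  haveI : IsScalarTower ℚ L' L := IsScalarTower.of_algebraMap_eq' (Subsingleton.elim _ _)
  haveI : IsGalois L' L := IsGalois.tower_top_of_isGalois ℚ L' L
  have hCh : ∀ x : L', algebraMap L' L x = C.h x := fun _ => rfl
  -- the lift of `t2`
  have hg2 : ∀ x : L', (t2.liftNormal L) (C.h x) = C.h (t2 x) := fun x => t2.liftNormal_commutes L x
  generalize t2.liftNormal L = g2 at hg2
  -- the prime below
  have hbot : w.asIdeal.under (𝓞 L') ≠ ⊥ := Ideal.IsIntegral.comap_ne_bot _ w.ne_bot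
  let w0 : HeightOneSpectrum (𝓞 L') := ⟨w.asIdeal.under (𝓞 L'), inferInstance, hbot⟩
  have halg : ∀ x : 𝓞 L', algebraMap (𝓞 L') (𝓞 L) x = RingOfIntegers.mapRingHom C.h x := by
    intro x
    apply RingOfIntegers.ext
    rfl
  have hval := hfix w0 (fun x => by
    rw [← halg]
    exact Iff.rfl)
  obtain ⟨w', hw', -⟩ := exists_conj g2 w
  have hmem := Bfb_mem (σ := (g2 : L ≃+* L)) hw'
  have hunder : w'.asIdeal.under (𝓞 L') = w.asIdeal.under (𝓞 L') := by
    ext x
    change algebraMap (𝓞 L') (𝓞 L) x ∈ w'.asIdeal ↔ x ∈ w0.asIdeal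
    rw [hmem]
    have e : RingOfIntegers.mapRingEquiv (g2 : L ≃+* L) (algebraMap (𝓞 L') (𝓞 L) x) =
        algebraMap (𝓞 L') (𝓞 L) (RingOfIntegers.mapRingEquiv (t2 : L' ≃+* L') x) := by
      apply RingOfIntegers.ext
      exact hg2 (x : L')
    rw [e]
    change RingOfIntegers.mapRingEquiv (t2 : L' ≃+* L') x ∈ w0.asIdeal ↔ x ∈ w0.asIdeal
    rw [← HeightOneSpectrum.valuation_lt_one_iff_mem (K := L'),
      ← HeightOneSpectrum.valuation_lt_one_iff_mem (K := L')]
    change w0.valuation L' (t2 (x : L')) < 1 ↔ w0.valuation L' (x : L') < 1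
    rw [hval]
  obtain ⟨γ, hγ⟩ := Algebra.IsInvariant.exists_smul_of_under_eq (𝓞 L') (𝓞 L) (L ≃ₐ[L'] L)
    w'.asIdeal w.asIdeal hunder
  have hγw : ∀ x, w.valuation L (γ x) = w'.valuation L x := by
    obtain ⟨w'', hw'', -⟩ := exists_conj γ w
    have h1 := Bfb_mem (σ := (γ : L ≃+* L)) hw''
    have h2 : w'' = w' := by
      apply HeightOneSpectrum.ext
      ext x
      rw [h1, hγ, Ideal.mem_pointwise_smul_iff_inv_smul_mem]
      have e : γ⁻¹ • RingOfIntegers.mapRingEquiv (γ : L ≃+* L) x = x := by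
        apply RingOfIntegers.ext
        exact γ.symm_apply_apply (x : L)
      rw [e]
    rw [← h2]
    exact hw''
  -- the corrected lift
  obtain ⟨g3, hg3⟩ : ∃ g3 : L ≃ₐ[ℚ] L, ∀ x, g3 x = g2 (γ.symm x) :=
    ⟨g2 * (γ.symm.restrictScalars ℚ), fun x => rfl⟩
  have hg3v : ∀ x, w.valuation L (g3 x) = w.valuation L x := by
    intro x
    rw [hg3, hw', ← hγw, γ.apply_symm_apply]
  have hg3h : ∀ x, g3 (C.h x) = C.h (t2 x) := by
    intro x
    rw [hg3, ← hCh, γ.symm.commutes, hCh, hg2]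
  have hg3n : ∀ (n : ℕ) (x : L), w.valuation L ((g3 ^ n) x) = w.valuation L x := by
    intro n
    induction n with
    | zero => intro x; rfl
    | succ n ih =>
      intro x
      rw [pow_succ', AlgEquiv.mul_apply, hg3v, ih]
  -- the restriction to `B`
  have hB' : ∀ b : B, (g3 ^ e) (algebraMap K L (C.f b)) = algebraMap K L (C.f b) := by
    letI : Algebra B L := ((algebraMap K L).comp C.f).toAlgebra
    haveI : IsScalarTower ℚ B L := IsScalarTower.of_algebraMap_eq' (Subsingleton.elim _ _)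
    have h1 : ∀ b : B, g3 (((algebraMap K L).comp C.f) b) =
        ((algebraMap K L).comp C.f) (g3.restrictNormal B b) := fun b =>
      (AlgEquiv.restrictNormal_commutes g3 B b).symm
    intro b
    have h2 := Bfb_pow h1 e b
    rw [hB] at h2
    exact h2
  have key : (g3 ^ e) x = h x := by
    refine gen_mem C.genL (RingHom.eqLocusField ((g3 ^ e : L ≃ₐ[ℚ] L) : L →+* L) (h : L →+* L))
      (rat_mem _) ?_ x
    rintro _ (⟨b, rfl⟩ | ⟨y, rfl⟩)
    · change (g3 ^ e) (algebraMap K L (C.f b)) = h (algebraMap K L (C.f b))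
      rw [hB', h.commutes]
    · change (g3 ^ e) (C.h y) = h (C.h y)
      rw [Bfb_pow hg3h, ht2, ht]
  rw [← key, hg3n]

end H68TL
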