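import Pool.Agent.H68.TL.Big
import Pool.Agent.H68.TL.Ccl
import Pool.Agent.H68.TL.GrpU

/-!
ROW Spu (from the pair `F / Km` down to the pair `B / K`, characters; about 200 lines).  PROOF.
`N ⊇ B`, `a` as in `NoUnr` for `B / K`. `exists_big` (with this `N`): `N' ⊇ N, F`, `ρ` from `exists_res N N'`, `a' u := a (ρ u)`. `a'` satisfies the hypotheses of `NoUnrP l Km F Q JF` for `N'` (`R`):
 `mul`: `u` fixes `F` ⇒ `ρ u` fixes `B` (`res_ext` with `g = 1`, `g' = 1`; `Ext u 1` is `Fx F u`), `ρ` is multiplicative. `unr`: `res_inI`, `P.under (𝓞 N)` is prime and not `⊥` (`Ideal.IsIntegral.comap_ne_bot`).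
 `JF`: `t` extends `JF`, so `ρ t` extends `J` (`hJ` below), `a (ρ t * ρ u * (ρ t)⁻¹) = -a (ρ u)`. Here `hJ : JF (algebraMap B F x) = algebraMap B F (J x)`: for an embedding `φ : F →+* ℂ`, `φ (JF (algebraMap B F x)) = conj (φ (algebraMap B F x)) =
   (φ ∘ algebraMap B F) (J x)` by `IsCC J`, and `φ` is injective.
 `Q`: `t` extends `τ ∈ Q`, so `ρ t` fixes `B` (`X.fixQ`), `a (ρ t * ρ u * (ρ t)⁻¹) = a (ρ u)` by `AddOn.conj` (`S = Sg B N`).
 norm: `r' : Gal(F/Km) → ..`: for `g` let `r g ∈ Gal(B/K)` be its restriction (`X.pair.res`; unique); `r` is onto (`X.pair.cov`) and all fibres have the same number `c` of elements (multiplication by a fixed lift of `h`; copy the proof of the private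
   lemma `MgPb_r` in `Pool/Agent/H78/MG/Pb.lean`). Fix lifts `s h : N ≃+* N` of `h ∈ Gal(B/K)` (`exists_ext`). `ρ (r' g) = s (r g) * c'` with `c' ∈ Sg B N`, so `a (ρ (r' g) * ρ u * (ρ (r' g))⁻¹) = a (s (r g) * ρ u * (s (r g))⁻¹)` (`AddOn.conj`: write
   `ρ (r' g) = c'' * s (r g)`, `c'' ∈ Sg B N`, `Ext.div`, `Ext.conj`), and the sum over `g` is `c • ∑_h a (s h * ρ u * (s h)⁻¹) = 0` (`Finset.sum_fiberwise_of_maps_to` / `Finset.sum_comp`).
 So `a (ρ u') = 0` for `u' ∈ Sg F N'` (*). Let `v ∈ Sg B N`, `u'` a lift (`res_lift`), `t'` an extension of `JF` to `N'` (`exists_ext`). `u'` fixes `B`, so it maps `F` to `F` (`F/B` is normal: `F/K` is Galois) by `g ∈ Gal(F/B)`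
 (`AlgEquiv.restrictNormal`, as `hres` in `Pool/Agent/H68/TL/StepU.lean`, for `F` over `B`), and `JF g = g JF` (`IsCC.comm`), so `w = t' u' t'⁻¹ u'⁻¹` fixes `F`: `a (ρ w) = 0` by (*). `ρ (t' u' t'⁻¹) = ρ w * v`, `ρ w ∈ Sg B N`:
 `-a v = a (ρ t' * v * (ρ t')⁻¹) = a (ρ w) + a v = a v`, `2 a v = 0`, `a v = 0` (`two_ne`).
-/

set_option autoImplicit false
set_option linter.style.haveILetI false
open scoped Classical

open IsDedekindDomain NumberField Finset H78M

namespace H68TL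

private theorem Spu_r {K Km B F : Type} [Field K] [NumberField K] [Field Km] [NumberField Km]
    [Field B] [NumberField B] [Field F] [NumberField F] [Algebra Km F] [Algebra K B]
    [Algebra B F] (X : PairK K Km B F (fun _ => True)) :
    ∃ (r : (F ≃ₐ[Km] F) → (B ≃ₐ[K] B)) (c : ℕ),
      (∀ g x, g (algebraMap B F x) = algebraMap B F (r g x)) ∧
      ∀ h, (univ.filter (fun g : F ≃ₐ[Km] F => r g = h)).card = c := by
  have hex : ∀ g : F ≃ₐ[Km] F, ∃ h : B ≃ₐ[K] B, True ∧
    ∀ x, g (algebraMap B F x) = algebraMap B F (h x) := X.res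
  choose r hr using hex
  have huniq : ∀ (g : F ≃ₐ[Km] F) (h : B ≃ₐ[K] B),
      (∀ x, g (algebraMap B F x) = algebraMap B F (h x)) → r g = h := by
    intro g h hx
    refine AlgEquiv.ext fun x => ?_
    apply (algebraMap B F).injective
    rw [← (hr g).2 x, hx x]
  refine ⟨r, (univ.filter (fun g : F ≃ₐ[Km] F => r g = 1)).card, fun g x => (hr g).2 x, ?_⟩
  intro h
  obtain ⟨g₀, hx₀⟩ := X.cov h trivial
  symm
  refine Finset.card_bij (fun g _ => g₀ * g) ?_ ?_ ?_
  · intro g hg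
    rw [Finset.mem_filter] at hg
    rw [Finset.mem_filter]
    refine ⟨Finset.mem_univ _, ?_⟩
    apply huniq
    intro x
    rw [AlgEquiv.mul_apply, (hr g).2 x, hg.2, hx₀]
    rfl
  · intro g _ g' _ hgg
    exact mul_left_cancel hgg
  · intro g hg
    rw [Finset.mem_filter] at hg
    refine ⟨g₀⁻¹ * g, ?_, by rw [mul_inv_cancel_left]⟩
    rw [Finset.mem_filter]
    refine ⟨Finset.mem_univ _, ?_⟩
    apply huniq
    intro x
    apply g₀.injective
    have h2 : g₀ ((g₀⁻¹ * g) (algebraMap B F x)) = (g₀ * (g₀⁻¹ * g)) (algebraMap B F x) := rfl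
    rw [h2, mul_inv_cancel_left, (hr g).2 x, hg.2, hx₀]
    rfl

private theorem Spu_conj {G : Type*} [Group G] {l : ℕ} {S : Subgroup G} {a : G → ZMod l}
    (ha : AddOn S a) {p q v : G} (h1 : p * q⁻¹ ∈ S) (h2 : q * v * q⁻¹ ∈ S) :
    a (p * v * p⁻¹) = a (q * v * q⁻¹) := by
  have e : p * v * p⁻¹ = (p * q⁻¹) * (q * v * q⁻¹) * (p * q⁻¹)⁻¹ := by group
  rw [e, ha.conj h1 h2]

theorem noUnr_sub {l : ℕ} [Fact l.Prime] (hl2 : l ≠ 2) {K Km B F : Type} [Field K]
    [NumberField K] [Field Km] [NumberField Km] [Field B] [NumberField B] [Field F]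
    [NumberField F] [Algebra K Km] [Algebra Km F] [Algebra K F] [IsScalarTower K Km F]
    [Algebra K B] [Algebra B F] [IsScalarTower K B F] {Q : Set (F ≃+* F)} (X : SP l K Km B F Q)
    {JF : F ≃+* F} (hJF : IsCC JF) (R : NoUnrP l Km F Q JF) {J : B ≃+* B} (hJ : IsCC J) :
    NoUnr l K B J := by
  intro N _ _ _ _ a haU haJ haH
  have hgalF : IsGalois K F := X.gal
  have hgalBF : IsGalois B F := IsGalois.tower_top_of_isGalois K B F
  obtain ⟨N', _, _, _, _, hgN', hc⟩ := exists_big (B := B) (F := F) (N := N)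
  obtain ⟨ρ, hρ⟩ := exists_res N N'
  have hadd : AddOn (Sg B N) a := fun u hu v hv => haU.mul u v hu hv
  -- complex conjugation
  have hJB : ∀ x, JF (algebraMap B F x) = algebraMap B F (J x) := by
    intro x
    obtain ⟨φ⟩ := cc_emb F
    apply φ.injective
    rw [hJF]
    exact (hJ (φ.comp (algebraMap B F)) x).symm
  have hFx : ∀ u : N' ≃+* N', Fx F u → ρ u ∈ Sg B N := by
    intro u hu
    exact res_ext hc (hρ u) (ext_of_mem hu) (g' := 1) (fun x => rfl)
  have hEJ : ∀ t : N' ≃+* N', Ext t JF → Ext (ρ t) J := fun t ht => res_ext hc (hρ t) ht hJB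
  -- the character on the big group vanishes
  have hstar : ∀ u : N' ≃+* N', Fx F u → a (ρ u) = 0 := by
    refine R N' (fun u => a (ρ u)) ⟨?_, ?_⟩ ?_ ?_ ?_
    · intro u v hu hv
      rw [map_mul]
      exact haU.mul _ _ (hFx u hu) (hFx v hv)
    · intro P hP hP0 u hu hI
      have h1 := res_inI (hρ u) hI
      exact haU.unr (P.under (𝓞 N)) inferInstance (Ideal.IsIntegral.comap_ne_bot _ hP0) _
        (hFx u hu) h1
    · intro t ht u hu
      change a (ρ (t * u * t⁻¹)) = -a (ρ u)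
      rw [map_mul, map_mul, map_inv]
      exact haJ (ρ t) (hEJ t ht) (ρ u) (hFx u hu)
    · intro r' hr' u hu
      obtain ⟨r, c, hr, hcard⟩ := Spu_r X.pair
      choose s hs using fun h : B ≃ₐ[K] B => exists_ext (N := N) (h : B ≃+* B)
      have hsum := haH s hs (ρ u) (hFx u hu)
      have e1 : ∀ g : F ≃ₐ[Km] F, a (ρ (r' g * u * (r' g)⁻¹)) =
          a (s (r g) * ρ u * (s (r g))⁻¹) := by
        intro g
        rw [map_mul, map_mul, map_inv]
        apply Spu_conj hadd
        · have h1 : Ext (ρ (r' g)) ((r g : B ≃ₐ[K] B) : B ≃+* B) :=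
            res_ext hc (hρ _) (hr' g) (fun x => hr g x)
          have h2 := h1.mul (hs (r g)).inv
          rw [mul_inv_cancel] at h2
          exact h2
        · exact (hs (r g)).conj (hFx u hu)
      rw [Finset.sum_congr rfl (fun g _ => e1 g),
        ← Finset.sum_fiberwise_of_maps_to (s := univ) (t := (univ : Finset (B ≃ₐ[K] B)))
          (g := r) (fun g _ => Finset.mem_univ _)]
      have e2 : ∀ h ∈ (univ : Finset (B ≃ₐ[K] B)),
          ∑ g ∈ univ.filter (fun g : F ≃ₐ[Km] F => r g = h), a (s (r g) * ρ u * (s (r g))⁻¹) =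
            c • a (s h * ρ u * (s h)⁻¹) := by
        intro h _
        rw [← hcard h, ← Finset.sum_const]
        refine Finset.sum_congr rfl fun g hg => ?_
        rw [(Finset.mem_filter.1 hg).2]
      rw [Finset.sum_congr rfl e2, ← Finset.smul_sum, hsum, smul_zero]
    · intro τ hτ t ht u hu
      rw [map_mul, map_mul, map_inv]
      have h1 : ρ t ∈ Sg B N :=
        res_ext hc (hρ t) ht (g' := 1) (fun x => X.fixQ τ hτ x)
      exact hadd.conj h1 (hFx u hu)
  intro v hv
  obtain ⟨u', hu'⟩ := res_lift (N' := N') v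
  have hρu : ρ u' = v := (hρ u').unique hu'
  obtain ⟨t', ht'⟩ := exists_ext (N := N') JF
  -- `u'` restricts to `F`
  obtain ⟨g, hg⟩ : ∃ g : F ≃+* F, Ext u' g := by
    let _ : Algebra B N' := ((algebraMap F N').comp (algebraMap B F)).toAlgebra
    have : IsScalarTower B F N' := IsScalarTower.of_algebraMap_eq fun x => rfl
    have hfix : ∀ x : B, u' (algebraMap B N' x) = algebraMap B N' x := by
      intro x
      change u' (algebraMap F N' (algebraMap B F x)) = algebraMap F N' (algebraMap B F x)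
      rw [hc, hu', hv x]
    let g' : N' ≃ₐ[B] N' := AlgEquiv.ofRingEquiv (f := u') hfix
    exact ⟨(g'.restrictNormal F : F ≃ₐ[B] F),
      fun x => (AlgEquiv.restrictNormal_commutes g' F x).symm⟩
  have hw : Ext (t' * u' * t'⁻¹ * u'⁻¹) (1 : F ≃+* F) := by
    have h1 := ((ht'.mul hg).mul ht'.inv).mul hg.inv
    have h2 : JF * g * JF⁻¹ * g⁻¹ = 1 := by
      rw [mul_inv_eq_one, mul_inv_eq_iff_eq_mul]
      ext x
      exact hJF.comm g x
    rw [h2] at h1
    exact h1
  have h0 := hstar _ hw.mem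
  have h1 := haJ (ρ t') (hEJ t' ht') v hv
  have h2 : ρ t' * v * (ρ t')⁻¹ = ρ (t' * u' * t'⁻¹ * u'⁻¹) * v := by
    rw [map_mul, map_mul, map_mul, map_inv, map_inv, hρu, inv_mul_cancel_right]
  rw [h2, haU.mul _ _ (hFx _ hw.mem) hv, h0, zero_add] at h1
  have h3 : 2 * a v = 0 := by linear_combination h1
  exact (mul_eq_zero.1 h3).resolve_left (two_ne hl2)

end H68TL
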