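import Pool.Agent.H68.TL.StepU

/-!
# MP_78d38b: the `l`-step for the fixed primes
-/

set_option autoImplicit false
set_option linter.style.haveILetI false
set_option linter.unusedSectionVars false
open scoped Classical

open IsDedekindDomain NumberField Finset Pool.Agent.H10 H68IM

namespace H68TL

lemma mem_iff_of_val {F : Type} [Field F] [NumberField F] {W W' : HeightOneSpectrum (𝓞 F)}
    {σ : F ≃+* F} (h : ∀ x, W.valuation F (σ x) = W'.valuation F x) (x : 𝓞 F) :
    x ∈ W'.asIdeal ↔ RingOfIntegers.mapRingEquiv σ x ∈ W.asIdeal := by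
  rw [← HeightOneSpectrum.valuation_lt_one_iff_mem (K := F), ← h,
    ← HeightOneSpectrum.valuation_lt_one_iff_mem (K := F)]
  rfl

section

variable {K F K2 F2 : Type} [Field K] [NumberField K] [Field F] [NumberField F]
  [Field K2] [NumberField K2] [Field F2] [NumberField F2]
  [Algebra K F] [Algebra K K2] [Algebra K F2] [Algebra F F2] [Algebra K2 F2]
  [IsScalarTower K F F2] [IsScalarTower K K2 F2]

/-- The `l`-step for the fixed primes. -/
theorem fixP_step [IsGalois K F] [IsGalois K K2] [IsGalois F F2] [IsGalois K2 F2] {l : ℕ}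
    [Fact l.Prime] (hfr : Module.finrank K2 F2 = Module.finrank K F)
    (hlF : Module.finrank F F2 = l) (hn : ¬ l ∣ Module.finrank K F)
    (hgen2 : IntermediateField.adjoin K2 (Set.range (algebraMap F F2)) = ⊤)
    {M : ℤ} (hfix : FixP M K F) : FixP M K2 F2 := by
  intro W hMW h
  have hcomm := comm_galois (K := K) (F := F) (K2 := K2) (F2 := F2) hgen2
  -- the prime below
  have hbot : W.asIdeal.under (𝓞 F) ≠ ⊥ := Ideal.IsIntegral.comap_ne_bot _ W.ne_bot
  let w : HeightOneSpectrum (𝓞 F) := ⟨W.asIdeal.under (𝓞 F), inferInstance, hbot⟩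
  have hMw : (M : 𝓞 F) ∈ w.asIdeal := by
    change algebraMap (𝓞 F) (𝓞 F2) (M : 𝓞 F) ∈ W.asIdeal
    rw [map_intCast]
    exact hMW
  let ρ : F ≃ₐ[K] F := (h.restrictScalars K).restrictNormal F
  have hρ : ∀ x, h (algebraMap F F2 x) = algebraMap F F2 (ρ x) := fun x =>
    (AlgEquiv.restrictNormal_commutes (h.restrictScalars K) F x).symm
  obtain ⟨W', hW', -⟩ := exists_conj h W
  have hmem := mem_iff_of_val (σ := (h : F2 ≃+* F2)) hW'
  have hunder : W'.asIdeal.under (𝓞 F) = W.asIdeal.under (𝓞 F) := by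
    ext x
    change algebraMap (𝓞 F) (𝓞 F2) x ∈ W'.asIdeal ↔ x ∈ w.asIdeal
    rw [hmem]
    have e : RingOfIntegers.mapRingEquiv (h : F2 ≃+* F2) (algebraMap (𝓞 F) (𝓞 F2) x) =
        algebraMap (𝓞 F) (𝓞 F2) (RingOfIntegers.mapRingEquiv (ρ : F ≃+* F) x) := by
      apply RingOfIntegers.ext
      exact hρ (x : F)
    rw [e]
    change RingOfIntegers.mapRingEquiv (ρ : F ≃+* F) x ∈ w.asIdeal ↔ x ∈ w.asIdeal
    rw [← HeightOneSpectrum.valuation_lt_one_iff_mem (K := F),
      ← HeightOneSpectrum.valuation_lt_one_iff_mem (K := F)]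
    change w.valuation F (ρ (x : F)) < 1 ↔ w.valuation F (x : F) < 1
    rw [hfix w hMw ρ]
  obtain ⟨γ, hγ⟩ := Algebra.IsInvariant.exists_smul_of_under_eq (𝓞 F) (𝓞 F2) (F2 ≃ₐ[F] F2)
    W'.asIdeal W.asIdeal hunder
  -- `W.valuation (γ x) = W'.valuation x`
  have hγW : ∀ x, W.valuation F2 (γ x) = W'.valuation F2 x := by
    obtain ⟨W'', hW'', -⟩ := exists_conj γ W
    have h1 := mem_iff_of_val (σ := (γ : F2 ≃+* F2)) hW''
    have h2 : W'' = W' := by
      apply HeightOneSpectrum.ext
      ext x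
      rw [h1, hγ, Ideal.mem_pointwise_smul_iff_inv_smul_mem]
      have e : γ⁻¹ • RingOfIntegers.mapRingEquiv (γ : F2 ≃+* F2) x = x := by
        apply RingOfIntegers.ext
        exact γ.symm_apply_apply (x : F2)
      rw [e]
    rw [← h2]
    exact hW''
  -- the stabilizer
  have hhγ : ∀ x, W.valuation F2 (h x) = W.valuation F2 (γ x) := fun x => by rw [hW', hγW]
  have hpow : ∀ (n : ℕ) (x : F2), W.valuation F2 ((h ^ n) x) = W.valuation F2 ((γ ^ n) x) := by
    intro n
    induction n with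
    | zero => intro x; rfl
    | succ n ih =>
      intro x
      have hc : ∀ (n : ℕ) (y : F2), (γ ^ n) (h y) = h ((γ ^ n) y) := fun n y =>
        (hcomm h (γ ^ n) y).symm
      rw [pow_succ, AlgEquiv.mul_apply, ih, hc, hhγ, ← AlgEquiv.mul_apply, ← pow_succ']
  have hγn : ∀ x, W.valuation F2 ((γ ^ Module.finrank K F) x) = W.valuation F2 x := by
    intro x
    rw [← hpow, ← hfr, ← IsGalois.card_aut_eq_finrank, pow_card_eq_one']
    rfl
  have hγl : γ ^ l = 1 := by
    rw [← hlF, ← IsGalois.card_aut_eq_finrank, pow_card_eq_one']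
  have hγnk : ∀ (k : ℕ) (x : F2), W.valuation F2 (((γ ^ Module.finrank K F) ^ k) x) =
      W.valuation F2 x := by
    intro k
    induction k with
    | zero => intro x; rfl
    | succ k ih =>
      intro x
      rw [pow_succ', AlgEquiv.mul_apply, hγn, ih]
  obtain ⟨k, -, hk⟩ := Nat.exists_mul_mod_eq_one_of_coprime
    ((Fact.out : l.Prime).coprime_iff_not_dvd.mpr hn).symm (Fact.out : l.Prime).one_lt
  have hγ1 : ∀ x, W.valuation F2 (γ x) = W.valuation F2 x := by
    intro x
    have e : (γ ^ Module.finrank K F) ^ k = γ := by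
      rw [← pow_mul, ← Nat.div_add_mod (Module.finrank K F * k) l, hk, pow_add, pow_mul, hγl,
        one_pow, one_mul, pow_one]
    have h1 := hγnk k x
    rw [e] at h1
    exact h1
  intro x
  rw [hhγ, hγ1]

end

end H68TL
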