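import Pool.Agent.H68.TL.Brg
import Pool.Agent.H68.TL.GrpU
import Pool.Agent.H68.TL.ExtU
import Pool.Agent.H68.TL.Ccy
import Pool.Agent.H68.TL.Unc
import Pool.Agent.H2.T4.CZ

/-!
ROW Unb (unramified characters over the cyclotomic field; about 180 lines).  PROOF.  Use only the STATEMENTS of the imported rows.
`N ⊇ F` Galois over `ℚ`, `a` as in `NoUnrP`. `a₁ : (N ≃ₐ[F] N) →* Multiplicative (ZMod l)`, `a₁ u = Multiplicative.ofAdd (a (u : N ≃+* N))` (`UnrC.mul`). It suffices `a₁ = 1` (every `u` with `Fx F u` is `AlgEquiv.ofRingEquiv hu`).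
Apply `H2T4.no_char F N` with `ℓ = l`, `a = a₁`: `hab` and the order statements: `exists_tau`; `hcx`: `cplx_cyc`; `h3`: `l` odd prime; `hunr`: `unrV_of_inertia` with `UnrC.unr`; `S = {h0, J, J * τ}`, `h0` from `exists_h0`;
`hS`: `orderOf h0 = p^j`, `p ≠ l`; `orderOf J = 2 = 2^1`, `orderOf (J * τ) = 2`, `2 ≠ l`. `hNN`: `top_of_noNewT`.
`hNK` (`NK a₁ g`: for a lift `s` of `g`, `∏_{j < orderOf g} a₁ (cj (s^j) σ) = 1`, `cj s σ = s⁻¹ σ s`, see `Pool/Agent/H11/Conj.lean`): for `g = h0`: the norm condition. `Gal(F/Km)` is in bijection with `{g | InH g}` (`H78M.inH_iff hmn`, restriction of scalars,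
`AlgEquiv.ofRingEquiv`), that is with the `k < orderOf h0`; let `r h` for `h = h0^k` be `(s^(orderOf h0 - k))⁻¹`... simplest: for `h ∈ Gal(F/Km)` let `k(h) < orderOf h0` be the number with `h⁻¹ = h0^k` on `F`, `r h := (s^(k(h)))⁻¹`, it extends
`(h0^k)⁻¹ = h`; `h ↦ k(h)` is a bijection onto `range (orderOf h0)` (`Finset.sum_bij`), and `a (r h * u * (r h)⁻¹) = a ((s^k)⁻¹ * u * s^k)`. For `g = J`: `a (s⁻¹ * σ * s) = -a σ` (`s⁻¹` extends `J⁻¹ = J`), so `a₁ σ * a₁ (cj s σ) = 1`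
(`Finset.prod_range_succ`). For `g = J * τ`: `s` extends `J τ`; let `t` extend `τ` (`exists_ext`); `y = s t⁻¹` extends `J`, `s⁻¹ σ s = t⁻¹ (y⁻¹ σ y) t`, so `a` of it is `a (y⁻¹ σ y) = -a σ` (`t⁻¹` extends `τ⁻¹ = τ`, in `QTau`; `y⁻¹` extends `J`).
-/

/-!
ROW Unb (unramified characters over the cyclotomic field; about 180 lines).  PROOF.  Use only the STATEMENTS of the imported rows.
`N ⊇ F` Galois over `ℚ`, `a` as in `NoUnrP`. `a₁ : (N ≃ₐ[F] N) →* Multiplicative (ZMod l)`, `a₁ u = Multiplicative.ofAdd (a (u : N ≃+* N))` (`UnrC.mul`). It suffices `a₁ = 1` (every `u` with `Fx F u` is `AlgEquiv.ofRingEquiv hu`).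
Apply `H2T4.no_char F N` with `ℓ = l`, `a = a₁`: `hab` and the order statements: `exists_tau`; `hcx`: `cplx_cyc`; `h3`: `l` odd prime; `hunr`: `unrV_of_inertia` with `UnrC.unr`; `S = {h0, J, J * τ}`, `h0` from `exists_h0`;
`hS`: `orderOf h0 = p^j`, `p ≠ l`; `orderOf J = 2 = 2^1`, `orderOf (J * τ) = 2`, `2 ≠ l`. `hNN`: `top_of_noNewT`.
`hNK` (`NK a₁ g`: for a lift `s` of `g`, `∏_{j < orderOf g} a₁ (cj (s^j) σ) = 1`, `cj s σ = s⁻¹ σ s`, see `Pool/Agent/H11/Conj.lean`): for `g = h0`: the norm condition. `Gal(F/Km)` is in bijection with `{g | InH g}` (`H78M.inH_iff hmn`, restriction of scalars,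
`AlgEquiv.ofRingEquiv`), that is with the `k < orderOf h0`; let `r h` for `h = h0^k` be `(s^(orderOf h0 - k))⁻¹`... simplest: for `h ∈ Gal(F/Km)` let `k(h) < orderOf h0` be the number with `h⁻¹ = h0^k` on `F`, `r h := (s^(k(h)))⁻¹`, it extends
`(h0^k)⁻¹ = h`; `h ↦ k(h)` is a bijection onto `range (orderOf h0)` (`Finset.sum_bij`), and `a (r h * u * (r h)⁻¹) = a ((s^k)⁻¹ * u * s^k)`. For `g = J`: `a (s⁻¹ * σ * s) = -a σ` (`s⁻¹` extends `J⁻¹ = J`), so `a₁ σ * a₁ (cj s σ) = 1`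
(`Finset.prod_range_succ`). For `g = J * τ`: `s` extends `J τ`; let `t` extend `τ` (`exists_ext`); `y = s t⁻¹` extends `J`, `s⁻¹ σ s = t⁻¹ (y⁻¹ σ y) t`, so `a` of it is `a (y⁻¹ σ y) = -a σ` (`t⁻¹` extends `τ⁻¹ = τ`, in `QTau`; `y⁻¹` extends `J`).
-/

set_option autoImplicit false
set_option linter.style.haveILetI false
open scoped Classical nonZeroDivisors Pointwise

open IsDedekindDomain NumberField Finset H78M

namespace H68TL

private theorem Unb_invol {F N : Type} [Field F] [Field N] [Algebra F N] {t : N ≃+* N}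
    {g : F ≃+* F} (h : Ext t g) (hg : ∀ x, g (g x) = x) : Ext t⁻¹ g := by
  intro x
  change t.symm (algebraMap F N x) = algebraMap F N (g x)
  rw [RingEquiv.symm_apply_eq, h, hg]

private theorem Unb_pow {F N : Type} [Field F] [NumberField F] [Field N] [NumberField N]
    [Algebra F N] {s : N ≃ₐ[ℚ] N} {g : F ≃ₐ[ℚ] F} (h : H2T4.Lft s g) (k : ℕ) :
    H2T4.Lft (s ^ k) (g ^ k) := by
  induction k with
  | zero => intro x; rfl
  | succ k ih =>
    intro x
    rw [pow_succ, pow_succ, AlgEquiv.mul_apply, AlgEquiv.mul_apply, h, ih]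

/-- the homomorphism -/
private noncomputable def Unb_a {l : ℕ} {F N : Type} [Field F] [Field N] [Algebra F N]
    {a : (N ≃+* N) → ZMod l} (ha : UnrC l F a) : (N ≃ₐ[F] N) →* Multiplicative (ZMod l) where
  toFun u := Multiplicative.ofAdd (a (u : N ≃+* N))
  map_one' := by
    have h1 := ha.mul 1 1 (fun _ => rfl) (fun _ => rfl)
    rw [mul_one] at h1
    have h2 : a 1 = 0 := by
      have h3 : a 1 + 0 = a 1 + a 1 := by rw [add_zero]; exact h1
      exact (add_left_cancel h3).symm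
    change Multiplicative.ofAdd (a 1) = 1
    rw [h2]
    rfl
  map_mul' u v := by
    have h1 := ha.mul (u : N ≃+* N) (v : N ≃+* N) (fun x => u.commutes x) (fun x => v.commutes x)
    change Multiplicative.ofAdd (a ((u : N ≃+* N) * (v : N ≃+* N))) = _
    rw [h1]
    rfl

theorem noUnr_cyc {l p M m n : ℕ} [Fact l.Prime] [Fact p.Prime] [NeZero M] (hl2 : l ≠ 2)
    (hp2 : p ≠ 2) (hlp : l ≠ p) (hlM : l ∣ M) (hpM : p.Coprime M) {hmn : m ≤ n} {Km F : Type}
    [Field Km] [NumberField Km] [Field F] [NumberField F] [Algebra Km F]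
    [IsCyclotomicExtension {M * p ^ (m + 1)} ℚ Km] [IsCyclotomicExtension {M * p ^ (n + 1)} ℚ F]
    (HT : NoNewT l p M m n hmn F) {J : F ≃ₐ[ℚ] F} (hJ : kp (M * p ^ (n + 1)) J = -1) :
    NoUnrP l Km F (QTau p M n F) (J : F ≃+* F) := by
  have hgalF : IsGalois ℚ F := IsCyclotomicExtension.isGalois {M * p ^ (n + 1)} ℚ F
  obtain ⟨h0, ⟨j0, hj0⟩, hh0⟩ := exists_h0 (m := m) hp2 hpM hmn F
  obtain ⟨τ, hτ, hτu, hττ, hJτ2, hJ2, hc⟩ := exists_tau (l := l) hl2 hlM hpM F hJ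
  intro N _ _ _ _ a ha haJ har haτ
  have hl : l.Prime := Fact.out
  have hJJ : ∀ x : F, J (J x) = x := by
    intro x
    have h1 := pow_orderOf_eq_one J
    rw [hJ2, pow_two] at h1
    exact congrArg (fun g : F ≃ₐ[ℚ] F => g x) h1
  have hττx : ∀ x : F, τ (τ x) = x := fun x => congrArg (fun g : F ≃ₐ[ℚ] F => g x) hττ
  have hJJ' : ∀ x : F, (J : F ≃+* F) ((J : F ≃+* F) x) = x := hJJ
  have hττ' : ∀ x : F, (τ : F ≃+* F) ((τ : F ≃+* F) x) = x := hττx
  -- conjugation by lifts, in terms of ring automorphisms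
  have hcj : ∀ (s : N ≃ₐ[ℚ] N) (σ : N ≃ₐ[F] N),
      ((Pool.Agent.H11.cj s σ : N ≃ₐ[F] N) : N ≃+* N) =
        (s : N ≃+* N)⁻¹ * (σ : N ≃+* N) * (s : N ≃+* N) := by
    intro s σ
    ext x
    rfl
  -- the sum condition is enough
  have hprod : ∀ (s : N ≃ₐ[ℚ] N) (σ : N ≃ₐ[F] N) (k : ℕ),
      ∑ j ∈ range k, a (((s ^ j : N ≃ₐ[ℚ] N) : N ≃+* N)⁻¹ * (σ : N ≃+* N) *
        ((s ^ j : N ≃ₐ[ℚ] N) : N ≃+* N)) = 0 →
      ∏ j ∈ range k, Unb_a ha (Pool.Agent.H11.cj (s ^ j) σ) = 1 := by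
    intro s σ k h1
    have h2 : ∀ j ∈ range k, Unb_a ha (Pool.Agent.H11.cj (s ^ j) σ) =
        Multiplicative.ofAdd (a (((s ^ j : N ≃ₐ[ℚ] N) : N ≃+* N)⁻¹ * (σ : N ≃+* N) *
        ((s ^ j : N ≃ₐ[ℚ] N) : N ≃+* N))) := by
      intro j _
      change Multiplicative.ofAdd (a ((Pool.Agent.H11.cj (s ^ j) σ : N ≃ₐ[F] N) : N ≃+* N)) = _
      rw [hcj]
    rw [prod_congr rfl h2, ← ofAdd_sum, h1]
    rfl
  have hJneg : ∀ y : N ≃+* N, Ext y (J : F ≃+* F) → ∀ u, Fx F u → a (y⁻¹ * u * y) = -a u := by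
    intro y hy u hu
    have h1 := haJ y⁻¹ (Unb_invol hy hJJ') u hu
    rw [inv_inv] at h1
    exact h1
  have hmain : Unb_a ha = 1 := by
    refine H2T4.no_char F N (fun g g' => hc g g') (cplx_cyc (l := l) (p := p) (M := M) (n := n) hl2 hlM F)
      hl ?_ (Unb_a ha) ?_ ({h0, J, J * τ} : Set (F ≃ₐ[ℚ] F)) ?_ ?_
      (fun T h1 h2 h3 => top_of_noNewT HT hJ hh0 hτu hJ2 hJτ2 hc T h1 h2 h3)
    · have := hl.two_le
      omega
    · refine unrV_of_inertia (Unb_a ha) fun P hP hP0 u hu => ?_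
      change Multiplicative.ofAdd (a (u : N ≃+* N)) = 1
      rw [ha.unr P hP hP0 (u : N ≃+* N) (fun x => u.commutes x) hu]
      rfl
    · intro g hg
      rcases hg with rfl | rfl | rfl
      · exact ⟨p, j0, Fact.out, hlp.symm, hj0⟩
      · exact ⟨2, 1, Nat.prime_two, hl2.symm, by rw [hJ2]; norm_num⟩
      · exact ⟨2, 1, Nat.prime_two, hl2.symm, by rw [hJτ2]; norm_num⟩
    · intro g hg s hs σ
      apply hprod
      have hσ : Fx F (σ : N ≃+* N) := fun x => σ.commutes x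
      rcases hg with rfl | rfl | rfl
      · -- the norm condition
        have hinH : ∀ h : F ≃ₐ[Km] F, InH p M m n hmn ((h.restrictScalars ℚ)⁻¹) := by
          intro h
          rw [inH_iff (Km := Km) hmn]
          intro x
          exact (h⁻¹ : F ≃ₐ[Km] F).commutes x
        have hk : ∀ h : F ≃ₐ[Km] F, ∃ k < orderOf g, (h.restrictScalars ℚ)⁻¹ = g ^ k :=
          fun h => (hh0 _).1 (hinH h)
        choose k hk1 hk2 using hk
        have h1 := har (fun h => (((s ^ k h : N ≃ₐ[ℚ] N) : N ≃+* N))⁻¹) (by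
          intro h x
          have h3 := Unb_pow hs (k h)
          change ((s ^ k h : N ≃ₐ[ℚ] N) : N ≃+* N).symm (algebraMap F N x) =
            algebraMap F N (h x)
          rw [RingEquiv.symm_apply_eq]
          change _ = (s ^ k h) (algebraMap F N (h x))
          rw [h3, ← hk2 h]
          congr 1
          exact (h.symm_apply_apply x).symm) (σ : N ≃+* N) hσ
        rw [← h1]
        symm
        refine Finset.sum_bij (fun h _ => k h) (fun h _ => mem_range.2 (hk1 h)) ?_ ?_ ?_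
        · intro h _ h' _ he
          have h4 : (h.restrictScalars ℚ)⁻¹ = (h'.restrictScalars ℚ)⁻¹ := by
            rw [hk2 h, hk2 h', he]
          have h5 := inv_injective h4
          ext x
          exact congrArg (fun g : F ≃ₐ[ℚ] F => g x) h5
        · intro j hj
          have hj' := mem_range.1 hj
          have h4 : InH p M m n hmn (g ^ j) := (hh0 _).2 ⟨j, hj', rfl⟩
          rw [inH_iff (Km := Km) hmn] at h4
          have h5 : ∀ x : Km, ((g ^ j : F ≃ₐ[ℚ] F) : F ≃+* F).symm (algebraMap Km F x) =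
              algebraMap Km F x := by
            intro x
            rw [RingEquiv.symm_apply_eq]
            exact (h4 x).symm
          refine ⟨AlgEquiv.ofRingEquiv (f := ((g ^ j : F ≃ₐ[ℚ] F) : F ≃+* F).symm) h5,
            mem_univ _, ?_⟩
          have h6 := hk2 (AlgEquiv.ofRingEquiv (f := ((g ^ j : F ≃ₐ[ℚ] F) : F ≃+* F).symm) h5)
          have h7 := hk1 (AlgEquiv.ofRingEquiv (f := ((g ^ j : F ≃ₐ[ℚ] F) : F ≃+* F).symm) h5)
          have h8 : ((AlgEquiv.ofRingEquiv (f := ((g ^ j : F ≃ₐ[ℚ] F) : F ≃+* F).symm) h5 :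
              F ≃ₐ[Km] F).restrictScalars ℚ)⁻¹ = g ^ j := by
            rw [inv_eq_iff_eq_inv]
            ext x
            rfl
          rw [h8] at h6
          exact (pow_injOn_Iio_orderOf hj' h7 h6).symm
        · intro h _
          rw [inv_inv]
      · -- complex conjugation
        rw [hJ2, sum_range_succ, sum_range_succ, sum_range_zero, pow_zero, pow_one, zero_add]
        have h1 := hJneg (s : N ≃+* N) hs (σ : N ≃+* N) hσ
        rw [h1]
        have h2 : ((1 : N ≃ₐ[ℚ] N) : N ≃+* N)⁻¹ * (σ : N ≃+* N) * ((1 : N ≃ₐ[ℚ] N) : N ≃+* N) =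
            (σ : N ≃+* N) := by
          ext x
          rfl
        rw [h2, add_neg_cancel]
      · rw [hJτ2, sum_range_succ, sum_range_succ, sum_range_zero, pow_zero, pow_one, zero_add]
        have h2 : ((1 : N ≃ₐ[ℚ] N) : N ≃+* N)⁻¹ * (σ : N ≃+* N) * ((1 : N ≃ₐ[ℚ] N) : N ≃+* N) =
            (σ : N ≃+* N) := by
          ext x
          rfl
        obtain ⟨t, ht⟩ := exists_ext (N := N) (τ : F ≃+* F)
        have hti : Ext t⁻¹ (τ : F ≃+* F) := Unb_invol ht hττ'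
        have hsE : Ext (s : N ≃+* N) ((J : F ≃+* F) * (τ : F ≃+* F)) := hs
        have hy : Ext ((s : N ≃+* N) * t⁻¹) (J : F ≃+* F) := by
          intro x
          have h3 := (hsE.mul hti) x
          rw [h3]
          congr 1
          change J (τ (τ x)) = J x
          rw [hττx]
        have h4 := hJneg _ hy (σ : N ≃+* N) hσ
        have hfx : Fx F (((s : N ≃+* N) * t⁻¹)⁻¹ * (σ : N ≃+* N) * ((s : N ≃+* N) * t⁻¹)) := by
          have h5 := hy.inv.conj (mem_Sg.2 hσ)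
          rw [inv_inv] at h5
          exact h5
        have h6 := haτ (τ : F ≃+* F) ⟨τ, hτ, rfl⟩ t⁻¹ hti _ hfx
        have h7 : t⁻¹ * (((s : N ≃+* N) * t⁻¹)⁻¹ * (σ : N ≃+* N) * ((s : N ≃+* N) * t⁻¹)) * t⁻¹⁻¹ =
            (s : N ≃+* N)⁻¹ * (σ : N ≃+* N) * (s : N ≃+* N) := by
          group
        rw [h7, h4] at h6
        rw [h6, h2, add_neg_cancel]
  intro u hu
  have h1 : Unb_a ha (AlgEquiv.ofRingEquiv (f := u) hu) = 1 := by
    rw [hmain]
    rfl
  have h2 : Multiplicative.ofAdd (a u) = 1 := h1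
  exact Multiplicative.ofAdd.injective h2

end H68TL
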