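import Pool.Agent.H68.TL.Ctm
import Pool.Agent.H68.TL.Bst
import Pool.Agent.H68.TL.Spu
import Pool.Agent.H68.TL.Bfa
import Pool.Agent.H68.TL.Bfb
import Pool.Agent.H68.TL.Unb
import Pool.Agent.H68.TL.StepB
import Pool.Agent.H68.IM.Dec
import Pool.Agent.H78.MG.Fin
import Pool.Agent.H5.SW.L4b
import Pool.Agent.H5.SW.Fin

/-!
# MP_78d38b: fields of `l`-type, the base of the chain
-/

set_option autoImplicit false
set_option linter.style.haveILetI false
open scoped Classical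

open IsDedekindDomain NumberField WithZero Finset Pool.Agent.H10 H5SW H68QS H68IM H78M

namespace H68TL

section sub

variable {l : ℕ} [Fact l.Prime] {K Km B F : Type} [Field K] [NumberField K] [Field Km]
  [NumberField Km] [Field B] [NumberField B] [Field F] [NumberField F] [Algebra K Km]
  [Algebra Km F] [Algebra K F] [IsScalarTower K Km F] [Algebra K B] [Algebra B F]
  [IsScalarTower K B F] {Q : Set (F ≃+* F)}

omit [NumberField B] in
/-- Compatibility of the complex conjugations. -/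
theorem cc_compat {JF : F ≃+* F} (hJF : IsCC JF) {J : B ≃+* B} (hJ : IsCC J) (x : B) :
    JF (algebraMap B F x) = algebraMap B F (J x) := by
  obtain ⟨φ⟩ : Nonempty (F →+* ℂ) := inferInstance
  apply φ.injective
  rw [hJF]
  exact (hJ (φ.comp (algebraMap B F)) x).symm

theorem noNewE_sub (X : SP l K Km B F Q) {JF : F ≃+* F} (hJF : IsCC JF)
    (R : NoNewE l Km F Q JF) {J : B ≃+* B} (hJ : IsCC J) : NoNewE l K B ∅ J := by
  haveI := X.gal
  haveI := X.galB
  intro e he hv ⟨y, hy⟩ _ ⟨z, hz⟩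
  refine pair_K (Km := Km) X.comm X.nl X.mu R X.pair he hv ⟨y, ?_⟩ ?_ ⟨algebraMap B F z, ?_⟩
  · rw [Finset.filter_true, ← hy, Algebra.norm_eq_prod_automorphisms]
  · intro τ hτ
    exact ⟨1, by rw [X.fixQ τ hτ, one_pow, mul_one]⟩
  · rw [cc_compat hJF hJ, ← map_mul, hz, map_pow]

end sub

/-- The fixed primes at the base. -/
theorem fixP_base {p M : ℕ} [Fact p.Prime] [NeZero M] (hp2 : p ≠ 2) {D : ℤ} (hD : D ≠ 0)
    {T : ℕ} (hT : ∀ q : ℕ, q.Prime → q ∣ D.natAbs → q ≠ p → ¬ p ^ (T + 1) ∣ q ^ (p - 1) - 1)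
    {B K' L' K L : Type} [Field B] [NumberField B] [Field K'] [NumberField K'] [Field L']
    [NumberField L'] [Field K] [NumberField K] [Field L] [NumberField L]
    [IsCyclotomicExtension {M} ℚ B] [Algebra K' L'] [Algebra K L] (C : Comp B K' L' K L)
    (hL : IsR p L') {i : ℕ} (hi : Module.finrank K' L' = p ^ i)
    (hN : T + padicValNat p M.totient ≤ padicValNat p (Module.finrank ℚ K')) : FixP D K L := by
  have hpp := (Fact.out : p.Prime)
  haveI hgL : IsGalois ℚ L' := Dec_gal hL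
  haveI hgB : IsGalois ℚ B := IsCyclotomicExtension.isGalois {M} ℚ B
  intro w hw h x
  -- the restriction to `L'`
  letI aL : Algebra L' L := C.h.toAlgebra
  have hm : ∀ z, algebraMap L' L z = C.h z := fun _ => rfl
  let t0 : L' ≃ₐ[ℚ] L' := (h.restrictScalars ℚ).restrictNormal L'
  have ht0 : ∀ z, h (C.h z) = C.h (t0 z) := fun z =>
    (AlgEquiv.restrictNormal_commutes (h.restrictScalars ℚ) L' z).symm
  have htK : ∀ z : K', t0 (algebraMap K' L' z) = algebraMap K' L' z := by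
    intro z
    apply C.h.injective
    rw [← ht0, C.comm, h.commutes]
  let t : L' ≃ₐ[K'] L' := AlgEquiv.ofRingEquiv (f := (t0 : L' ≃+* L')) htK
  have ht : ∀ z, h (C.h z) = C.h (t z) := ht0
  -- the totient
  have hφ0 : M.totient ≠ 0 := (Nat.totient_pos.mpr (Nat.pos_of_ne_zero (NeZero.ne M))).ne'
  obtain ⟨c, hc⟩ : p ^ padicValNat p M.totient ∣ M.totient := pow_padicValNat_dvd
  have hcp : ¬ p ∣ c := by
    rintro ⟨c', rfl⟩
    have h1 : p ^ (padicValNat p M.totient + 1) ∣ M.totient := by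
      refine ⟨c', ?_⟩
      rw [pow_succ, mul_assoc, ← hc]
    rw [padicValNat_dvd_iff_le hφ0] at h1
    omega
  obtain ⟨K'', t2, h1, h2, ⟨j, hj⟩, h4⟩ := exists_root hp2 hL hi (v := padicValNat p M.totient)
    hcp (by omega) t
  refine fix_of_root C (e := M.totient) ?_ ht (t2 := t2) ?_ ?_ x
  · intro g
    have hcard : Nat.card (B ≃ₐ[ℚ] B) = M.totient := by
      rw [IsGalois.card_aut_eq_finrank, IsCyclotomicExtension.finrank B
        (Polynomial.cyclotomic.irreducible_rat (Nat.pos_of_ne_zero (NeZero.ne M)))]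
    rw [← hcard, pow_card_eq_one']
  · intro z
    rw [← h1, ← hc]
  · intro w0 hw0 z
    -- `t2` over `K''`
    let t3 : L' ≃ₐ[K''] L' := AlgEquiv.ofRingEquiv (f := (t2 : L' ≃+* L')) fun y => h2 _ y.2
    have hDw0 : (D : 𝓞 L') ∈ w0.asIdeal := by
      rw [hw0, map_intCast]
      exact hw
    have hbot : w0.asIdeal.under (𝓞 K'') ≠ ⊥ := Ideal.IsIntegral.comap_ne_bot _ w0.ne_bot
    let v0 : HeightOneSpectrum (𝓞 K'') := ⟨w0.asIdeal.under (𝓞 K''), inferInstance, hbot⟩
    have hDv0 : (D : 𝓞 K'') ∈ v0.asIdeal := by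
      change algebraMap (𝓞 K'') (𝓞 L') (D : 𝓞 K'') ∈ w0.asIdeal
      rw [map_intCast]
      exact hDw0
    obtain ⟨q, hq, hqD, hqv⟩ := exists_prime_mem hD v0 hDv0
    obtain ⟨n, M1, F1, _, _, _, _, _, _, _, ⟨Tw1⟩⟩ := exists_tower (p := p) hp2 hL hj
    have hu := unique_tower hp2 Tw1 hq (fun hqp => hT q hq hqD hqp) (by omega) v0 hqv
    obtain ⟨w', hw', hw2⟩ := exists_conj t3 w0
    have e : w' = w0 := by
      apply HeightOneSpectrum.ext
      apply hu _ _ w'.isPrime w0.isPrime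
      · rw [Ideal.map_le_iff_le_comap]
        intro y hy
        exact (hw2 y).mpr hy
      · exact Ideal.map_comap_le
    have h5 := hw' z
    rw [e] at h5
    exact h5

/-- The base of the chain. -/
theorem goodL_base {l p M : ℕ} [Fact l.Prime] [Fact p.Prime] [NeZero M] (hl2 : l ≠ 2)
    (hp2 : p ≠ 2) (hlp : l ≠ p) (hlM : l ∣ M) (hpM : p.Coprime M) (B : Type) [Field B]
    [NumberField B] (hB : IsCyclotomicExtension {M} ℚ B) (D : ℤ) (hD : D ≠ 0) :
    ∃ N : ℕ, ∀ (K' L' K L : Type) [Field K'] [NumberField K'] [Field L']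
      [NumberField L'] [Field K] [NumberField K] [Field L] [NumberField L] [Algebra K' L']
      [Algebra K L], Comp B K' L' K L → IsR p L' → (∃ i : ℕ, Module.finrank K' L' = p ^ i) →
      p ^ N ∣ Module.finrank ℚ K' → GoodL l D K L := by
  obtain ⟨k0, hk0⟩ := exists_level l p M hl2 hp2 hlp hpM
  obtain ⟨T, hT⟩ := exists_val_bound (p := p) (D := D.natAbs) (Int.natAbs_ne_zero.mpr hD)
  refine ⟨k0 + T + padicValNat p M.totient, ?_⟩
  intro K' L' K L _ _ _ _ _ _ _ _ _ _ C hL ⟨i, hi⟩ hN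
  have hv : k0 + T + padicValNat p M.totient ≤ padicValNat p (Module.finrank ℚ K') := by
    rw [← padicValNat_dvd_iff_le (Module.finrank_pos (R := ℚ) (M := K')).ne']
    exact hN
  obtain ⟨n, M', F', _, _, _, _, _, _, _, ⟨Tw⟩⟩ := exists_tower (p := p) hp2 hL hi
  obtain ⟨F, _, _, _, _, _, _, X⟩ := exists_CM (M := M) hp2 hpM Tw
  obtain ⟨Km, _, _, _, _, _, _, _, _, _, S⟩ := exists_sp (l := l) hlp hlM hpM C (Dec_gal hL) hi X
  obtain ⟨JF, hJF, hcc⟩ := exists_JC (M * p ^ (n + 1)) F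
  obtain ⟨HE, HT⟩ := hk0 _ n Tw.rp.hmn (by omega) F
  refine ⟨S.galB, S.nlB, ?_, ?_, ?_⟩
  · intro J hJ
    exact noNewE_sub S hcc (base_E (Km := Km) HE JF hJF) hJ
  · intro J hJ
    exact noUnr_sub hl2 S hcc (noUnr_cyc (Km := Km) hl2 hp2 hlp hlM hpM HT hJF) hJ
  · exact fixP_base (M := M) hp2 hD hT C hL hi (by omega)

end H68TL
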