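import Pool.Agent.H68.TL.Dfm
import Pool.Agent.H68.TL.ExtU

/-!
ROW Big (a common Galois field, and restriction to it).
-/

set_option autoImplicit false
set_option linter.style.haveILetI false
open scoped Classical

open IsDedekindDomain NumberField

namespace H68TL

theorem exists_big {B F N : Type} [Field B] [NumberField B] [Field F] [NumberField F] [Field N]
    [NumberField N] [Algebra B F] [Algebra B N] :
    ∃ (N' : Type) (_ : Field N') (_ : NumberField N') (_ : Algebra F N') (_ : Algebra N N'),
      IsGalois ℚ N' ∧ ∀ x : B, algebraMap F N' (algebraMap B F x) =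
        algebraMap N N' (algebraMap B N x) := by
  haveI : FiniteDimensional B F := Module.Finite.of_restrictScalars_finite ℚ B F
  haveI : Algebra.IsAlgebraic B F := Algebra.IsAlgebraic.of_finite B F
  let φ : F →ₐ[B] AlgebraicClosure N := IsAlgClosed.lift
  let φF : F →ₐ[ℚ] AlgebraicClosure N := (φ : F →+* AlgebraicClosure N).toRatAlgHom
  let φN : N →ₐ[ℚ] AlgebraicClosure N := (algebraMap N (AlgebraicClosure N)).toRatAlgHom
  haveI hnor : Normal ℚ (AlgebraicClosure N) := by
    haveI : Algebra.IsAlgebraic ℚ (AlgebraicClosure N) :=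
      Algebra.IsAlgebraic.trans ℚ N (AlgebraicClosure N)
    haveI : IsAlgClosure ℚ (AlgebraicClosure N) := ⟨inferInstance, inferInstance⟩
    exact IsAlgClosure.normal ℚ (AlgebraicClosure N)
  let E : IntermediateField ℚ (AlgebraicClosure N) :=
    IntermediateField.normalClosure ℚ F (AlgebraicClosure N) ⊔
      IntermediateField.normalClosure ℚ N (AlgebraicClosure N)
  have hF : ∀ x : F, φF x ∈ E := fun x =>
    (le_sup_left : IntermediateField.normalClosure ℚ F (AlgebraicClosure N) ≤ E)
      (φF.fieldRange_le_normalClosure ⟨x, rfl⟩)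
  have hN : ∀ x : N, φN x ∈ E := fun x =>
    (le_sup_right : IntermediateField.normalClosure ℚ N (AlgebraicClosure N) ≤ E)
      (φN.fieldRange_le_normalClosure ⟨x, rfl⟩)
  haveI : Normal ℚ E := IntermediateField.normal_sup ℚ (AlgebraicClosure N) _ _
  haveI : FiniteDimensional ℚ E := IntermediateField.finiteDimensional_sup _ _
  haveI : IsGalois ℚ E := {}
  haveI : CharZero E := inferInstance
  have hNF : NumberField E := by
    refine @NumberField.mk E _ inferInstance ?_
    convert (inferInstance : FiniteDimensional ℚ E)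
  refine ⟨E, inferInstance, hNF, (φF.codRestrict E.toSubalgebra hF).toRingHom.toAlgebra,
    (φN.codRestrict E.toSubalgebra hN).toRingHom.toAlgebra, ?_, ?_⟩
  · convert (inferInstance : IsGalois ℚ E)
  · intro x
    apply Subtype.ext
    change φ (algebraMap B F x) = algebraMap N (AlgebraicClosure N) (algebraMap B N x)
    rw [φ.commutes]
    exact IsScalarTower.algebraMap_apply B N (AlgebraicClosure N) x

section

variable {B F N N' : Type} [Field B] [NumberField B] [Field F] [NumberField F] [Field N]
  [NumberField N] [Field N'] [NumberField N'] [Algebra B F] [Algebra B N] [Algebra F N']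
  [Algebra N N'] [IsGalois ℚ N] [IsGalois ℚ N']

variable (N N') in
theorem exists_res : ∃ ρ : (N' ≃+* N') →* (N ≃+* N), ∀ u, Ext u (ρ u) := by
  let r : (N' ≃+* N') → (N ≃+* N) := fun u =>
    ((RingEquiv.toRatAlgEquiv u : N' ≃ₐ[ℚ] N').restrictNormal N).toRingEquiv
  have hr : ∀ u, Ext u (r u) := fun u x =>
    ((RingEquiv.toRatAlgEquiv u : N' ≃ₐ[ℚ] N').restrictNormal_commutes N x).symm
  exact ⟨MonoidHom.mk' r fun u v => (hr (u * v)).unique ((hr u).mul (hr v)), hr⟩

theorem res_inI {u : N' ≃+* N'} {v : N ≃+* N} (h : Ext u v) {P : Ideal (𝓞 N')} (hI : InI P u) :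
    InI (P.under (𝓞 N)) v := by
  intro x
  obtain ⟨y, hy, h1⟩ := hI (algebraMap (𝓞 N) (𝓞 N') x)
  refine ⟨RingOfIntegers.mapRingEquiv v x - x, ?_, ?_⟩
  · rw [Ideal.mem_comap]
    convert hy using 1
    apply RingOfIntegers.ext
    have h2 : u (algebraMap N N' (x : N)) = algebraMap N N' (x : N) + (y : N') := h1
    rw [h] at h2
    change algebraMap N N' (v (x : N) - (x : N)) = (y : N')
    rw [map_sub, h2, add_sub_cancel_left]
  · change v (x : N) = (x : N) + (v (x : N) - (x : N))
    rw [add_sub_cancel]

theorem res_ext (hc : ∀ x : B, algebraMap F N' (algebraMap B F x) =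
      algebraMap N N' (algebraMap B N x)) {u : N' ≃+* N'} {v : N ≃+* N} (h : Ext u v)
    {g : F ≃+* F} (hg : Ext u g) {g' : B ≃+* B}
    (hgg : ∀ x, g (algebraMap B F x) = algebraMap B F (g' x)) : Ext v g' := by
  intro x
  apply (algebraMap N N').injective
  rw [← h, ← hc, hg, hgg, hc]

theorem res_lift (v : N ≃+* N) : ∃ u : N' ≃+* N', Ext u v := exists_ext v

end

end H68TL
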