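import Pool.Agent.H68.TL.Dfc
import Pool.Agent.H2.T4.HDf

/-!
ROW Brg (from inertia groups to value groups; about 150 lines).  PROOF.
`E = IntermediateField.fixedField a.ker`, a number field, `N/F` and `N/E` are Galois, `E.fixingSubgroup = a.ker` (`IntermediateField.fixingSubgroup_fixedField`). Let `w` be a prime of `F`, `P` a prime of `𝓞 N` above it
(`Ideal.exists_ideal_liesOver_maximal_of_isIntegral` or `w.asIdeal.primesOver` nonempty), `Pr = P.under (𝓞 E)`. Inertia groups: `I_P(N/F) = Ideal.inertia (N ≃ₐ[F] N) P` (`g • x - x ∈ P`) is contained in `a.ker` by `h`, that is every element of it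
fixes `E`; so it has the same number of elements as the inertia group `I_P(N/E)` in `N ≃ₐ[E] N` (bijection by `AlgEquiv.restrictScalars`). `Ideal.card_inertia_eq_ramificationIdxIn` and `Ideal.ramificationIdxIn_eq_ramificationIdx`,
`Ideal.ramificationIdx'_eq_ramificationIdx` (see `Ram_inertia` in `Pool/Agent/H68/TK/Ram.lean`): `e(P/w) = e(P/Pr)`. Multiplicativity `e(P/w) = e(Pr/w) e(P/Pr)` (`Ideal.ramificationIdx_algebra_tower`, or compare valuations:
`HeightOneSpectrum.valuation_liesOver` for `F ⊆ N`, `F ⊆ E`, `E ⊆ N`: `P.valuation (algebraMap F N x) = (w.valuation x)^e(P/w) = (Pr.valuation (algebraMap F E x))^e(P/Pr) = (w.valuation x)^(e(Pr/w) e(P/Pr))`, and take `x` with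
`w.valuation x = exp (-1)`: `w.valuation_exists_uniformizer`). So `e(Pr/w) = 1` and `Pr.valuation E (algebraMap F E x) = w.valuation F x`. `V` = the valuation subring of `Pr.valuation E` (`Valuation.valuationSubring`); for `α ≠ 0` in `E` let
`c ∈ F` with `w.valuation F c = Pr.valuation E α` (`w.valuation_surjective`), `α / c` has valuation one.
-/

set_option autoImplicit false
set_option linter.style.haveILetI false
open scoped Classical

open IsDedekindDomain NumberField

namespace H68TL

theorem Brg_card {F N : Type} [Field F] [NumberField F] [Field N] [NumberField N] [Algebra F N]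
    [IsGalois F N] (w : HeightOneSpectrum (𝓞 F)) (W : HeightOneSpectrum (𝓞 N))
    [W.asIdeal.LiesOver w.asIdeal] :
    Nat.card (W.asIdeal.inertia (N ≃ₐ[F] N)) = w.asIdeal.ramificationIdx' W.asIdeal := by
  have hfin : Finite (𝓞 F ⧸ w.asIdeal) := Ring.HasFiniteQuotients.finiteQuotient w.ne_bot
  have h1 : Nat.card (W.asIdeal.inertia (N ≃ₐ[F] N)) = w.asIdeal.ramificationIdxIn (𝓞 N) :=
    Ideal.card_inertia_eq_ramificationIdxIn (G := N ≃ₐ[F] N) w.asIdeal W.asIdeal
  rw [Ideal.ramificationIdxIn_eq_ramificationIdx w.asIdeal W.asIdeal (N ≃ₐ[F] N),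
    ← Ideal.ramificationIdx'_eq_ramificationIdx w.asIdeal W.asIdeal w.ne_bot] at h1
  exact h1

theorem unrV_of_inertia {l : ℕ} [Fact l.Prime] {F N : Type} [Field F] [NumberField F] [Field N]
    [NumberField N] [Algebra F N] [IsGalois ℚ N] (a : (N ≃ₐ[F] N) →* Multiplicative (ZMod l))
    (h : ∀ P : Ideal (𝓞 N), P.IsPrime → P ≠ ⊥ → ∀ u : N ≃ₐ[F] N, InI P (u : N ≃+* N) →
      a u = 1) : H2T4.UnrV F (IntermediateField.fixedField a.ker) := by
  have hG : IsGalois F N := IsGalois.tower_top_of_isGalois ℚ F N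
  obtain ⟨E, hE⟩ : ∃ E : IntermediateField F N, E = IntermediateField.fixedField a.ker := ⟨_, rfl⟩
  rw [← hE]
  have hfix : ∀ u : N ≃ₐ[F] N, a u = 1 → ∀ x : E, u (x : N) = x := by
    intro u hu x
    have hx : (x : N) ∈ IntermediateField.fixedField a.ker := by rw [← hE]; exact x.2
    rw [IntermediateField.mem_fixedField_iff] at hx
    exact hx u (MonoidHom.mem_ker.2 hu)
  intro w
  obtain ⟨P, hPm, hPl⟩ : ∃ P : Ideal (𝓞 N), P.IsMaximal ∧ P.LiesOver w.asIdeal := by
    have hwm : w.asIdeal.IsMaximal := w.isPrime.isMaximal w.ne_bot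
    exact Ideal.exists_maximal_ideal_liesOver_of_isIntegral w.asIdeal
  have hPb : P ≠ ⊥ := Ideal.ne_bot_of_liesOver_of_ne_bot w.ne_bot P
  let W : HeightOneSpectrum (𝓞 N) := ⟨P, hPm.isPrime, hPb⟩
  have hWl : W.asIdeal.LiesOver w.asIdeal := hPl
  have hPrl : (P.under (𝓞 E)).LiesOver w.asIdeal := inferInstance
  have hPrb : P.under (𝓞 E) ≠ ⊥ := Ideal.ne_bot_of_liesOver_of_ne_bot w.ne_bot (P.under (𝓞 E))
  have hPrp : (P.under (𝓞 E)).IsPrime := by
    have := hPm.isPrime
    infer_instance
  let U : HeightOneSpectrum (𝓞 E) := ⟨P.under (𝓞 E), hPrp, hPrb⟩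
  have hUl : U.asIdeal.LiesOver w.asIdeal := hPrl
  have hWU : W.asIdeal.LiesOver U.asIdeal := Ideal.over_under (P := P)
  have hcard : Nat.card (W.asIdeal.inertia (N ≃ₐ[F] N)) = Nat.card (W.asIdeal.inertia (N ≃ₐ[E] N)) := by
    symm
    have hmap : ∀ u : N ≃ₐ[E] N, u ∈ W.asIdeal.inertia (N ≃ₐ[E] N) →
        u.restrictScalars F ∈ W.asIdeal.inertia (N ≃ₐ[F] N) := by
      intro u hu x
      exact hu x
    refine Nat.card_congr (Equiv.ofBijective
      (fun u => (⟨(u : N ≃ₐ[E] N).restrictScalars F, hmap u u.2⟩ :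
        W.asIdeal.inertia (N ≃ₐ[F] N))) ⟨?_, ?_⟩)
    · intro u v huv
      apply Subtype.ext
      refine AlgEquiv.ext fun x => ?_
      exact congrArg (fun t : W.asIdeal.inertia (N ≃ₐ[F] N) => (t : N ≃ₐ[F] N) x) huv
    · rintro ⟨u, hu⟩
      have h1 : a u = 1 := by
        refine h P hPm.isPrime hPb u fun x => ?_
        refine ⟨u • x - x, hu x, ?_⟩
        have h2 : algebraMap (𝓞 N) N (u • x - x) = u (algebraMap (𝓞 N) N x) -
            algebraMap (𝓞 N) N x := by
          rw [map_sub]
          rfl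
        change u (algebraMap (𝓞 N) N x) = algebraMap (𝓞 N) N x + algebraMap (𝓞 N) N (u • x - x)
        rw [h2]
        ring
      refine ⟨⟨{ u with commutes' := fun x => hfix u h1 x }, fun x => hu x⟩, ?_⟩
      apply Subtype.ext
      exact AlgEquiv.ext fun x => rfl
  rw [Brg_card w W, Brg_card U W] at hcard
  have hval : ∀ x : F, U.valuation E (algebraMap F E x) = w.valuation F x := by
    intro x
    have h1 := HeightOneSpectrum.valuation_liesOver (K := F) N w W x
    have h2 := HeightOneSpectrum.valuation_liesOver (K := E) N U W (algebraMap F E x)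
    rw [← IsScalarTower.algebraMap_apply F E N, ← h1, hcard] at h2
    have h3 : U.asIdeal.ramificationIdx' W.asIdeal ≠ 0 :=
      Ideal.IsDedekindDomain.ramificationIdx'_ne_zero_of_liesOver W.asIdeal U.ne_bot
    exact (pow_left_inj₀ zero_le zero_le h3).1 h2
  refine ⟨(U.valuation E).valuationSubring, fun x => ?_, fun α hα => ?_⟩
  · rw [Valuation.mem_valuationSubring_iff, hval]
  · obtain ⟨c, hc⟩ := w.valuation_surjective F (U.valuation E α)
    have hα' : U.valuation E α ≠ 0 := (Valuation.ne_zero_iff _).2 hα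
    have hc0 : c ≠ 0 := by
      intro h0
      rw [h0, map_zero] at hc
      exact hα' hc.symm
    have h4 : U.valuation E (α / algebraMap F E c) = 1 := by
      rw [map_div₀, hval, hc, div_self hα']
    refine ⟨c, hc0, ?_, ?_⟩
    · rw [Valuation.mem_valuationSubring_iff, h4]
    · rw [Valuation.mem_valuationSubring_iff, map_inv₀, h4, inv_one]

end H68TL
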