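import Pool.Agent.H68.TL.Dfm
import Pool.Agent.H55.T3.Ct

/-!
ROW Ctm (the layers of `R_p` in the cyclotomic field of conductor `M p^(n+1)`; about 200 lines).  PROOF.
ADAPT `Pool/Agent/H55/T3/Ct.lean` (there `M = 3`: `Ct_pow_mod`, `Ct_val`, `Ct_eta`, `Ct_key`, `Ct_crt`, `exists_C`): replace `3` by `M` (`p` prime to `M`: `p.Coprime M` replaces `p ≠ 3`), `kap p n C g` by `H78M.kp (M * p ^ (n+1)) g`
(the same `IsCyclotomicExtension.Rat.galEquivZMod`), `Dvd.intro_left 3 rfl` by `dvd_mul_left (p ^ (n+1)) M`, `H55T3.InH` by `H78M.InH` (the same formula), `CTw` by `CTm`.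
-/

set_option autoImplicit false
open scoped Classical

open IsDedekindDomain NumberField H5SW H68QS H78M

namespace H68TL

theorem Ctm_pow_mod {C : Type} [Field C] {η : C} {N : ℕ} (h : η ^ N = 1) (a : ℕ) : η ^ (a % N) = η ^ a := by
  conv_rhs => rw [← Nat.mod_add_div a N, pow_add, pow_mul, h, one_pow, mul_one]

theorem Ctm_val {p n M : ℕ} [Fact p.Prime] [NeZero M] (x : (ZMod (M * p ^ (n + 1)))ˣ) :
    ((ZMod.unitsMap (dvd_mul_left (p ^ (n + 1)) M) x : (ZMod (p ^ (n + 1)))ˣ) :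
      ZMod (p ^ (n + 1))).val = (x : ZMod (M * p ^ (n + 1))).val % p ^ (n + 1) := by
  rw [ZMod.unitsMap_val, ZMod.cast_eq_val, ZMod.val_natCast]

theorem Ctm_eta {p n M : ℕ} [Fact p.Prime] [NeZero M] (hp2 : p ≠ 2) {F C : Type} [Field F] [NumberField F] [Field C]
    [NumberField C] [IsCyclotomicExtension {M * p ^ (n + 1)} ℚ C] (r : RC (p ^ (n + 1)) F) (φ : F →+* C) :
    ∃ η : C, η ^ (p ^ (n + 1)) = 1 ∧
      ∀ a : ZMod (p ^ (n + 1)), φ (r.c a : F) = η ^ a.val + (η ^ a.val)⁻¹ := by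
  have hp : p.Prime := Fact.out
  have hpos : 0 < p ^ (n + 1) := pow_pos hp.pos _
  obtain ⟨z, hz, hza⟩ := psi hp2 r (k := AlgebraicClosure C)
    (by exact_mod_cast hp.ne_zero)
    ((algebraMap C (AlgebraicClosure C)).comp (φ.comp (algebraMap (𝓞 F) F)))
  have hw := IsCyclotomicExtension.zeta_spec (M * p ^ (n + 1)) ℚ C
  have hwM : IsPrimitiveRoot (IsCyclotomicExtension.zeta (M * p ^ (n + 1)) ℚ C ^ M) (p ^ (n + 1)) :=
    hw.pow (Nat.pos_of_neZero _) rfl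
  have hwk := hwM.map_of_injective (algebraMap C (AlgebraicClosure C)).injective
  haveI : NeZero (p ^ (n + 1)) := ⟨hpos.ne'⟩
  obtain ⟨i, -, hi⟩ := hwk.eq_pow_of_pow_eq_one hz.pow_eq_one
  refine ⟨(IsCyclotomicExtension.zeta (M * p ^ (n + 1)) ℚ C ^ M) ^ i, ?_, ?_⟩
  · rw [pow_right_comm, hwM.pow_eq_one, one_pow]
  · intro a
    apply (algebraMap C (AlgebraicClosure C)).injective
    have h1 := hza a
    rw [← hi] at h1
    rw [map_add, map_inv₀, map_pow, map_pow]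
    exact h1

theorem Ctm_key {p n M : ℕ} [Fact p.Prime] [NeZero M] (hp2 : p ≠ 2) {F C : Type} [Field F] [NumberField F] [Field C]
    [NumberField C] [IsCyclotomicExtension {M * p ^ (n + 1)} ℚ C] (r : RC (p ^ (n + 1)) F) (φ : F →+* C)
    (g : C ≃ₐ[ℚ] C) (y : F) :
    g (φ y) = φ (r.σ (ZMod.unitsMap (dvd_mul_left (p ^ (n + 1)) M) (kp (M * p ^ (n + 1)) g)) y) := by
  have hp : p.Prime := Fact.out
  have hpos : 0 < p ^ (n + 1) := pow_pos hp.pos _
  obtain ⟨η, hη, hc⟩ := Ctm_eta (M := M) hp2 r φ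
  obtain ⟨u, hu⟩ : ∃ u : (ZMod (p ^ (n + 1)))ˣ, u = ZMod.unitsMap (dvd_mul_left (p ^ (n + 1)) M) (kp (M * p ^ (n + 1)) g) := ⟨_, rfl⟩
  have hgη : g η = η ^ (u : ZMod (p ^ (n + 1))).val := by
    have h1 : η ^ (M * p ^ (n + 1)) = 1 := by rw [mul_comm, pow_mul, hη, one_pow]
    have h2 := IsCyclotomicExtension.Rat.galEquivZMod_apply_of_pow_eq (M * p ^ (n + 1)) C g h1
    rw [h2, hu, Ctm_val, Ctm_pow_mod hη]
  have hgc : ∀ a : ZMod (p ^ (n + 1)), g (φ (r.c a : F)) = φ (r.c (u * a) : F) := by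
    intro a
    rw [hc, hc, map_add, map_inv₀, map_pow, hgη, ← pow_mul, ZMod.val_mul, Ctm_pow_mod hη]
  rw [← hu]
  letI : Algebra F C := φ.toAlgebra
  haveI : IsGalois ℚ F := r.gal
  have hr : ∀ y : F, φ (g.restrictNormal F y) = g (φ y) := fun y => AlgEquiv.restrictNormal_commutes g F y
  have h1 : r.σ (r.u (g.restrictNormal F)) = r.σ u := by
    have h2 := hr (r.c 1 : F)
    rw [hgc, r.apply_c, mul_one, mul_one] at h2
    have h3 := r.c_inj (RingOfIntegers.coe_injective (φ.injective h2))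
    rcases h3 with h3 | h3
    · rw [Units.ext h3]
    · rw [← Units.val_neg] at h3
      rw [Units.ext h3, r.σ_neg]
  rw [r.σ_u] at h1
  rw [← hr y, h1]

theorem Ctm_crt {p m n M : ℕ} [Fact p.Prime] [NeZero M] (hpM : p.Coprime M) (hmn : m ≤ n) (u : (ZMod (p ^ (n + 1)))ˣ)
    (hu : ZMod.unitsMap (pow_dvd_pow p (Nat.succ_le_succ hmn)) u = 1) :
    ∃ k : (ZMod (M * p ^ (n + 1)))ˣ,
      ZMod.unitsMap (dvd_mul_left (p ^ (n + 1)) M) k = u ∧
      ZMod.unitsMap (Nat.mul_dvd_mul_left M (pow_dvd_pow p (Nat.succ_le_succ hmn))) k =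
        (1 : (ZMod (M * p ^ (m + 1)))ˣ) := by
  have hp : p.Prime := Fact.out
  have hcop0 : Nat.Coprime M p := hpM.symm
  have hcop : Nat.Coprime M (p ^ (n + 1)) := hcop0.pow_right _
  have hcopm : Nat.Coprime M (p ^ (m + 1)) := hcop0.pow_right _
  haveI hn0 : NeZero (p ^ (n + 1)) := ⟨(pow_pos hp.pos _).ne'⟩
  haveI hm0 : NeZero (p ^ (m + 1)) := ⟨(pow_pos hp.pos _).ne'⟩
  obtain ⟨N, hN3, hNp⟩ := Nat.chineseRemainder hcop 1 (u : ZMod (p ^ (n + 1))).val
  have hNu : (N : ZMod (p ^ (n + 1))) = u := by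
    rw [← ZMod.natCast_zmod_val (u : ZMod (p ^ (n + 1)))]
    exact (ZMod.natCast_eq_natCast_iff _ _ _).2 hNp
  have hNc3 : Nat.Coprime N M := by
    have h1 : Nat.gcd N M = Nat.gcd 1 M := hN3.gcd_eq
    rw [Nat.coprime_iff_gcd_eq_one, h1]
    exact Nat.gcd_one_left M
  have hNcp : Nat.Coprime N (p ^ (n + 1)) := by
    rw [← ZMod.isUnit_iff_coprime, hNu]
    exact u.isUnit
  have hNc : Nat.Coprime N (M * p ^ (n + 1)) := Nat.Coprime.mul_right hNc3 hNcp
  have hcast : ∀ {d : ℕ} (hd : d ∣ M * p ^ (n + 1)),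
      ((ZMod.unitsMap hd (ZMod.unitOfCoprime N hNc) : (ZMod d)ˣ) : ZMod d) = (N : ZMod d) := by
    intro d hd
    rw [ZMod.unitsMap_def, Units.coe_map, MonoidHom.coe_coe, ZMod.coe_unitOfCoprime, map_natCast]
  refine ⟨ZMod.unitOfCoprime N hNc, ?_, ?_⟩
  · apply Units.ext
    rw [hcast, hNu]
  · apply Units.ext
    rw [hcast, Units.val_one, ← Nat.cast_one, ZMod.natCast_eq_natCast_iff]
    rw [← Nat.modEq_and_modEq_iff_modEq_mul hcopm]
    refine ⟨hN3, ?_⟩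
    rw [← ZMod.natCast_eq_natCast_iff, Nat.cast_one]
    have h1 := congrArg (fun w : (ZMod (p ^ (m + 1)))ˣ => (w : ZMod (p ^ (m + 1)))) hu
    simp only [Units.val_one] at h1
    rw [ZMod.unitsMap_def, Units.coe_map, MonoidHom.coe_coe, ← hNu, map_natCast] at h1
    exact h1

theorem exists_CM {p M m n : ℕ} [Fact p.Prime] [NeZero M] (hp2 : p ≠ 2) (hpM : p.Coprime M)
    {K' L' M' F' : Type} [Field K'] [NumberField K'] [Field L'] [NumberField L']
    [Field M'] [NumberField M'] [Field F'] [NumberField F'] [Algebra K' L'] [Algebra M' F']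
    [Algebra K' M'] [Algebra L' F'] (T : Tw p m n K' L' M' F') :
    ∃ (F : Type) (_ : Field F) (_ : NumberField F)
      (_ : IsCyclotomicExtension {M * p ^ (n + 1)} ℚ F)
      (_ : Algebra L' F) (_ : Algebra K' F) (_ : IsScalarTower K' L' F),
      CTm p M m n T.rp.hmn K' L' F := by
  have hpp : p.Prime := Fact.out
  have hpos : 0 < p ^ (n + 1) := pow_pos hpp.pos _
  haveI hn0 : NeZero (p ^ (n + 1)) := ⟨hpos.ne'⟩
  haveI hcyc : IsCyclotomicExtension {M * p ^ (n + 1)} ℚ (CyclotomicField (M * p ^ (n + 1)) ℚ) :=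
    Ex3_inst (M * p ^ (n + 1))
  haveI hcyc1 : IsCyclotomicExtension {p ^ (n + 1)} ℚ (CyclotomicField (p ^ (n + 1)) ℚ) :=
    Ex3_inst (p ^ (n + 1))
  -- the embedding of `F`
  obtain ⟨ι⟩ : Nonempty (CyclotomicField (p ^ (n + 1)) ℚ →+* CyclotomicField (M * p ^ (n + 1)) ℚ) := by
    have hz := IsCyclotomicExtension.zeta_spec (p ^ (n + 1)) ℚ (CyclotomicField (p ^ (n + 1)) ℚ)
    have hw := IsCyclotomicExtension.zeta_spec (M * p ^ (n + 1)) ℚ (CyclotomicField (M * p ^ (n + 1)) ℚ)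
    have hw2 : IsPrimitiveRoot (IsCyclotomicExtension.zeta (M * p ^ (n + 1)) ℚ
        (CyclotomicField (M * p ^ (n + 1)) ℚ) ^ M) (p ^ (n + 1)) := hw.pow (Nat.pos_of_neZero _) rfl
    have hirr := Polynomial.cyclotomic.irreducible_rat hpos
    have hmin := hz.minpoly_eq_cyclotomic_of_irreducible hirr
    refine ⟨((hz.powerBasis ℚ).lift _ (?_ : Polynomial.aeval
      (IsCyclotomicExtension.zeta (M * p ^ (n + 1)) ℚ (CyclotomicField (M * p ^ (n + 1)) ℚ) ^ M)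
      (minpoly ℚ (hz.powerBasis ℚ).gen) = 0)).toRingHom⟩
    rw [IsPrimitiveRoot.powerBasis_gen, ← hmin, Polynomial.aeval_def, Polynomial.eval₂_eq_eval_map,
      Polynomial.map_cyclotomic]
    exact hw2.isRoot_cyclotomic hpos
  obtain ⟨e⟩ := T.rp.rL.emb
  obtain ⟨φ, hφ⟩ : ∃ φ : F' →+* CyclotomicField (M * p ^ (n + 1)) ℚ, φ = ι.comp e := ⟨_, rfl⟩
  letI aL : Algebra L' (CyclotomicField (M * p ^ (n + 1)) ℚ) := (φ.comp (algebraMap L' F')).toAlgebra
  letI aK : Algebra K' (CyclotomicField (M * p ^ (n + 1)) ℚ) :=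
    ((φ.comp (algebraMap L' F')).comp (algebraMap K' L')).toAlgebra
  haveI tow : IsScalarTower K' L' (CyclotomicField (M * p ^ (n + 1)) ℚ) :=
    IsScalarTower.of_algebraMap_eq (fun _ => rfl)
  have key := fun (g : CyclotomicField (M * p ^ (n + 1)) ℚ ≃ₐ[ℚ] CyclotomicField (M * p ^ (n + 1)) ℚ) (y : F') =>
    Ctm_key (M := M) hp2 T.rp.rL φ g y
  refine ⟨CyclotomicField (M * p ^ (n + 1)) ℚ, inferInstance, inferInstance, hcyc, aL, aK, tow, ⟨?_, ?_, ?_⟩⟩
  · intro g hg x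
    have h1 : T.rp.rL.σ (ZMod.unitsMap (dvd_mul_left (p ^ (n + 1)) M)
        (kp (M * p ^ (n + 1)) g)) = 1 := (T.rp.rL.ker _).2 hg
    have h2 := key g (algebraMap L' F' x)
    rw [h1] at h2
    exact h2
  · intro g hg x
    have h1 : ZMod.unitsMap (pow_dvd_pow p (Nat.succ_le_succ T.rp.hmn))
        (ZMod.unitsMap (dvd_mul_left (p ^ (n + 1)) M) (kp (M * p ^ (n + 1)) g)) = 1 := by
      have h2 : ZMod.unitsMap (dvd_mul_left (p ^ (m + 1)) M)
          (ZMod.unitsMap (Nat.mul_dvd_mul_left M (pow_dvd_pow p (Nat.succ_le_succ T.rp.hmn)))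
            (kp (M * p ^ (n + 1)) g)) = 1 := by
        unfold InH at hg
        rw [hg, map_one]
      rw [← MonoidHom.comp_apply, ZMod.unitsMap_comp] at h2 ⊢
      exact h2
    obtain ⟨h, hh⟩ := (T.rp.mem_iff hp2 _).2 ⟨_, h1, rfl⟩
    have h2 := key g (algebraMap L' F' (algebraMap K' L' x))
    rw [← T.comm, ← hh] at h2
    have h3 : (h.restrictScalars ℚ) (algebraMap M' F' (algebraMap K' M' x)) = algebraMap M' F' (algebraMap K' M' x) :=
      h.commutes _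
    rw [h3, T.comm] at h2
    exact h2
  · intro t
    haveI : IsGalois ℚ F' := T.rp.rL.gal
    haveI : IsAbelianGalois ℚ F' := { is_comm.comm x y := T.rp.rL.gal_comm x y }
    haveI : IsAbelianGalois ℚ L' := IsAbelianGalois.tower_bot ℚ L' F'
    haveI : IsGalois ℚ L' := IsAbelianGalois.toIsGalois
    have hg0 : ∀ y : L', ((t.restrictScalars ℚ).liftNormal F') (algebraMap L' F' y) = algebraMap L' F' (t y) :=
      fun y => AlgEquiv.liftNormal_commutes (t.restrictScalars ℚ) F' y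
    obtain ⟨a, b, hab, ha, hb⟩ := T.gal_split ((t.restrictScalars ℚ).liftNormal F') (by
      intro x
      rw [hg0, t.commutes])
    have hbr : ∀ y : L', algebraMap L' F' (b.restrictNormal L' y) = b (algebraMap L' F' y) :=
      fun y => AlgEquiv.restrictNormal_commutes b L' y
    have hbt : ∀ y : L', b (algebraMap L' F' y) = algebraMap L' F' (t y) := by
      intro y
      rw [← hg0, hab, AlgEquiv.mul_apply, ← hbr, ha]
    obtain ⟨u, hu, hub⟩ := (T.rp.mem_iff hp2 b).1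
      ⟨AlgEquiv.ofRingEquiv (f := b.toRingEquiv) (fun x => hb x), by ext x; rfl⟩
    obtain ⟨k, hk1, hk2⟩ := Ctm_crt hpM T.rp.hmn u hu
    obtain ⟨g, hg⟩ : ∃ g : CyclotomicField (M * p ^ (n + 1)) ℚ ≃ₐ[ℚ] CyclotomicField (M * p ^ (n + 1)) ℚ,
        kp (M * p ^ (n + 1)) g = k :=
      ⟨(IsCyclotomicExtension.Rat.galEquivZMod (M * p ^ (n + 1)) (CyclotomicField (M * p ^ (n + 1)) ℚ)).symm k,
        MulEquiv.apply_symm_apply _ _⟩
    refine ⟨g, ?_, ?_⟩
    · unfold InH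
      rw [hg]
      exact hk2
    · intro x
      have h2 := key g (algebraMap L' F' x)
      rw [hg, hk1, hub, hbt] at h2
      exact h2

end H68TL
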