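import Pool.Agent.H68.TL.Df

/-!
ROW Cyl (cyclic extensions of prime degree; about 120 lines).  PROOF.
Compare `Pool/Agent/H68/TK/Cyc.lean` (the case `l = 3`).
`exists_sigma`, `sigma_pow`, `sigma_fix`: the group has prime order `l`: every `σ ≠ 1` generates it (`mem_zpowers_of_prime_card`).
`norm_eq`: `Algebra.norm_eq_prod_automorphisms`, and the group consists of the `σ ^ i`, `i < l`, pairwise different (`orderOf σ = l`): reindex (`Finset.prod_bij`/`IsCyclic.image_range_orderOf`).
`hilbert`: Hilbert 90 for the cyclic group: Mathlib has it for finite Galois extensions (`groupCohomology.isMulCoboundary₁_of_isMulCocycle₁_of_aut_to_units` and, for cyclic extensions of degree given by a generator,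
`exists_div_of_norm_eq_one`-type statement in `Mathlib/RepresentationTheory/Homological/GroupCohomology/Hilbert90.lean`; also `Mathlib/FieldTheory/Galois/...`), or directly: with `a_i = ∏_{j<i} σ^j c` the map
`x ↦ ∑_{i<l} a_i σ^i x` is not zero (independence of characters, `linearIndependent_monoidHom`), and `c * σ (e') = e'` for a value `e' ≠ 0` (as `a_l = norm = 1` and `σ^l = 1`); take `e = e'⁻¹`.
-/

set_option autoImplicit false

open NumberField Finset

namespace H68TL

variable {M M2 : Type} [Field M] [Field M2] [Algebra M M2] [FiniteDimensional M M2]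
  [IsGalois M M2] {l : ℕ} [Fact l.Prime]

theorem exists_sigma (h : Module.finrank M M2 = l) : ∃ σ : M2 ≃ₐ[M] M2, σ ≠ 1 := by
  have hl : l.Prime := Fact.out
  have h1 : Nat.card (M2 ≃ₐ[M] M2) = l := by rw [IsGalois.card_aut_eq_finrank, h]
  by_contra hcon
  push Not at hcon
  have : Subsingleton (M2 ≃ₐ[M] M2) := ⟨fun a b => by rw [hcon a, hcon b]⟩
  have h2 := Nat.card_of_subsingleton (1 : M2 ≃ₐ[M] M2)
  have h3 := hl.one_lt
  omega

theorem sigma_pow (h : Module.finrank M M2 = l) (σ : M2 ≃ₐ[M] M2) : σ ^ l = 1 := by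
  have h1 : Nat.card (M2 ≃ₐ[M] M2) = l := by rw [IsGalois.card_aut_eq_finrank, h]
  rw [← h1]
  exact pow_card_eq_one'

theorem sigma_fix (h : Module.finrank M M2 = l) {σ : M2 ≃ₐ[M] M2} (hσ : σ ≠ 1)
    {x : M2} (hx : σ x = x) : ∃ y : M, algebraMap M M2 y = x := by
  have h1 : Nat.card (M2 ≃ₐ[M] M2) = l := by rw [IsGalois.card_aut_eq_finrank, h]
  rw [← Set.mem_range, IsGalois.mem_range_algebraMap_iff_fixed]
  intro τ
  have h2 : τ ∈ Subgroup.zpowers σ := mem_zpowers_of_prime_card h1 hσ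
  have h3 : Subgroup.zpowers σ ≤ MulAction.stabilizer (M2 ≃ₐ[M] M2) x := by
    rw [Subgroup.zpowers_le]
    exact hx
  exact h3 h2

theorem norm_sigma (σ : M2 ≃ₐ[M] M2) (x : M2) : Algebra.norm M (σ x) = Algebra.norm M x :=
  Algebra.norm_eq_of_algEquiv σ x

theorem hilbert (h : Module.finrank M M2 = l) {σ : M2 ≃ₐ[M] M2} (h1 : σ ≠ 1) {c : M2}
    (hc : Algebra.norm M c = 1) : ∃ e : M2, e ≠ 0 ∧ c * e = σ e := by
  have h2 : Nat.card (M2 ≃ₐ[M] M2) = l := by rw [IsGalois.card_aut_eq_finrank, h]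
  have : IsCyclic (M2 ≃ₐ[M] M2) := isCyclic_of_prime_card h2
  obtain ⟨y, hy⟩ := groupCohomology.exists_div_of_norm_eq_one
    (fun τ => mem_zpowers_of_prime_card (g := σ) (g' := τ) h2 h1) hc
  have hy0 : (y : M2) ≠ 0 := y.ne_zero
  have hy1 : σ (y : M2) ≠ 0 := by
    rw [Ne, map_eq_zero_iff σ σ.injective]
    exact hy0
  refine ⟨(y : M2)⁻¹, inv_ne_zero hy0, ?_⟩
  rw [map_inv₀, ← hy]
  field_simp

end H68TL
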