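import Pool.Agent.H68.TL.Df

/-!
# MP_78d38b: unramified characters of order `l`, definitions

All fields `F` are embedded in a number field `N`, Galois over the rationals; the group is the finite
group `N ≃+* N` of all automorphisms of `N`, and the characters are functions on this group of which
only the values at the automorphisms fixing `F` matter.
-/

set_option autoImplicit false
open scoped Classical

open IsDedekindDomain NumberField

namespace H68TL

/-- `u` fixes the image of `F`. -/
def Fx (F : Type) {N : Type} [Field F] [Field N] [Algebra F N] (u : N ≃+* N) : Prop :=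
  ∀ x : F, u (algebraMap F N x) = algebraMap F N x

/-- `t` extends the automorphism `g` of `F`. -/
def Ext {F N : Type} [Field F] [Field N] [Algebra F N] (t : N ≃+* N) (g : F ≃+* F) : Prop :=
  ∀ x : F, t (algebraMap F N x) = algebraMap F N (g x)

/-- `u` is in the inertia group of the prime ideal `P`. -/
def InI {N : Type} [Field N] (P : Ideal (𝓞 N)) (u : N ≃+* N) : Prop :=
  ∀ x : 𝓞 N, ∃ y ∈ P, u (x : N) = x + y

/-- `a` is a character with values in `ℤ / l` of the group of the automorphisms of `N` fixing `F`,
unramified at all primes. -/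
structure UnrC (l : ℕ) (F : Type) {N : Type} [Field F] [Field N] [Algebra F N]
    (a : (N ≃+* N) → ZMod l) : Prop where
  mul : ∀ u v, Fx F u → Fx F v → a (u * v) = a u + a v
  unr : ∀ P : Ideal (𝓞 N), P.IsPrime → P ≠ ⊥ → ∀ u, Fx F u → InI P u → a u = 0

/-- An unramified character `a` of order `l` over `F` with `a^J = -a` whose norm to `K` is trivial
is trivial. -/
def NoUnr (l : ℕ) (K F : Type) [Field K] [NumberField K] [Field F] [NumberField F] [Algebra K F]
    (J : F ≃+* F) : Prop :=
  ∀ (N : Type) [Field N] [NumberField N] [Algebra F N] [IsGalois ℚ N] (a : (N ≃+* N) → ZMod l),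
    UnrC l F a →
    (∀ t : N ≃+* N, Ext t J → ∀ u, Fx F u → a (t * u * t⁻¹) = -a u) →
    (∀ r : (F ≃ₐ[K] F) → (N ≃+* N), (∀ h, Ext (r h) (h : F ≃+* F)) → ∀ u, Fx F u →
      ∑ h, a (r h * u * (r h)⁻¹) = 0) →
    ∀ u, Fx F u → a u = 0

end H68TL
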