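import Pool.Agent.H68.TL.Dfl
import Pool.Agent.H78.MG.Pd
import Pool.Agent.H78.MG.Pb

/-!
# MP_78d38b: the base of the chain, definitions
-/

set_option autoImplicit false
open scoped Classical

open IsDedekindDomain NumberField H5SW H68QS H78M

namespace H68TL

/-- `NoUnr` with the additional condition that `a` is invariant under the elements of `Q`. -/
def NoUnrP (l : ℕ) (K F : Type) [Field K] [NumberField K] [Field F] [NumberField F] [Algebra K F]
    (Q : Set (F ≃+* F)) (J : F ≃+* F) : Prop :=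
  ∀ (N : Type) [Field N] [NumberField N] [Algebra F N] [IsGalois ℚ N] (a : (N ≃+* N) → ZMod l),
    UnrC l F a →
    (∀ t : N ≃+* N, Ext t J → ∀ u, Fx F u → a (t * u * t⁻¹) = -a u) →
    (∀ r : (F ≃ₐ[K] F) → (N ≃+* N), (∀ h, Ext (r h) (h : F ≃+* F)) → ∀ u, Fx F u →
      ∑ h, a (r h * u * (r h)⁻¹) = 0) →
    (∀ τ ∈ Q, ∀ t : N ≃+* N, Ext t τ → ∀ u, Fx F u → a (t * u * t⁻¹) = a u) →
    ∀ u, Fx F u → a u = 0

/-- The set of the automorphisms `τ` which are `1` modulo `M` and `-1` modulo `p^(n+1)`. -/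
def QTau (p M n : ℕ) [Fact p.Prime] [NeZero M] (F : Type) [Field F] [NumberField F]
    [IsCyclotomicExtension {M * p ^ (n + 1)} ℚ F] : Set (F ≃+* F) :=
  {τ | ∃ g : F ≃ₐ[ℚ] F, IsTau p M n g ∧ (g : F ≃+* F) = τ}

/-- The layer `L' / K'` of real subfields inside the cyclotomic field `F` of conductor
`M * p ^ (n + 1)`. -/
structure CTm (p M m n : ℕ) [Fact p.Prime] [NeZero M] (hmn : m ≤ n) (K' L' F : Type) [Field K']
    [NumberField K'] [Field L'] [NumberField L'] [Field F] [NumberField F] [Algebra K' L']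
    [Algebra L' F] [Algebra K' F] [IsCyclotomicExtension {M * p ^ (n + 1)} ℚ F] : Prop where
  fixL : ∀ g : F ≃ₐ[ℚ] F,
    (ZMod.unitsMap (dvd_mul_left (p ^ (n + 1)) M) (kp (M * p ^ (n + 1)) g) = 1 ∨
      ZMod.unitsMap (dvd_mul_left (p ^ (n + 1)) M) (kp (M * p ^ (n + 1)) g) = -1) →
    ∀ x : L', g (algebraMap L' F x) = algebraMap L' F x
  fixK : ∀ g : F ≃ₐ[ℚ] F, InH p M m n hmn g → ∀ x : K', g (algebraMap K' F x) = algebraMap K' F x
  cov : ∀ t : L' ≃ₐ[K'] L', ∃ g : F ≃ₐ[ℚ] F, InH p M m n hmn g ∧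
    ∀ x : L', g (algebraMap L' F x) = algebraMap L' F (t x)

/-- The pair `B / K` inside the pair `F / Km`, everything abelian over `K`. -/
structure SP (l : ℕ) (K Km B F : Type) [Field K] [NumberField K] [Field Km] [NumberField Km]
    [Field B] [NumberField B] [Field F] [NumberField F] [Algebra K Km] [Algebra Km F]
    [Algebra K F] [Algebra K B] [Algebra B F] (Q : Set (F ≃+* F)) : Prop where
  gal : IsGalois K F
  galB : IsGalois K B
  comm : ∀ g h : F ≃ₐ[K] F, g * h = h * g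
  nl : ¬ l ∣ Module.finrank Km F
  nlB : ¬ l ∣ Module.finrank K B
  mu : ∀ z : F, z ^ l = 1 → ∃ y : Km, algebraMap Km F y = z
  pair : PairK K Km B F (fun _ => True)
  fixQ : ∀ τ ∈ Q, ∀ x : B, τ (algebraMap B F x) = algebraMap B F x

end H68TL
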