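import Pool.Agent.H68.TL.Ccl
import Pool.Agent.H68.TK.Idx3

/-!
ROW Idl (a subfield of index `l` containing the `M`-th roots of unity; about 170 lines).  PROOF.
ADAPT `Pool/Agent/H68/TK/Idx3.lean` (there `l = 3`, and `C = ℚ`): use its lemma `Idx3_trans` (which holds for every degree), and a copy of `Idx3_gal` with `l` for `3`.
Let `N, C, e, r, J` be as in `LT`, `φ = e.toRatAlgHom : B →ₐ[ℚ] N`, `E = φ.fieldRange ⊇ C`. `N/C` is Galois of degree `l^r` (`IsGalois.tower_top_of_isGalois ℚ C N`), `E_C = IntermediateField.extendScalars (C ≤ E) : IntermediateField C N`,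
`[N : E]` divides `l^r`: `[N : E] = l^s`. If `s = r`: `[E_C : C] = 1`, so `E = C` (every element of `E` is in `C`) and `B ≃ₐ[ℚ] E = C` is a cyclotomic extension (`IsCyclotomicExtension.equiv`): left.
Otherwise `H = E_C.fixingSubgroup` has order `l^s` in `G = N ≃ₐ[C] N` of order `l^r`, `s < r`: `Sylow.exists_subgroup_card_pow_succ` gives `H ≤ H'` with `|H'| = l^(s+1)`, `E'_C = fixedField H' ≤ E_C`, `[N : E'_C] = l^(s+1)`,
`E' = E'_C.restrictScalars ℚ ≤ E`, it contains `C`. `B1 = IntermediateField.comap φ E'`: `[B : B1] = l` and `B/B1` is Galois as in `exists_index_three`. `LT l M B1`: the same `N, C, J`, and `e` restricted to `B1`: an element `x` of `C` is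
`e y` with `y ∈ B`, and `e y = x ∈ C ⊆ E'`, so `y ∈ B1`.
`LT.cc`: `isCC_sub`. `LT.finrank`: `[N : ℚ] = [N : C] [C : ℚ] = l^r φ(M)` (`IsCyclotomicExtension.finrank`, `Polynomial.cyclotomic.irreducible_rat`) `= [N : E] [E : ℚ]`, `[E : ℚ] = [E_C : C] φ(M)` with `[E_C : C]` a divisor of `l^r`.
`LT.zeta`: `C` contains a primitive `M`-th root of unity `z` (`IsCyclotomicExtension.zeta_spec M ℚ C`), `z^(M/l)` is a primitive `l`-th root of unity (`IsPrimitiveRoot.pow`), it is `e y`; `y` is a primitive `l`-th root of unity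
(`IsPrimitiveRoot.of_map_of_injective`).
-/

set_option autoImplicit false
set_option linter.style.haveILetI false

open IsDedekindDomain NumberField H5SW H68QS

namespace H68TL

variable {l M : ℕ} [Fact l.Prime] {B : Type} [Field B] [NumberField B]

omit [Fact l.Prime] in
theorem Idl_gal {F : Type} [Field F] [NumberField F] [IsGalois ℚ F] (hl : l.Prime)
    (E' E : IntermediateField ℚ F)
    (hle : E' ≤ E) {s : ℕ} (h1 : Module.finrank E F = l ^ s) (h2 : Module.finrank E' F = l ^ (s + 1)) :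
    IsGalois E' (IntermediateField.extendScalars hle) := by
  obtain ⟨E2, hE2⟩ : ∃ E2 : IntermediateField E' F, E2 = IntermediateField.extendScalars hle := ⟨_, rfl⟩
  rw [← hE2]
  have h3 : Module.finrank E2 F = l ^ s := by
    rw [hE2, ← h1]
    rfl
  have hgal : IsGalois E' F := inferInstance
  have hc1 : Nat.card E2.fixingSubgroup = l ^ s := by
    rw [IsGalois.card_fixingSubgroup_eq_finrank, h3]
  have hc2 : Nat.card (F ≃ₐ[E'] F) = l ^ (s + 1) := by
    rw [IsGalois.card_aut_eq_finrank, h2]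
  have hidx : E2.fixingSubgroup.index = l := by
    have h4 := E2.fixingSubgroup.card_mul_index
    rw [hc1, hc2, pow_succ] at h4
    exact Nat.eq_of_mul_eq_mul_left (pow_pos hl.pos s) h4
  have hn : E2.fixingSubgroup.Normal := by
    apply Subgroup.normal_of_index_eq_minFac_card
    rw [hidx, hc2]
    rw [Nat.Prime.pow_minFac hl (Nat.succ_ne_zero s)]
  have h5 : IsGalois E' (IntermediateField.fixedField E2.fixingSubgroup) :=
    IsGalois.of_fixedField_normal_subgroup _
  rwa [IsGalois.fixedField_fixingSubgroup] at h5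

theorem exists_index_l (hM : M ≠ 0) (h : LT l M B) : IsCyclotomicExtension {M} ℚ B ∨
    ∃ B1 : IntermediateField ℚ B, Module.finrank B1 B = l ∧ IsGalois B1 B ∧ LT l M B1 := by
  have hl : l.Prime := Fact.out
  obtain ⟨N, iN1, iN2, C, e, hG, hcyc, hCe, ⟨r, hr⟩, J, hJ⟩ := h
  obtain ⟨φ, hφ⟩ : ∃ φ : B →ₐ[ℚ] N, φ = e.toRatAlgHom := ⟨_, rfl⟩
  have hφe : ∀ x, φ x = e x := by
    intro x
    rw [hφ]
    rfl
  obtain ⟨E, hE⟩ : ∃ E : IntermediateField ℚ N, E = φ.fieldRange := ⟨_, rfl⟩
  have hCE : C ≤ E := by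
    intro x hx
    obtain ⟨y, hy⟩ := hCe x hx
    rw [hE]
    exact AlgHom.mem_fieldRange.2 ⟨y, by rw [hφe, hy]⟩
  have hmul : IntermediateField.relfinrank C E * Module.finrank E N = l ^ r := by
    rw [IntermediateField.relfinrank_mul_finrank_top hCE, hr]
  obtain ⟨s, hsr, hs⟩ := (Nat.dvd_prime_pow hl).1 (Dvd.intro_left _ hmul)
  rcases hsr.lt_or_eq with hs' | hs'
  · right
    have hGC : IsGalois C N := IsGalois.tower_top_of_isGalois ℚ C N
    obtain ⟨EC, hEC⟩ : ∃ EC : IntermediateField C N, EC = IntermediateField.extendScalars hCE :=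
      ⟨_, rfl⟩
    have hsC : Module.finrank EC N = l ^ s := by
      rw [hEC, ← hs]
      rfl
    have hcard : Nat.card EC.fixingSubgroup = l ^ s := by
      rw [IsGalois.card_fixingSubgroup_eq_finrank, hsC]
    have hcardG : Nat.card (N ≃ₐ[C] N) = l ^ r := by
      rw [IsGalois.card_aut_eq_finrank, hr]
    have hfinG : Finite (N ≃ₐ[C] N) := Nat.finite_of_card_ne_zero (by
      rw [hcardG]
      exact (pow_pos hl.pos r).ne')
    obtain ⟨H', hH', hle⟩ := Sylow.exists_subgroup_card_pow_succ (p := l) (n := s)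
      (G := N ≃ₐ[C] N) (by
        rw [hcardG]
        exact pow_dvd_pow l hs') hcard
    obtain ⟨EC', hEC'⟩ : ∃ EC' : IntermediateField C N, EC' = IntermediateField.fixedField H' :=
      ⟨_, rfl⟩
    have hfinC : Module.finrank EC' N = l ^ (s + 1) := by
      rw [hEC', IntermediateField.finrank_fixedField_eq_card, hH']
    have hECE : EC' ≤ EC := by
      rw [hEC', ← IsGalois.fixedField_fixingSubgroup EC]
      exact IntermediateField.fixedField_antitone hle
    obtain ⟨E', hE'⟩ : ∃ E' : IntermediateField ℚ N, E' = EC'.restrictScalars ℚ := ⟨_, rfl⟩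
    have hfin' : Module.finrank E' N = l ^ (s + 1) := by
      rw [hE', ← hfinC]
      rfl
    have hEE : E' ≤ E := by
      intro x hx
      rw [hE'] at hx
      have h1 := hECE ((IntermediateField.mem_restrictScalars ℚ).1 hx)
      rw [hEC] at h1
      exact (IntermediateField.mem_extendScalars hCE).1 h1
    have hCE' : C ≤ E' := by
      intro x hx
      rw [hE']
      exact (IntermediateField.mem_restrictScalars ℚ).2 (EC'.algebraMap_mem ⟨x, hx⟩)
    refine ⟨IntermediateField.comap φ E', ?_, ?_, ?_⟩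
    · rw [IntermediateField.finrank_comap, ← hE]
      have h2 := IntermediateField.relfinrank_mul_finrank_top hEE
      rw [hs, hfin', pow_succ, mul_comm (l ^ s)] at h2
      exact Nat.eq_of_mul_eq_mul_right (pow_pos hl.pos s) h2
    · have h3 := Idl_gal hl E' E hEE hs hfin'
      subst hE
      exact H68TK.Idx3_trans φ E' hEE h3
    · refine ⟨N, iN1, iN2, C, e.comp (algebraMap (IntermediateField.comap φ E') B), hG, hcyc, ?_,
        ⟨r, hr⟩, J, hJ⟩
      intro x hx
      obtain ⟨y, hy⟩ := hCe x hx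
      refine ⟨⟨y, ?_⟩, hy⟩
      show φ y ∈ E'
      rw [hφe, hy]
      exact hCE' hx
  · left
    have h1 : IntermediateField.relfinrank C E = 1 := by
      rw [hs, hs'] at hmul
      exact Nat.eq_of_mul_eq_mul_right (pow_pos hl.pos r) (by rw [hmul, one_mul])
    have h2 : E ≤ C := IntermediateField.relfinrank_eq_one_iff.1 h1
    have h3 : C = φ.fieldRange := by
      rw [← hE]
      exact le_antisymm hCE h2
    subst h3
    exact IsCyclotomicExtension.equiv {M} ℚ φ.fieldRange (AlgHom.equivFieldRange φ).symm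

theorem LT.cc (h : LT l M B) : ∃ J : B ≃+* B, IsCC J := by
  obtain ⟨N, iN1, iN2, C, e, hG, hcyc, hCe, ⟨r, hr⟩, J, hJ⟩ := h
  obtain ⟨J0, hJ0, _⟩ := isCC_sub hJ e
  exact ⟨J0, hJ0⟩

theorem LT.finrank (hM : M ≠ 0) (h : LT l M B) :
    ∃ r : ℕ, Module.finrank ℚ B = l ^ r * M.totient := by
  have hl : l.Prime := Fact.out
  obtain ⟨N, iN1, iN2, C, e, hG, hcyc, hCe, ⟨r, hr⟩, J, hJ⟩ := h
  obtain ⟨φ, hφ⟩ : ∃ φ : B →ₐ[ℚ] N, φ = e.toRatAlgHom := ⟨_, rfl⟩
  have hφe : ∀ x, φ x = e x := by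
    intro x
    rw [hφ]
    rfl
  have hCE : C ≤ φ.fieldRange := by
    intro x hx
    obtain ⟨y, hy⟩ := hCe x hx
    exact AlgHom.mem_fieldRange.2 ⟨y, by rw [hφe, hy]⟩
  have hkE : Module.finrank ℚ B = Module.finrank ℚ φ.fieldRange :=
    LinearEquiv.finrank_eq (AlgHom.equivFieldRange φ).toLinearEquiv
  have hmul : IntermediateField.relfinrank C φ.fieldRange * Module.finrank φ.fieldRange N = l ^ r := by
    rw [IntermediateField.relfinrank_mul_finrank_top hCE, hr]
  obtain ⟨s, _, hs⟩ := (Nat.dvd_prime_pow hl).1 (Dvd.intro _ hmul)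
  have h1 := IntermediateField.finrank_bot_mul_relfinrank hCE
  have hne : NeZero M := ⟨hM⟩
  have h2 : Module.finrank ℚ C = M.totient :=
    IsCyclotomicExtension.finrank C (Polynomial.cyclotomic.irreducible_rat (Nat.pos_of_ne_zero hM))
  refine ⟨s, ?_⟩
  rw [hkE, ← h1, hs, h2, mul_comm]

theorem LT.zeta (hM : M ≠ 0) (hlM : l ∣ M) (h : LT l M B) : ∃ ζ : B, IsPrimitiveRoot ζ l := by
  obtain ⟨N, iN1, iN2, C, e, hG, hcyc, hCe, ⟨r, hr⟩, J, hJ⟩ := h
  have hne : NeZero M := ⟨hM⟩
  have h1 := IsCyclotomicExtension.zeta_spec M ℚ C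
  obtain ⟨m, hm⟩ := hlM
  have h2 := h1.pow (Nat.pos_of_ne_zero hM) (a := m) (b := l) (by rw [hm, mul_comm])
  have h3 := h2.map_of_injective (f := algebraMap C N) (algebraMap C N).injective
  obtain ⟨y, hy⟩ := hCe (algebraMap C N (IsCyclotomicExtension.zeta M ℚ C ^ m))
    (IsCyclotomicExtension.zeta M ℚ C ^ m).2
  rw [← hy] at h3
  exact ⟨y, IsPrimitiveRoot.of_map_of_injective (f := e) h3 e.injective⟩

end H68TL
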