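import Pool.Agent.H68.TL.Cyl

/-!
ROW Raml (ramified primes divide `m`; about 120 lines).  PROOF.  Copy `Pool/Agent/H68/TK/Ram.lean` (`mem_of_ram`, the case `l = 3`) with `l` for `3`; `exists_sigma` is in `Cyl.lean`.
`dvd_or`: copy `three_dvd_or` of `Pool/Agent/H68/TK/StepC.lean`.
-/

set_option autoImplicit false
set_option linter.style.haveILetI false

open IsDedekindDomain NumberField WithZero Pool.Agent.H10

namespace H68TL

private lemma Raml_inertia {l : ℕ} [Fact l.Prime] {M M2 : Type} [Field M] [NumberField M]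
    [Field M2] [NumberField M2] [Algebra M M2] [IsGalois M M2]
    (h3 : Module.finrank M M2 = l) {w : HeightOneSpectrum (𝓞 M)}
    {W : HeightOneSpectrum (𝓞 M2)} [W.asIdeal.LiesOver w.asIdeal]
    (hr : l ∣ w.asIdeal.ramificationIdx' W.asIdeal) (σ : M2 ≃ₐ[M] M2) (x : 𝓞 M2) :
    σ • x - x ∈ W.asIdeal := by
  have hfin : Finite (𝓞 M ⧸ w.asIdeal) := Ring.HasFiniteQuotients.finiteQuotient w.ne_bot
  have h1 : Nat.card (W.asIdeal.inertia (M2 ≃ₐ[M] M2)) = w.asIdeal.ramificationIdxIn (𝓞 M2) :=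
    Ideal.card_inertia_eq_ramificationIdxIn (G := M2 ≃ₐ[M] M2) w.asIdeal W.asIdeal
  rw [Ideal.ramificationIdxIn_eq_ramificationIdx w.asIdeal W.asIdeal (M2 ≃ₐ[M] M2),
    ← Ideal.ramificationIdx'_eq_ramificationIdx w.asIdeal W.asIdeal w.ne_bot] at h1
  rw [← h1] at hr
  have hG : Nat.card (M2 ≃ₐ[M] M2) = l := by rw [IsGalois.card_aut_eq_finrank, h3]
  have hle : l ≤ Nat.card (W.asIdeal.inertia (M2 ≃ₐ[M] M2)) := Nat.le_of_dvd Nat.card_pos hr
  have htop : W.asIdeal.inertia (M2 ≃ₐ[M] M2) = ⊤ := by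
    apply Subgroup.eq_top_of_le_card
    rw [hG]
    exact hle
  have hm : σ ∈ W.asIdeal.inertia (M2 ≃ₐ[M] M2) := by rw [htop]; trivial
  exact hm x

variable {K M K2 M2 : Type} [Field K] [NumberField K] [Field M] [NumberField M]
  [Field K2] [NumberField K2] [Field M2] [NumberField M2]
  [Algebra K M] [Algebra K K2] [Algebra K M2] [Algebra M M2] [Algebra K2 M2]
  [IsScalarTower K M M2] [IsScalarTower K K2 M2] [IsGalois K K2] [IsGalois M M2]
  {l : ℕ} [Fact l.Prime]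

theorem mem_of_ram (h3 : Module.finrank M M2 = l)
    (hgen : IntermediateField.adjoin M (Set.range (algebraMap K2 M2)) = ⊤)
    {δ : 𝓞 K2} {m : ℤ} (hd : Dlt K K2 δ m) {w : HeightOneSpectrum (𝓞 M)}
    {W : HeightOneSpectrum (𝓞 M2)} [W.asIdeal.LiesOver w.asIdeal]
    (hr : l ∣ w.asIdeal.ramificationIdx' W.asIdeal) : (m : 𝓞 M) ∈ w.asIdeal := by
  obtain ⟨σ, hσ⟩ := exists_sigma (M := M) (M2 := M2) h3
  let τ : K2 ≃ₐ[K] K2 := (σ.restrictScalars K).restrictNormal K2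
  have hτ : ∀ x : K2, algebraMap K2 M2 (τ x) = σ (algebraMap K2 M2 x) := fun x =>
    AlgEquiv.restrictNormal_commutes (σ.restrictScalars K) K2 x
  have hτ1 : τ ≠ 1 := by
    intro h1
    apply hσ
    have hfix : ∀ y ∈ IntermediateField.adjoin M (Set.range (algebraMap K2 M2)), σ y = y := by
      intro y hy
      induction hy using IntermediateField.adjoin_induction with
      | mem x hx =>
        obtain ⟨z, rfl⟩ := hx
        rw [← hτ, h1]
        rfl
      | algebraMap x => exact σ.commutes x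
      | add x y _ _ hx hy => rw [map_add, hx, hy]
      | inv x _ hx => rw [map_inv₀, hx]
      | mul x y _ _ hx hy => rw [map_mul, hx, hy]
    refine AlgEquiv.ext fun y => ?_
    have hy : y ∈ IntermediateField.adjoin M (Set.range (algebraMap K2 M2)) := by
      rw [hgen]; trivial
    exact hfix y hy
  obtain ⟨c, hc⟩ := hd τ hτ1
  have h1 := Raml_inertia h3 hr σ (algebraMap (𝓞 K2) (𝓞 M2) δ)
  have hcoe : ∀ x : 𝓞 K2, algebraMap (𝓞 M2) M2 (algebraMap (𝓞 K2) (𝓞 M2) x)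
      = algebraMap K2 M2 (x : K2) := fun x => rfl
  have h2 : (σ • algebraMap (𝓞 K2) (𝓞 M2) δ - algebraMap (𝓞 K2) (𝓞 M2) δ)
      * algebraMap (𝓞 K2) (𝓞 M2) c = (m : 𝓞 M2) := by
    apply RingOfIntegers.coe_injective
    have h4 : algebraMap (𝓞 M2) M2 (σ • algebraMap (𝓞 K2) (𝓞 M2) δ)
        = σ (algebraMap K2 M2 (δ : K2)) := rfl
    rw [map_mul, map_sub, hcoe, hcoe, h4, ← hτ, ← map_sub, ← map_mul, hc]
    simp
  have h5 : (m : 𝓞 M2) ∈ W.asIdeal := by
    rw [← h2]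
    exact W.asIdeal.mul_mem_right _ h1
  have h6 : w.asIdeal = W.asIdeal.under (𝓞 M) := Ideal.LiesOver.over
  rw [h6, Ideal.under_def, Ideal.mem_comap, map_intCast]
  exact h5

theorem dvd_or (h3 : Module.finrank M M2 = l)
    (hgen : IntermediateField.adjoin M (Set.range (algebraMap K2 M2)) = ⊤)
    {δ : 𝓞 K2} {m : ℤ} (hd : Dlt K K2 δ m) {t : M} (w : HeightOneSpectrum (𝓞 M))
    (hW : ∀ W : HeightOneSpectrum (𝓞 M2), (l : ℤ) ∣ log (W.valuation M2 (algebraMap M M2 t))) :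
    (m : 𝓞 M) ∈ w.asIdeal ∨ (l : ℤ) ∣ log (w.valuation M t) := by
  obtain ⟨W, hWw⟩ := H68QS.exists_over (L2 := M2) w
  by_cases hr : l ∣ w.asIdeal.ramificationIdx' W.asIdeal
  · exact Or.inl (mem_of_ram (K := K) (K2 := K2) h3 hgen hd hr)
  · right
    have h1 := hW W
    rw [← HeightOneSpectrum.valuation_liesOver (K := M) M2 w W, log_pow, nsmul_eq_mul] at h1
    have hl : Prime (l : ℤ) := Nat.prime_iff_prime_int.mp Fact.out
    rcases hl.dvd_or_dvd h1 with h2 | h2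
    · exfalso
      apply hr
      exact_mod_cast h2
    · exact h2

end H68TL
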