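import Pool.Agent.H68.TL.Df

/-!
ROW Skl (operators of prime order on a group of exponent `l`; about 90 lines).  PROOF.
`pow_sub_one`: in `ℤ[X]`, `(X - 1)^l - (X^l - 1)` is divisible by `l` (`l` an odd prime): all its coefficients are multiples of the binomial coefficients `l.choose i`, `0 < i < l`, and at `i = 0` it is `(-1)^l + 1 = 0`;
or `add_pow_char` in `(ZMod l)[X]` and `Polynomial.map` to `ZMod l` is zero iff divisible by `l`.
`skeleton`: put `x₀ = x`, `x_{i+1} = σ x_i / x_i`; all `x_i` are in `A`. `x_l` is an `l`-th power: in the additive commutative group `Additive Fˣ` let `S` be the endomorphism induced by `σ`; `x_l = (S - 1)^l x`, and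
`(S - 1)^l = S^l - 1 + l r(S) = l r(S)` by `pow_sub_one` (evaluate at `S`: `Polynomial.aeval S` into `AddMonoid.End`), `S^l = 1`. So `x_l = y^l`. Downward induction: `σ x_{i} = x_{i} * x_{i+1}` and `x_{i+1} = y^l` give by `hfix` that `x_i`
is an `l`-th power; so `x₀` is.
-/

set_option autoImplicit false

open NumberField

namespace H68TL

theorem pow_sub_one (l : ℕ) [Fact l.Prime] (hl : l ≠ 2) : ∃ r : Polynomial ℤ,
    (Polynomial.X - 1 : Polynomial ℤ) ^ l = Polynomial.X ^ l - 1 + (l : Polynomial ℤ) * r := by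
  have hp : l.Prime := Fact.out
  obtain ⟨r, hr⟩ := exists_add_pow_prime_eq hp (Polynomial.X : Polynomial ℤ) (-1)
  have hodd : Odd l := hp.odd_of_ne_two hl
  refine ⟨Polynomial.X * (-1) * r, ?_⟩
  rw [sub_eq_add_neg, hr, hodd.neg_one_pow]
  ring

/-- the endomorphism of the (additive) group of units induced by an automorphism -/
noncomputable def Skl_S {F : Type} [Field F] (σ : F ≃+* F) : Module.End ℤ (Additive Fˣ) :=
  (MonoidHom.toAdditive (Units.map (σ : F →* F))).toIntLinearMap

/-- the value of an element -/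
def Skl_v {F : Type} [Field F] (g : Additive Fˣ) : F := ((Additive.toMul g : Fˣ) : F)

theorem Skl_v_inj {F : Type} [Field F] {g h : Additive Fˣ} (e : Skl_v g = Skl_v h) : g = h :=
  Additive.toMul.injective (Units.ext e)

theorem Skl_v_sub {F : Type} [Field F] (g h : Additive Fˣ) :
    Skl_v (g - h) = Skl_v g / Skl_v h := by
  unfold Skl_v
  rw [toMul_sub, Units.val_div_eq_div_val]

theorem Skl_v_nsmul {F : Type} [Field F] (n : ℕ) (g : Additive Fˣ) :
    Skl_v (n • g) = Skl_v g ^ n := by
  unfold Skl_v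
  rw [toMul_nsmul, Units.val_pow_eq_pow_val]

theorem Skl_S_apply {F : Type} [Field F] (σ : F ≃+* F) (g : Additive Fˣ) :
    Skl_v (Skl_S σ g) = σ (Skl_v g) := rfl

theorem Skl_S_pow {F : Type} [Field F] (σ : F ≃+* F) (n : ℕ) (g : Additive Fˣ) :
    Skl_v ((Skl_S σ ^ n) g) = (σ ^ n) (Skl_v g) := by
  induction n generalizing g with
  | zero => rfl
  | succ n ih =>
    rw [pow_succ, pow_succ, Module.End.mul_apply, ih, Skl_S_apply]
    rfl

theorem Skl_last {F : Type} [Field F] {l : ℕ} [Fact l.Prime] (hl : l ≠ 2) (σ : F ≃+* F)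
    (h3 : σ ^ l = 1) (u : F → F) (hu : ∀ x, u x = σ x / x) (x : F)
    (hx : ∀ i, u^[i] x ≠ 0) : ∃ y, u^[l] x = y ^ l := by
  set S := Skl_S σ with hS
  set g : Additive Fˣ := Additive.ofMul (Units.mk0 x (hx 0)) with hg
  have h1 : ∀ i, u^[i] x = Skl_v (((S - 1) ^ i) g) := by
    intro i
    induction i with
    | zero => rfl
    | succ i ih =>
      rw [pow_succ', Module.End.mul_apply, LinearMap.sub_apply, Module.End.one_apply, Skl_v_sub,
        hS, Skl_S_apply, ← hS, ← ih, Function.iterate_succ_apply', hu]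
  obtain ⟨r, hr⟩ := pow_sub_one l hl
  have h2 := congrArg (Polynomial.aeval S) hr
  simp only [map_pow, map_sub, map_add, map_mul, Polynomial.aeval_X, map_one, map_natCast] at h2
  have h4 : S ^ l = 1 := by
    apply LinearMap.ext
    intro a
    apply Skl_v_inj
    rw [hS, Skl_S_pow, h3]
    rfl
  rw [h4, sub_self, zero_add] at h2
  have h5 := h1 l
  rw [h2, Module.End.mul_apply] at h5
  have h6 : ((l : ℕ) : Module.End ℤ (Additive Fˣ)) ((Polynomial.aeval S r) g) =
      l • ((Polynomial.aeval S r) g) := by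
    rw [Module.End.natCast_apply]
  rw [h6, Skl_v_nsmul] at h5
  exact ⟨_, h5⟩

theorem skeleton {F : Type} [Field F] {l : ℕ} [Fact l.Prime] (hl : l ≠ 2) (σ : F ≃+* F)
    (h3 : σ ^ l = 1) (A : F → Prop) (h0 : ∀ x, A x → x ≠ 0) (hσ : ∀ x, A x → A (σ x / x))
    (hfix : ∀ x c, A x → σ x = x * c ^ l → ∃ y, x = y ^ l) (x : F) (hx : A x) :
    ∃ y, x = y ^ l := by
  set u : F → F := fun x => σ x / x with hu
  have hux : ∀ x, u x = σ x / x := fun _ => rfl
  clear_value u
  have hA : ∀ i, A (u^[i] x) := by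
    intro i
    induction i with
    | zero => exact hx
    | succ i ih =>
      rw [Function.iterate_succ_apply', hux]
      exact hσ _ ih
  have hlast := Skl_last hl σ h3 u hux x (fun i => h0 _ (hA i))
  have key : ∀ k, k ≤ l → ∃ y, u^[l - k] x = y ^ l := by
    intro k
    induction k with
    | zero => intro _; exact hlast
    | succ k ih =>
      intro hk
      obtain ⟨y, hy⟩ := ih (by omega)
      have e1 : l - k = (l - (k + 1)) + 1 := by omega
      rw [e1, Function.iterate_succ_apply', hux] at hy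
      refine hfix _ y (hA _) ?_
      have h1 := h0 _ (hA (l - (k + 1)))
      rw [← hy, mul_div_cancel₀ _ h1]
  obtain ⟨y, hy⟩ := key l le_rfl
  rw [Nat.sub_self] at hy
  exact ⟨y, hy⟩

end H68TL
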