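import Pool.Agent.H68.TL.StepE
import Pool.Agent.H68.TL.StepB
import Pool.Agent.H68.TL.Idl
import Pool.Agent.H68.TL.Psh

/-!
# MP_78d38b: the `l`-step for a layer
-/

set_option autoImplicit false
set_option linter.style.haveILetI false
open scoped Classical

open IsDedekindDomain NumberField WithZero Finset Pool.Agent.H10 H5SW H68QS H68IM

namespace H68TL

theorem FixP.weaken {K L : Type} [Field K] [NumberField K] [Field L] [NumberField L] [Algebra K L]
    {M M' : ℤ} (hMM : M ∣ M') (G : FixP M' K L) : FixP M K L := by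
  intro w hw
  refine G w ?_
  obtain ⟨c, rfl⟩ := hMM
  rw [Int.cast_mul]
  exact Ideal.mul_mem_right _ _ hw

theorem GoodL.weaken {l : ℕ} {K L : Type} [Field K] [NumberField K] [Field L] [NumberField L]
    [Algebra K L] {M M' : ℤ} (hMM : M ∣ M') (G : GoodL l M' K L) : GoodL l M K L :=
  ⟨G.gal, G.nl, G.E, G.U, G.B.weaken hMM⟩

section step

variable {K L K2 L2 : Type} [Field K] [NumberField K] [Field L] [NumberField L]
  [Field K2] [NumberField K2] [Field L2] [NumberField L2]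
  [Algebra K L] [Algebra K K2] [Algebra K L2] [Algebra L L2] [Algebra K2 L2]
  [IsScalarTower K L L2] [IsScalarTower K K2 L2]

/-- The `l`-step for the properties of a layer. -/
theorem goodL_step [IsGalois K K2] {l : ℕ} [Fact l.Prime] (hl2 : l ≠ 2)
    (hlK : Module.finrank K K2 = l)
    (hgen2 : IntermediateField.adjoin K2 (Set.range (algebraMap L L2)) = ⊤)
    (hμ : ∀ z : L2, z ^ l = 1 → ∃ y : K, algebraMap K L2 y = z)
    (hcc : ∀ J2 : L2 ≃+* L2, IsCC J2 → ∃ J : L ≃+* L, IsCC J ∧ Stab K J ∧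
      ∀ x, J2 (algebraMap L L2 x) = algebraMap L L2 (J x))
    {δ : 𝓞 K2} {m : ℤ} (hd : Dlt K K2 δ m)
    {M M' : ℤ} (hMM : M ∣ M') (hm : m ∣ M') (G : GoodL l M' K L) : GoodL l M K2 L2 := by
  haveI := G.gal
  obtain ⟨hG, hlL, hfr⟩ := l_up (K := K) (M := L) (K2 := K2) (M2 := L2) hlK G.nl hgen2
  haveI := hG
  haveI hgal : IsGalois K2 L2 := galois_up (K := K) (L := L) hgen2
  have hgen := H68TK.gen_symm (K := K) hgen2
  refine ⟨hgal, by rw [hfr]; exact G.nl, ?_, ?_, ?_⟩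
  · intro J2 hJ2
    obtain ⟨J, hJ, hst, hc⟩ := hcc J2 hJ2
    exact noNewE_step (K := K) (F := L) (P := ∅) (P2 := ∅) hl2 hfr hlK hlL G.nl hgen hgen2 hμ hd
      (G.B.weaken hm) hc hst (fun τ hτ => absurd hτ (Set.notMem_empty τ))
      (fun σ x => hJ2.comm (σ : L2 ≃+* L2) x) (fun τ hτ => absurd hτ (Set.notMem_empty τ))
      (G.E J hJ)
  · intro J2 hJ2
    obtain ⟨J, hJ, -, hc⟩ := hcc J2 hJ2
    exact noUnr_step (K := K) (F := L) hl2 hfr hlL G.nl hgen2 hd (G.B.weaken hm) hc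
      hJ.invol (fun σ x => hJ2.comm (σ : L2 ≃+* L2) x) (fun σ x => hJ2.comm (σ : L2 ≃+* L2) x)
      (G.U J hJ)
  · exact (fixP_step (K := K) (F := L) hfr hlL G.nl hgen2 (G.B.weaken hMM))

end step

end H68TL
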