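import Pool.Agent.H68.TL.Skl
import Pool.Agent.H68.TL.Raml

/-!
# MP_78d38b: the `l`-step for elements
-/

set_option autoImplicit false
set_option linter.style.haveILetI false

open IsDedekindDomain NumberField WithZero Pool.Agent.H10

namespace H68TL

section val

variable {F : Type} [Field F] [NumberField F] {l : ℕ}

lemma dvd_log_mul {w : HeightOneSpectrum (𝓞 F)} {x y : F} (hx : x ≠ 0) (hy : y ≠ 0)
    (h1 : (l : ℤ) ∣ log (w.valuation F x)) (h2 : (l : ℤ) ∣ log (w.valuation F y)) :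
    (l : ℤ) ∣ log (w.valuation F (x * y)) := by
  rw [map_mul, log_mul ((Valuation.ne_zero_iff _).mpr hx) ((Valuation.ne_zero_iff _).mpr hy)]
  exact dvd_add h1 h2

lemma dvd_log_div {w : HeightOneSpectrum (𝓞 F)} {x y : F} (hx : x ≠ 0) (hy : y ≠ 0)
    (h1 : (l : ℤ) ∣ log (w.valuation F x)) (h2 : (l : ℤ) ∣ log (w.valuation F y)) :
    (l : ℤ) ∣ log (w.valuation F (x / y)) := by
  rw [map_div₀, log_div ((Valuation.ne_zero_iff _).mpr hx) ((Valuation.ne_zero_iff _).mpr hy)]
  exact dvd_sub h1 h2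

lemma dvd_log_pow {w : HeightOneSpectrum (𝓞 F)} (x : F) :
    (l : ℤ) ∣ log (w.valuation F (x ^ l)) := by
  rw [map_pow, log_pow, nsmul_eq_mul]
  exact dvd_mul_right _ _

end val

section

variable {K F K2 F2 : Type} [Field K] [NumberField K] [Field F] [NumberField F]
  [Field K2] [NumberField K2] [Field F2] [NumberField F2]
  [Algebra K F] [Algebra K K2] [Algebra K F2] [Algebra F F2] [Algebra K2 F2]
  [IsScalarTower K F F2] [IsScalarTower K K2 F2]

/-- an element whose `l`-th power comes from below and whose norm does too -/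
theorem root_down [IsGalois K K2] [IsGalois F F2] {l : ℕ} [Fact l.Prime]
    (hfr : Module.finrank K2 F2 = Module.finrank K F) (hlF : Module.finrank F F2 = l)
    (hn : ¬ l ∣ Module.finrank K F)
    (hgen2 : IntermediateField.adjoin K2 (Set.range (algebraMap F F2)) = ⊤)
    (hμ : ∀ z : F2, z ^ l = 1 → ∃ y : K, algebraMap K F2 y = z)
    {U : F} (hU0 : U ≠ 0) {u : F2} (hu : algebraMap F F2 U = u ^ l)
    (hN : ∃ r : K, Algebra.norm K U = r ^ l) : ∃ z : F, U = z ^ l := by
  have hl0 : l ≠ 0 := (Fact.out : l.Prime).ne_zero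
  obtain ⟨σ, hσ1⟩ := exists_sigma hlF
  let τ : K2 ≃ₐ[K] K2 := (σ.restrictScalars K).restrictNormal K2
  have hτ : ∀ x : K2, σ (algebraMap K2 F2 x) = algebraMap K2 F2 (τ x) := fun x =>
    (AlgEquiv.restrictNormal_commutes (σ.restrictScalars K) K2 x).symm
  have hu0 : u ≠ 0 := by
    rintro rfl
    rw [zero_pow hl0, map_eq_zero] at hu
    exact hU0 hu
  have h1 : (σ u / u) ^ l = 1 := by
    rw [div_pow, ← map_pow, ← hu, σ.commutes, div_self]
    rw [Ne, map_eq_zero]
    exact hU0
  obtain ⟨ω, hω⟩ := hμ _ h1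
  have hσu : σ u = u * algebraMap K F2 ω := by rw [hω]; field_simp
  have hωl : ω ^ l = 1 := by
    apply (algebraMap K F2).injective
    rw [map_pow, hω, h1, map_one]
  -- the norm of `u`
  obtain ⟨r, hr⟩ := hN
  have hr0 : r ≠ 0 := by
    rintro rfl
    rw [zero_pow hl0, Algebra.norm_eq_zero_iff] at hr
    exact hU0 hr
  have h2 : Algebra.norm K2 u ^ l = algebraMap K K2 (r ^ l) := by
    rw [← map_pow, ← hu, H68TK.norm_gen hfr hgen2, hr]
  have hkr0 : algebraMap K K2 r ≠ 0 := by rw [Ne, map_eq_zero]; exact hr0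
  have h3 : (Algebra.norm K2 u / algebraMap K K2 r) ^ l = 1 := by
    rw [div_pow, h2, map_pow, div_self (pow_ne_zero l hkr0)]
  obtain ⟨ω', hω'⟩ := hμ (algebraMap K2 F2 (Algebra.norm K2 u / algebraMap K K2 r))
    (by rw [← map_pow, h3, map_one])
  have hNu : Algebra.norm K2 u = algebraMap K K2 (r * ω') := by
    rw [IsScalarTower.algebraMap_apply K K2 F2] at hω'
    have h4 := (algebraMap K2 F2).injective hω'
    rw [map_mul, h4]
    field_simp
  have hNu0 : Algebra.norm K2 u ≠ 0 := by rw [Ne, Algebra.norm_eq_zero_iff]; exact hu0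
  have h5 : Algebra.norm K2 (σ u) = Algebra.norm K2 u := by
    have h6 : Algebra.norm K2 (σ u) = τ (Algebra.norm K2 u) :=
      H68TK.norm_conj (σ : F2 ≃+* F2) (τ : K2 ≃+* K2) hτ u
    rw [h6, hNu, τ.commutes]
  have h7 : algebraMap K K2 (ω ^ Module.finrank K F) = 1 := by
    rw [hσu, map_mul, IsScalarTower.algebraMap_apply K K2 F2, Algebra.norm_algebraMap, hfr] at h5
    have h8 : Algebra.norm K2 u * (algebraMap K K2 ω) ^ Module.finrank K F =
        Algebra.norm K2 u * 1 := by rw [h5, mul_one]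
    rw [map_pow]
    exact mul_left_cancel₀ hNu0 h8
  have h9 : ω ^ Module.finrank K F = 1 := by
    apply (algebraMap K K2).injective
    rw [h7, map_one]
  have hω1 : ω = 1 := by
    have h10 := orderOf_dvd_of_pow_eq_one hωl
    have h11 := orderOf_dvd_of_pow_eq_one h9
    rcases (Nat.dvd_prime (Fact.out : l.Prime)).mp h10 with h12 | h12
    · exact orderOf_eq_one_iff.mp h12
    · rw [h12] at h11
      exact absurd h11 hn
  rw [hω1, map_one, mul_one] at hσu
  obtain ⟨z, hz⟩ := sigma_fix hlF hσ1 hσu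
  refine ⟨z, (algebraMap F F2).injective ?_⟩
  rw [hu, ← hz, map_pow]

/-- The `l`-step for elements. -/
theorem noNewE_step [IsGalois K F] [IsGalois K K2] [IsGalois F F2] {l : ℕ} [Fact l.Prime]
    (hl2 : l ≠ 2) (hfr : Module.finrank K2 F2 = Module.finrank K F)
    (hlK : Module.finrank K K2 = l) (hlF : Module.finrank F F2 = l)
    (hn : ¬ l ∣ Module.finrank K F)
    (hgen : IntermediateField.adjoin F (Set.range (algebraMap K2 F2)) = ⊤)
    (hgen2 : IntermediateField.adjoin K2 (Set.range (algebraMap F F2)) = ⊤)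
    (hμ : ∀ z : F2, z ^ l = 1 → ∃ y : K, algebraMap K F2 y = z)
    {δ : 𝓞 K2} {m : ℤ} (hd : Dlt K K2 δ m) (hfix : FixP m K F)
    {P : Set (F ≃+* F)} {J : F ≃+* F} {P2 : Set (F2 ≃+* F2)} {J2 : F2 ≃+* F2}
    (hJ : ∀ x, J2 (algebraMap F F2 x) = algebraMap F F2 (J x)) (hJK : Stab K J)
    (hP : ∀ τ ∈ P, Stab K τ ∧ ∃ τ2 ∈ P2, ∀ x, τ2 (algebraMap F F2 x) = algebraMap F F2 (τ x))
    (hcJ : ∀ (σ : F2 ≃ₐ[F] F2) (x : F2), J2 (σ x) = σ (J2 x))
    (hcP : ∀ τ2 ∈ P2, ∀ (σ : F2 ≃ₐ[F] F2) (x : F2), τ2 (σ x) = σ (τ2 x))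
    (R : NoNewE l K F P J) : NoNewE l K2 F2 P2 J2 := by
  have hl0 : l ≠ 0 := (Fact.out : l.Prime).ne_zero
  obtain ⟨σ, hσ1⟩ := exists_sigma hlF
  let τ : K2 ≃ₐ[K] K2 := (σ.restrictScalars K).restrictNormal K2
  have hτ : ∀ x : K2, σ (algebraMap K2 F2 x) = algebraMap K2 F2 (τ x) := fun x =>
    (AlgEquiv.restrictNormal_commutes (σ.restrictScalars K) K2 x).symm
  have hNσ : ∀ x, algebraMap K2 F2 (Algebra.norm K2 (σ x)) =
      σ (algebraMap K2 F2 (Algebra.norm K2 x)) := by
    intro x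
    have h6 : Algebra.norm K2 (σ x) = τ (Algebra.norm K2 x) :=
      H68TK.norm_conj (σ : F2 ≃+* F2) (τ : K2 ≃+* K2) hτ x
    rw [h6, hτ]
  have hNdiv : ∀ x y : F2, y ≠ 0 → Algebra.norm K2 (x / y) =
      Algebra.norm K2 x / Algebra.norm K2 y := by
    intro x y hy
    have hNy : Algebra.norm K2 y ≠ 0 := by rw [Ne, Algebra.norm_eq_zero_iff]; exact hy
    rw [eq_div_iff hNy, ← map_mul, div_mul_cancel₀ _ hy]
  -- the norm from `F2` to `F` of the norm from `F2` to `K2`
  have hNN : ∀ x : F2, Algebra.norm F (algebraMap K2 F2 (Algebra.norm K2 x)) =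
      algebraMap K F (Algebra.norm K (Algebra.norm F x)) := by
    intro x
    rw [H68TK.norm_gen (K := K) (L := K2) (K2 := F) (L2 := F2) (by rw [hlF, hlK]) hgen,
      Algebra.norm_norm, Algebra.norm_norm]
  let A : F2 → Prop := fun e => e ≠ 0 ∧
    (∀ w : HeightOneSpectrum (𝓞 F2), (l : ℤ) ∣ log (w.valuation F2 e)) ∧
    (∃ y : F2, algebraMap K2 F2 (Algebra.norm K2 e) = y ^ l) ∧
    (∀ τ ∈ P2, ∃ y, τ e = e * y ^ l) ∧ (∃ y, e * J2 e = y ^ l)
  have hA : ∀ x, A x → A (σ x / x) := by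
    rintro x ⟨hx, hv, ⟨y, hy⟩, hPx, ⟨z, hz⟩⟩
    have hσx : σ x ≠ 0 := by rw [Ne, map_eq_zero]; exact hx
    refine ⟨div_ne_zero hσx hx, fun w => ?_, ⟨σ y / y, ?_⟩, ?_, ⟨σ z / z, ?_⟩⟩
    · refine dvd_log_div hσx hx ?_ (hv w)
      obtain ⟨w', h1, -⟩ := exists_conj σ w
      rw [h1]
      exact hv w'
    · rw [hNdiv _ _ hx, map_div₀, hNσ, hy, map_pow, div_pow]
    · intro τ2 hτ2
      obtain ⟨z, hz⟩ := hPx τ2 hτ2
      refine ⟨σ z / z, ?_⟩
      have hz0 : z ≠ 0 := by
        rintro rfl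
        rw [zero_pow hl0, mul_zero, map_eq_zero] at hz
        exact hx hz
      rw [map_div₀, hcP τ2 hτ2, hz, map_mul, map_pow, div_pow]
      field_simp
    · have hJx : J2 x ≠ 0 := by rw [Ne, map_eq_zero]; exact hx
      rw [map_div₀, hcJ, div_pow, ← map_pow, ← hz, map_mul]
      field_simp
  have hfix' : ∀ x c, A x → σ x = x * c ^ l → ∃ y, x = y ^ l := by
    rintro e c ⟨he, hv, ⟨y, hy⟩, hPe, ⟨z, hz⟩⟩ hc
    have hc0 : c ≠ 0 := by
      rintro rfl
      rw [zero_pow hl0, mul_zero, map_eq_zero] at hc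
      exact he hc
    have hNe : Algebra.norm F e ≠ 0 := by rw [Ne, Algebra.norm_eq_zero_iff]; exact he
    have hν : Algebra.norm F c ^ l = 1 := by
      have h1 := norm_sigma (M := F) σ e
      rw [hc, map_mul, map_pow] at h1
      exact mul_left_cancel₀ hNe (by rw [h1, mul_one])
    have hNK2 : Algebra.norm K2 e ≠ 0 := by rw [Ne, Algebra.norm_eq_zero_iff]; exact he
    have hy0 : y ≠ 0 := by
      rintro rfl
      rw [zero_pow hl0, map_eq_zero] at hy
      exact hNK2 hy
    have hNc : algebraMap K2 F2 (Algebra.norm K2 c) ≠ 0 := by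
      rw [Ne, map_eq_zero, Algebra.norm_eq_zero_iff]; exact hc0
    have h1 : (σ y / (y * algebraMap K2 F2 (Algebra.norm K2 c))) ^ l = 1 := by
      have h2 : (σ y) ^ l = (y * algebraMap K2 F2 (Algebra.norm K2 c)) ^ l := by
        rw [← map_pow, ← hy, ← hNσ, hc, map_mul, map_mul, hy, map_pow, map_pow, mul_pow]
      rw [div_pow, h2, div_self (pow_ne_zero l (mul_ne_zero hy0 hNc))]
    obtain ⟨ω, hω⟩ := hμ _ h1
    have hωl : ω ^ l = 1 := by
      apply (algebraMap K F2).injective
      rw [map_pow, hω, h1, map_one]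
    have hσy : σ y = y * algebraMap K2 F2 (Algebra.norm K2 c) * algebraMap K F2 ω := by
      rw [hω]
      field_simp
    -- the norm of `c` is fixed, hence one
    obtain ⟨ν, hν'⟩ := hμ (algebraMap F F2 (Algebra.norm F c)) (by rw [← map_pow, hν, map_one])
    have hνF : Algebra.norm F c = algebraMap K F ν := by
      apply (algebraMap F F2).injective
      rw [← hν', ← IsScalarTower.algebraMap_apply K F F2]
    have hνl : ν ^ l = 1 := by
      apply (algebraMap K F).injective
      rw [map_pow, ← hνF, hν, map_one]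
    have hNy : Algebra.norm F y ≠ 0 := by rw [Ne, Algebra.norm_eq_zero_iff]; exact hy0
    have h3 : ν ^ Module.finrank K F = 1 := by
      have h4 := norm_sigma (M := F) σ y
      rw [hσy, map_mul, map_mul, hNN, hνF, Algebra.norm_algebraMap,
        IsScalarTower.algebraMap_apply K F F2, Algebra.norm_algebraMap, hlF, ← map_pow, hωl,
        map_one, mul_one] at h4
      have h5 : Algebra.norm F y * algebraMap K F (ν ^ Module.finrank K F) =
          Algebra.norm F y * 1 := by rw [h4, mul_one]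
      have h6 := mul_left_cancel₀ hNy h5
      apply (algebraMap K F).injective
      rw [h6, map_one]
    have hν1 : ν = 1 := by
      have h10 := orderOf_dvd_of_pow_eq_one hνl
      have h11 := orderOf_dvd_of_pow_eq_one h3
      rcases (Nat.dvd_prime (Fact.out : l.Prime)).mp h10 with h12 | h12
      · exact orderOf_eq_one_iff.mp h12
      · rw [h12] at h11
        exact absurd h11 hn
    obtain ⟨f, hf, hcf⟩ := hilbert hlF hσ1 (c := c) (by rw [hνF, hν1, map_one])
    obtain ⟨t, ht⟩ := sigma_fix hlF hσ1 (x := e / f ^ l) (by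
      rw [map_div₀, map_pow, hc, ← hcf, mul_pow]
      field_simp)
    have ht0 : t ≠ 0 := by
      rintro rfl
      rw [map_zero] at ht
      exact div_ne_zero he (pow_ne_zero l hf) ht.symm
    have hNf : algebraMap K2 F2 (Algebra.norm K2 f) ≠ 0 := by
      rw [Ne, map_eq_zero, Algebra.norm_eq_zero_iff]; exact hf
    -- the norm of `t`
    obtain ⟨T, hT⟩ : ∃ T, T = Algebra.norm K t := ⟨_, rfl⟩
    have hT0 : T ≠ 0 := by rw [hT, Ne, Algebra.norm_eq_zero_iff]; exact ht0
    have hTF : algebraMap K F2 T = (y / algebraMap K2 F2 (Algebra.norm K2 f)) ^ l := by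
      have h6 : algebraMap K K2 T = Algebra.norm K2 (e / f ^ l) := by
        rw [← ht, H68TK.norm_gen hfr hgen2, hT]
      rw [IsScalarTower.algebraMap_apply K K2 F2, h6, hNdiv _ _ (pow_ne_zero l hf), map_div₀,
        hy, map_pow, map_pow, div_pow]
    obtain ⟨n, hnn⟩ : ∃ n, n = Module.finrank K F := ⟨_, rfl⟩
    rw [← hnn] at hn
    obtain ⟨j, q, hjq⟩ : ∃ j q : ℕ, 1 + n * j = l * q := by
      have hcop : Nat.Coprime n l := ((Fact.out : l.Prime).coprime_iff_not_dvd.mpr hn).symm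
      obtain ⟨a, ha⟩ := Nat.exists_mul_mod_eq_one_of_coprime hcop (Fact.out : l.Prime).one_lt
      have h1l := (Fact.out : l.Prime).one_lt
      refine ⟨a * (l - 1), (1 + n * (a * (l - 1))) / l, ?_⟩
      rw [Nat.mul_div_cancel']
      obtain ⟨b, h7⟩ : ∃ b, n * a = l * b + 1 := ⟨n * a / l, by
        have := Nat.div_add_mod (n * a) l
        omega⟩
      have h8 : 1 + n * (a * (l - 1)) = l * (b * (l - 1) + 1) := by
        have h9 : n * (a * (l - 1)) = (n * a) * (l - 1) := by ring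
        rw [h9, h7]
        obtain ⟨l', hl'⟩ : ∃ l', l = l' + 1 := ⟨l - 1, by omega⟩
        rw [hl', Nat.add_sub_cancel]
        ring
      exact ⟨_, h8⟩
    obtain ⟨t', ht'⟩ : ∃ t', t' = t * (algebraMap K F T) ^ j := ⟨_, rfl⟩
    have hTF0 : algebraMap K F T ≠ 0 := by rw [Ne, map_eq_zero]; exact hT0
    have ht'0 : t' ≠ 0 := by rw [ht']; exact mul_ne_zero ht0 (pow_ne_zero j hTF0)
    have hNt' : Algebra.norm K t' = (T ^ q) ^ l := by
      rw [ht', map_mul, map_pow, Algebra.norm_algebraMap, ← hT, ← hnn, ← pow_mul, ← pow_mul,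
        mul_comm q l, ← hjq, pow_add, pow_one]
    -- `e` and `t'`
    obtain ⟨f', hf'⟩ : ∃ f', f' = f / (y / algebraMap K2 F2 (Algebra.norm K2 f)) ^ j := ⟨_, rfl⟩
    have hyN : y / algebraMap K2 F2 (Algebra.norm K2 f) ≠ 0 := div_ne_zero hy0 hNf
    have hf'0 : f' ≠ 0 := by rw [hf']; exact div_ne_zero hf (pow_ne_zero j hyN)
    have het : e = algebraMap F F2 t' * f' ^ l := by
      rw [ht', map_mul, map_pow, ← IsScalarTower.algebraMap_apply K F F2, hTF, ht, hf']
      clear hf' hTF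
      generalize y / algebraMap K2 F2 (Algebra.norm K2 f) = z at hyN
      rw [div_pow, ← pow_mul, ← pow_mul, mul_comm l j]
      field_simp
    have hvt : ∀ w : HeightOneSpectrum (𝓞 F), (l : ℤ) ∣ log (w.valuation F t') := by
      intro w
      rcases dvd_or (K := K) (K2 := K2) hlF hgen hd (t := t') w (fun W => by
        have e1 : algebraMap F F2 t' = e / f' ^ l := by rw [het]; field_simp
        rw [e1]
        exact dvd_log_div he (pow_ne_zero l hf'0) (hv W) (dvd_log_pow f')) with h | h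
      · have h1 : algebraMap K F (Algebra.norm K t') = ∏ g : F ≃ₐ[K] F, g t' :=
          Algebra.norm_eq_prod_automorphisms K t'
        have h2 : w.valuation F (∏ g : F ≃ₐ[K] F, g t') = w.valuation F t' ^ n := by
          rw [map_prod, Finset.prod_congr rfl (fun g _ => hfix w h g t'), Finset.prod_const,
            Finset.card_univ, ← Nat.card_eq_fintype_card, IsGalois.card_aut_eq_finrank, hnn]
        rw [← h1, hNt', map_pow, map_pow] at h2
        have h3 := congrArg log h2
        rw [log_pow, log_pow, nsmul_eq_mul, nsmul_eq_mul] at h3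
        have h4 : (l : ℤ) ∣ (n : ℤ) * log (w.valuation F t') := by
          rw [← h3]
          exact dvd_mul_right _ _
        rcases (Nat.prime_iff_prime_int.mp (Fact.out : l.Prime)).dvd_or_dvd h4 with h5 | h5
        · exact absurd (by exact_mod_cast h5) hn
        · exact h5
      · exact h
    have hlast : ∃ z, t' = z ^ l := by
      refine R t' ht'0 hvt ⟨algebraMap K F (T ^ q), by rw [hNt', map_pow]⟩ ?_ ?_
      · intro τ' hτ'
        obtain ⟨⟨τK, hτK⟩, τ2, hτ2, hx⟩ := hP τ' hτ'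
        obtain ⟨z, hz⟩ := hPe τ2 hτ2
        have hτt0 : τ' t' ≠ 0 := by rw [Ne, map_eq_zero]; exact ht'0
        have hτf0 : τ2 f' ≠ 0 := by rw [Ne, map_eq_zero]; exact hf'0
        obtain ⟨z', hz'⟩ := root_down (K2 := K2) (F2 := F2) (U := τ' t' / t')
          (u := z * f' / τ2 f') hfr hlF (by rw [← hnn]; exact hn) hgen2 hμ
          (div_ne_zero hτt0 ht'0) (by
          rw [map_div₀, ← hx, div_pow, mul_pow, eq_div_iff (pow_ne_zero l hτf0)]
          have h1 := hz
          rw [het, map_mul, map_pow] at h1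
          have hat0 : algebraMap F F2 t' ≠ 0 := by rw [Ne, map_eq_zero]; exact ht'0
          rw [div_mul_eq_mul_div, h1]
          field_simp) ⟨τK (T ^ q) / T ^ q, by
          have h1 : Algebra.norm K (τ' t') = τK (Algebra.norm K t') :=
            H68TK.norm_conj τ' τK hτK t'
          have hNt0 : Algebra.norm K t' ≠ 0 := by
            rw [Ne, Algebra.norm_eq_zero_iff]; exact ht'0
          have h2 : Algebra.norm K (τ' t' / t') * Algebra.norm K t' = Algebra.norm K (τ' t') := by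
            rw [← map_mul, div_mul_cancel₀ _ ht'0]
          rw [div_pow, ← map_pow, ← hNt', ← h1, ← h2, mul_div_cancel_right₀ _ hNt0]⟩
        refine ⟨z', ?_⟩
        rw [← hz']
        field_simp
      · obtain ⟨JK, hJK'⟩ := hJK
        have hJt0 : J t' ≠ 0 := by rw [Ne, map_eq_zero]; exact ht'0
        have hJf0 : J2 f' ≠ 0 := by rw [Ne, map_eq_zero]; exact hf'0
        obtain ⟨z', hz'⟩ := root_down (K2 := K2) (F2 := F2) (U := t' * J t')
          (u := z / (f' * J2 f')) hfr hlF (by rw [← hnn]; exact hn) hgen2 hμ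
          (mul_ne_zero ht'0 hJt0) (by
          rw [map_mul, ← hJ, div_pow, ← hz, het, map_mul, map_pow, mul_pow]
          field_simp) ⟨T ^ q * JK (T ^ q), by
          have h1 : Algebra.norm K (J t') = JK (Algebra.norm K t') :=
            H68TK.norm_conj J JK hJK' t'
          rw [map_mul, h1, hNt', map_pow JK, mul_pow]⟩
        exact ⟨z', hz'⟩
    obtain ⟨u, hu⟩ := hlast
    refine ⟨algebraMap F F2 u * f', ?_⟩
    rw [het, hu, map_pow, mul_pow]
  intro x hx hv hN hPx hJx
  have hσl : (σ : F2 ≃+* F2) ^ l = 1 := by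
    have h1 := sigma_pow hlF σ
    ext x
    have h2 := DFunLike.congr_fun h1 x
    have h3 : ∀ k : ℕ, ((σ : F2 ≃+* F2) ^ k) x = (σ ^ k) x := by
      intro k
      induction k with
      | zero => rfl
      | succ k ih =>
        rw [pow_succ', pow_succ']
        change (σ : F2 ≃+* F2) (((σ : F2 ≃+* F2) ^ k) x) = σ ((σ ^ k) x)
        rw [ih]
        rfl
    rw [h3, h2]
    rfl
  exact skeleton hl2 (σ : F2 ≃+* F2) hσl A (fun z hz => hz.1) hA hfix' x
    ⟨hx, hv, hN, hPx, hJx⟩

end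

end H68TL
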