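import Pool.Agent.H68.TL.ExtU
import Pool.Agent.H68.TL.Cyl

/-!
# MP_78d38b: the `l`-step for unramified characters
-/

set_option autoImplicit false
set_option linter.style.haveILetI false
open scoped Classical

open IsDedekindDomain NumberField Finset Pool.Agent.H10 H68IM

namespace H68TL

section

variable {F N : Type} [Field F] [NumberField F] [Field N] [NumberField N] [Algebra F N]
  [IsGalois ℚ N]

lemma galois_top : IsGalois F N := IsGalois.tower_top_of_isGalois ℚ F N

/-- The automorphisms fixing `F` act transitively on the primes above a prime of `F`. -/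
lemma exists_mp {P Q : Ideal (𝓞 N)} (hP : P.IsPrime) (hQ : Q.IsPrime)
    (h : ∀ x : 𝓞 F, algebraMap (𝓞 F) (𝓞 N) x ∈ P ↔ algebraMap (𝓞 F) (𝓞 N) x ∈ Q) :
    ∃ u ∈ Sg F N, mp u P = Q := by
  haveI := galois_top (F := F) (N := N)
  have hPQ : P.under (𝓞 F) = Q.under (𝓞 F) := by
    ext x
    exact h x
  obtain ⟨g, hg⟩ := Algebra.IsInvariant.exists_smul_of_under_eq (𝓞 F) (𝓞 N) (N ≃ₐ[F] N) P Q hPQ
  refine ⟨(g : N ≃+* N), fun x => g.commutes x, ?_⟩
  rw [hg]
  ext x
  rw [mem_mp, Ideal.mem_pointwise_smul_iff_inv_smul_mem]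
  rfl

omit [IsGalois ℚ N] [NumberField N] in
lemma mp_mul (t t' : N ≃+* N) (P : Ideal (𝓞 N)) : mp (t * t') P = mp t (mp t' P) := by
  ext x
  rw [mem_mp, mem_mp, mem_mp]
  have : RingOfIntegers.mapRingEquiv (t * t')⁻¹ x =
      RingOfIntegers.mapRingEquiv t'⁻¹ (RingOfIntegers.mapRingEquiv t⁻¹ x) := by
    apply RingOfIntegers.ext
    rw [mul_inv_rev]
    rfl
  rw [this]

end

section

variable {K F K2 F2 : Type} [Field K] [NumberField K] [Field F] [NumberField F]
  [Field K2] [NumberField K2] [Field F2] [NumberField F2]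
  [Algebra K F] [Algebra K K2] [Algebra K F2] [Algebra F F2] [Algebra K2 F2]
  [IsScalarTower K F F2] [IsScalarTower K K2 F2]

/-- The automorphisms over `K2` and over `F` commute. -/
lemma comm_galois [IsGalois K F] [IsGalois K K2]
    (hgen2 : IntermediateField.adjoin K2 (Set.range (algebraMap F F2)) = ⊤)
    (h : F2 ≃ₐ[K2] F2) (g : F2 ≃ₐ[F] F2) (x : F2) : h (g x) = g (h x) := by
  refine gen_mem hgen2 (RingHom.eqLocusField ((h : F2 →+* F2).comp (g : F2 →+* F2))
    ((g : F2 →+* F2).comp (h : F2 →+* F2))) (fun b => ?_) ?_ x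
  · change h (g (algebraMap K2 F2 b)) = g (h (algebraMap K2 F2 b))
    have h1 := AlgEquiv.restrictNormal_commutes (g.restrictScalars K) K2 b
    change _ = g (algebraMap K2 F2 b) at h1
    rw [← h1, h.commutes, h.commutes, h1]
  · rintro _ ⟨b, rfl⟩
    change h (g (algebraMap F F2 b)) = g (h (algebraMap F F2 b))
    have h1 := AlgEquiv.restrictNormal_commutes (h.restrictScalars K) F b
    change _ = h (algebraMap F F2 b) at h1
    rw [← h1, g.commutes, g.commutes, h1]

/-- The automorphisms over `F` of prime degree are powers of one of them. -/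
lemma powers_sigma {l : ℕ} [Fact l.Prime] [IsGalois F F2] (hlF : Module.finrank F F2 = l)
    {σ : F2 ≃ₐ[F] F2} (hσ : σ ≠ 1) (g : F2 ≃ₐ[F] F2) : ∃ i : ℕ, σ ^ i = g := by
  have hc : Nat.card (F2 ≃ₐ[F] F2) = l := by rw [IsGalois.card_aut_eq_finrank, hlF]
  have h1 : g ∈ Subgroup.zpowers σ := by
    rw [zpowers_eq_top_of_prime_card hc hσ]
    trivial
  rw [← mem_powers_iff_mem_zpowers] at h1
  exact h1

/-- An automorphism over `F` trivial on `K2` is trivial. -/
lemma eq_one_of_fix (hgen2 : IntermediateField.adjoin K2 (Set.range (algebraMap F F2)) = ⊤)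
    (g : F2 ≃ₐ[F] F2) (h : ∀ x : K2, g (algebraMap K2 F2 x) = algebraMap K2 F2 x) : g = 1 := by
  ext x
  refine gen_mem hgen2 (RingHom.eqLocusField (g : F2 →+* F2) (RingHom.id F2)) (fun b => h b) ?_ x
  rintro _ ⟨b, rfl⟩
  exact g.commutes b

/-- The `l`-step for unramified characters. -/
theorem noUnr_step [IsGalois K F] [IsGalois K K2] [IsGalois F F2] [IsGalois K2 F2] {l : ℕ}
    [Fact l.Prime] (hl2 : l ≠ 2) (hfr : Module.finrank K2 F2 = Module.finrank K F)
    (hlF : Module.finrank F F2 = l) (hn : ¬ l ∣ Module.finrank K F)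
    (hgen2 : IntermediateField.adjoin K2 (Set.range (algebraMap F F2)) = ⊤)
    {δ : 𝓞 K2} {m : ℤ} (hd : Dlt K K2 δ m) (hfix : FixP m K F)
    {J : F ≃+* F} {J2 : F2 ≃+* F2}
    (hJ : ∀ x, J2 (algebraMap F F2 x) = algebraMap F F2 (J x)) (hJJ : ∀ x, J (J x) = x)
    (hcJ : ∀ (σ : F2 ≃ₐ[F] F2) (x : F2), J2 (σ x) = σ (J2 x))
    (hcH : ∀ (h : F2 ≃ₐ[K2] F2) (x : F2), J2 (h x) = h (J2 x))
    (R : NoUnr l K F J) : NoUnr l K2 F2 J2 := by
  intro N _ _ _ _ a haU haJ haH
  letI : Algebra F N := ((algebraMap F2 N).comp (algebraMap F F2)).toAlgebra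
  haveI : IsScalarTower F F2 N := IsScalarTower.of_algebraMap_eq fun x => rfl
  have hFN : ∀ x : F, algebraMap F N x = algebraMap F2 N (algebraMap F F2 x) := fun x => rfl
  obtain ⟨σ, hσ1⟩ := exists_sigma hlF
  obtain ⟨s, hs⟩ := exists_ext (N := N) (σ : F2 ≃+* F2)
  -- extensions of automorphisms over `F`
  have hdown : ∀ {t : N ≃+* N} {g : F2 ≃+* F2} {g' : F ≃+* F}, Ext t g →
      (∀ x, g (algebraMap F F2 x) = algebraMap F F2 (g' x)) → Ext t g' := by
    intro t g g' h1 h2 x
    rw [hFN, h1, h2, ← hFN]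
  have hle : Sg F2 N ≤ Sg F N := by
    intro u hu x
    rw [hFN]
    exact hu _
  have hres : ∀ g ∈ Sg F N, ∃ γ : F2 ≃ₐ[F] F2, Ext g (γ : F2 ≃+* F2) := by
    intro g hg
    haveI := galois_top (F := F) (N := N)
    let g' : N ≃ₐ[F] N := AlgEquiv.ofRingEquiv (f := g) hg
    exact ⟨g'.restrictNormal F2, fun x => (AlgEquiv.restrictNormal_commutes g' F2 x).symm⟩
  have hspow : ∀ i : ℕ, Ext (s ^ i) ((σ ^ i : F2 ≃ₐ[F] F2) : F2 ≃+* F2) := by
    intro i
    induction i with
    | zero => exact Ext.one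
    | succ i ih =>
      have := ih.mul hs
      rw [pow_succ, pow_succ]
      exact this
  have hsS : s ∈ Sg F N := by
    intro x
    rw [hFN, hs]
    exact congrArg _ (σ.commutes x)
  have hex : ∀ g ∈ Sg F N, ∃ i : ℕ, (s ^ i)⁻¹ * g ∈ Sg F2 N := by
    intro g hg
    obtain ⟨γ, hγ⟩ := hres g hg
    obtain ⟨i, rfl⟩ := powers_sigma hlF hσ1 γ
    exact ⟨i, hγ.div (hspow i)⟩
  have hordσ : orderOf σ = l := by
    have h1 := orderOf_dvd_of_pow_eq_one (sigma_pow hlF σ)
    exact ((Nat.dvd_prime (Fact.out : l.Prime)).mp h1).resolve_left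
      (fun h2 => hσ1 (orderOf_eq_one_iff.mp h2))
  have hl : ∀ i : ℕ, s ^ i ∈ Sg F2 N → l ∣ i := by
    intro i hi
    have h1 : ((σ ^ i : F2 ≃ₐ[F] F2) : F2 ≃+* F2) = 1 := (hspow i).unique (ext_of_mem hi)
    rw [← hordσ]
    apply orderOf_dvd_of_pow_eq_one
    ext x
    exact congrArg (fun e : F2 ≃+* F2 => e x) h1
  have hsl : s ^ l ∈ Sg F2 N := by
    have h1 := hspow l
    rw [sigma_pow hlF σ] at h1
    exact h1
  have hn' : ∀ u ∈ Sg F2 N, s⁻¹ * u * s ∈ Sg F2 N := by
    intro u hu
    have := hs.inv.conj hu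
    rwa [inv_inv] at this
  have hcomm := comm_galois (K := K) (F := F) (K2 := K2) (F2 := F2) hgen2
  -- the reduction
  have hfin := reduce_inv (l := l) (S2 := Sg F2 N) (s := s) hsl
    (fun a => UnrC l F2 a ∧ (∀ t : N ≃+* N, Ext t J2 → ∀ u, Fx F2 u → a (t * u * t⁻¹) = -a u) ∧
      (∀ r : (F2 ≃ₐ[K2] F2) → (N ≃+* N), (∀ h, Ext (r h) (h : F2 ≃+* F2)) → ∀ u, Fx F2 u →
      ∑ h, a (r h * u * (r h)⁻¹) = 0)) ?_ (fun a ha u hu v hv => ha.1.mul u v hu hv) ?_ a ⟨haU, haJ, haH⟩
  · intro u hu
    exact hfin u hu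
  · -- stability
    rintro a ⟨h1, h2, h3⟩
    refine ⟨⟨?_, ?_⟩, ?_, ?_⟩
    · intro u v hu hv
      have e : s * (u * v) * s⁻¹ = (s * u * s⁻¹) * (s * v * s⁻¹) := by group
      change a (s * (u * v) * s⁻¹) - a (u * v) = _
      rw [e, h1.mul _ _ (hs.conj hu) (hs.conj hv), h1.mul _ _ hu hv]
      ring
    · intro P hP hP0 u hu hI
      change a (s * u * s⁻¹) - a u = 0
      rw [h1.unr P hP hP0 u hu hI,
        h1.unr (mp s P) (mp_prime hP) (mp_ne_bot hP0) _ (hs.conj hu) hI.conj, sub_zero]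
    · intro t ht u hu
      change a (s * (t * u * t⁻¹) * s⁻¹) - a (t * u * t⁻¹) = -(a (s * u * s⁻¹) - a u)
      have ht' : Ext (s * t * s⁻¹) J2 := by
        have h4 := (hs.mul ht).mul hs.inv
        have h5 : (σ : F2 ≃+* F2) * J2 * (σ : F2 ≃+* F2)⁻¹ = J2 := by
          rw [mul_inv_eq_iff_eq_mul]
          ext x
          exact (hcJ σ x).symm
        rw [h5] at h4
        exact h4
      have e : s * (t * u * t⁻¹) * s⁻¹ = (s * t * s⁻¹) * (s * u * s⁻¹) * (s * t * s⁻¹)⁻¹ := by
        group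
      rw [e, h2 _ ht' _ (hs.conj hu), h2 t ht u hu]
      ring
    · intro r hr u hu
      change ∑ h, (a (s * (r h * u * (r h)⁻¹) * s⁻¹) - a (r h * u * (r h)⁻¹)) = 0
      rw [Finset.sum_sub_distrib, h3 r hr u hu, sub_zero, ← h3 (fun h => s * r h * s⁻¹) ?_ _
        (hs.conj hu)]
      · refine Finset.sum_congr rfl fun h _ => ?_
        congr 1
        group
      · intro h
        have h4 := (hs.mul (hr h)).mul hs.inv
        have h5 : (σ : F2 ≃+* F2) * (h : F2 ≃+* F2) * (σ : F2 ≃+* F2)⁻¹ = (h : F2 ≃+* F2) := by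
          rw [mul_inv_eq_iff_eq_mul]
          ext x
          exact (hcomm h σ x).symm
        rw [h5] at h4
        exact h4
  · -- the invariant case
    rintro a ⟨h1, h2, h3⟩ hinv
    have hinv' : ∀ u ∈ Sg F2 N, a (s⁻¹ * u * s) = a u := by
      intro u hu
      have h4 := hinv _ (hn' u hu)
      have e : s * (s⁻¹ * u * s) * s⁻¹ = u := by group
      rw [e] at h4
      exact h4.symm
    obtain ⟨t0, ht0⟩ := exists_ext (N := N) J2
    choose r0 hr0 using fun h : F2 ≃ₐ[K2] F2 => exists_ext (N := N) (h : F2 ≃+* F2)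
    have ht0F : Ext t0 J := hdown ht0 hJ
    -- the restriction to `F`
    let ρ : (F2 ≃ₐ[K2] F2) → (F ≃ₐ[K] F) := fun h => (h.restrictScalars K).restrictNormal F
    have hρ : ∀ h x, h (algebraMap F F2 x) = algebraMap F F2 (ρ h x) := fun h x =>
      (AlgEquiv.restrictNormal_commutes (h.restrictScalars K) F x).symm
    have hr0F : ∀ h, Ext (r0 h) ((ρ h : F ≃ₐ[K] F) : F ≃+* F) := fun h => hdown (hr0 h) (hρ h)
    have htt : t0 * t0 ∈ Sg F N := by
      have h4 := ht0F.mul ht0F
      have h5 : J * J = 1 := by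
        ext x
        exact hJJ x
      rw [h5] at h4
      exact h4
    have hts : ∃ u ∈ Sg F2 N, t0 * s * t0⁻¹ = s * u := by
      refine ⟨s⁻¹ * (t0 * s * t0⁻¹), ?_, by group⟩
      have h4 := hs.inv.mul ((ht0.mul hs).mul ht0.inv)
      have h5 : (σ : F2 ≃+* F2)⁻¹ * (J2 * (σ : F2 ≃+* F2) * J2⁻¹) = 1 := by
        rw [inv_mul_eq_one, eq_mul_inv_iff_mul_eq]
        ext x
        exact (hcJ σ x).symm
      rw [h5] at h4
      exact h4
    have he : ∀ h, ∃ c ∈ Sg F N, r0 h * t0 = t0 * (c * r0 (Equiv.refl _ h)) := by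
      intro h
      refine ⟨t0⁻¹ * r0 h * t0 * (r0 h)⁻¹, ?_, ?_⟩
      · have h4 := ((ht0.inv.mul (hr0 h)).mul ht0).mul (hr0 h).inv
        have h5 : J2⁻¹ * (h : F2 ≃+* F2) * J2 * (h : F2 ≃+* F2)⁻¹ = 1 := by
          rw [mul_inv_eq_one, mul_assoc, inv_mul_eq_iff_eq_mul]
          ext x
          exact (hcH h x).symm
        rw [h5] at h4
        exact hle h4
      · change r0 h * t0 = t0 * (t0⁻¹ * r0 h * t0 * (r0 h)⁻¹ * r0 h)
        group
    obtain ⟨b, hb1, hb2, hb3, hb4⟩ := extend_minus (l := l) hl2 hle hsS hex hl hsl hn' (t := t0)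
      (fun u hu => ht0F.conj hu) htt hts (fun u hu v hv => h1.mul u v hu hv) hinv'
      (fun u hu => h2 t0 ht0 u hu)
      (fun u hu => ht0.conj hu) (r := r0) (fun h u hu => (hr0F h).conj hu)
      (fun h u hu => (hr0 h).conj hu) (fun u hu => h3 r0 hr0 u hu) ⟨Equiv.refl _, he⟩
    -- `R` applies to `b`
    have hb0 : ∀ u, Fx F u → b u = 0 := by
      refine R N b ⟨fun u v hu hv => hb2 u hu v hv, ?_⟩ ?_ ?_
      · intro P hP hP0 u hu hI
        obtain ⟨γ, hγ⟩ := hres u hu
        by_cases hmP : (m : 𝓞 N) ∈ P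
        · -- the ramified case
          have hcontr : ∀ h : F2 ≃ₐ[K2] F2, ∃ c ∈ Sg F N, mp c (mp (r0 h) P) = P := by
            intro h
            refine exists_mp (mp_prime hP) hP fun x => ?_
            have hbot : P.under (𝓞 F) ≠ ⊥ := Ideal.IsIntegral.comap_ne_bot _ hP0
            let w : HeightOneSpectrum (𝓞 F) := ⟨P.under (𝓞 F), inferInstance, hbot⟩
            have hw : ∀ y : 𝓞 F, algebraMap (𝓞 F) (𝓞 N) y ∈ P ↔ w.valuation F (y : F) < 1 := by
              intro y
              rw [HeightOneSpectrum.valuation_lt_one_iff_mem]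
              rfl
            have hmw : (m : 𝓞 F) ∈ w.asIdeal := by
              change algebraMap (𝓞 F) (𝓞 N) (m : 𝓞 F) ∈ P
              rw [map_intCast]
              exact hmP
            have h4 := hfix w hmw (ρ h)⁻¹ (x : F)
            rw [mem_mp]
            have h5 : RingOfIntegers.mapRingEquiv (r0 h)⁻¹ (algebraMap (𝓞 F) (𝓞 N) x) =
                algebraMap (𝓞 F) (𝓞 N) (RingOfIntegers.mapRingEquiv
                  (((ρ h)⁻¹ : F ≃ₐ[K] F) : F ≃+* F) x) := by
              apply RingOfIntegers.ext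
              exact (hr0F h).inv (x : F)
            rw [h5, hw, hw]
            change w.valuation F ((ρ h)⁻¹ (x : F)) < 1 ↔ _
            rw [h4]
          choose c hcS hcP using hcontr
          have hr1 : ∀ h, b ((c h * r0 h) * u * (c h * r0 h)⁻¹) = b u := by
            intro h
            have hv2 : (c h * r0 h) * u * (c h * r0 h)⁻¹ * u⁻¹ ∈ Sg F2 N := by
              obtain ⟨κ, hκ⟩ := hres (c h) (hcS h)
              have h4 := (((hκ.mul (hr0 h)).mul hγ).mul (hκ.mul (hr0 h)).inv).mul hγ.inv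
              have h5 : (κ : F2 ≃+* F2) * (h : F2 ≃+* F2) * (γ : F2 ≃+* F2) *
                  ((κ : F2 ≃+* F2) * (h : F2 ≃+* F2))⁻¹ * (γ : F2 ≃+* F2)⁻¹ = 1 := by
                rw [mul_inv_eq_one, mul_inv_eq_iff_eq_mul]
                obtain ⟨i, rfl⟩ := powers_sigma hlF hσ1 γ
                obtain ⟨j, rfl⟩ := powers_sigma hlF hσ1 κ
                have h6 : ∀ x, (σ ^ j) ((σ ^ i) x) = (σ ^ i) ((σ ^ j) x) := by
                  intro x
                  rw [← AlgEquiv.mul_apply, ← AlgEquiv.mul_apply, pow_mul_comm]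
                ext x
                change (σ ^ j) (h ((σ ^ i) x)) = (σ ^ i) ((σ ^ j) (h x))
                rw [hcomm, h6]
              rw [h5] at h4
              exact h4
            have hvI : InI P ((c h * r0 h) * u * (c h * r0 h)⁻¹ * u⁻¹) := by
              refine InI.mul ?_ hI.inv
              have h4 := hI.conj (t := c h * r0 h)
              rw [mp_mul, hcP] at h4
              exact h4
            have h5 : b ((c h * r0 h) * u * (c h * r0 h)⁻¹ * u⁻¹) = 0 := by
              rw [hb1 _ hv2]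
              exact h1.unr P hP hP0 _ hv2 hvI
            have e : (c h * r0 h) * u * (c h * r0 h)⁻¹ =
                ((c h * r0 h) * u * (c h * r0 h)⁻¹ * u⁻¹) * u := by group
            rw [e, hb2 _ (hle hv2) _ hu, h5, zero_add]
          have hr2 : ∀ h, b (r0 h * u * (r0 h)⁻¹) = b u := by
            intro h
            rw [← hr1 h]
            have e : (c h * r0 h) * u * (c h * r0 h)⁻¹ = c h * (r0 h * u * (r0 h)⁻¹) * (c h)⁻¹ := by
              group
            rw [e, hb2.conj (hcS h) ((hr0F h).conj hu)]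
          have h4 := hb4 u hu
          rw [Finset.sum_congr rfl (fun h _ => hr2 h), Finset.sum_const, nsmul_eq_mul,
            Finset.card_univ, ← Nat.card_eq_fintype_card, IsGalois.card_aut_eq_finrank, hfr] at h4
          refine (mul_eq_zero.mp h4).resolve_left fun h5 => hn ?_
          rwa [ZMod.natCast_eq_zero_iff] at h5
        · -- the unramified case
          have hγ1 : γ = 1 := by
            by_contra hne
            apply hmP
            let τ : K2 ≃ₐ[K] K2 := (γ.restrictScalars K).restrictNormal K2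
            have hτ : ∀ x : K2, γ (algebraMap K2 F2 x) = algebraMap K2 F2 (τ x) := fun x =>
              (AlgEquiv.restrictNormal_commutes (γ.restrictScalars K) K2 x).symm
            have hτ1 : τ ≠ 1 := by
              intro h4
              apply hne
              refine eq_one_of_fix hgen2 γ fun x => ?_
              rw [hτ, h4]
              rfl
            obtain ⟨c, hc⟩ := hd τ hτ1
            let δ' : 𝓞 N := algebraMap (𝓞 F2) (𝓞 N) (algebraMap (𝓞 K2) (𝓞 F2) δ)
            let c' : 𝓞 N := algebraMap (𝓞 F2) (𝓞 N) (algebraMap (𝓞 K2) (𝓞 F2) c)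
            obtain ⟨y, hy, h5⟩ := hI δ'
            have h6 : u (δ' : N) = algebraMap F2 N (algebraMap K2 F2 (τ (δ : K2))) := by
              rw [← hτ]
              exact hγ _
            have h7 : (m : 𝓞 N) = y * c' := by
              apply RingOfIntegers.ext
              have h8 : ((m : 𝓞 N) : N) = algebraMap F2 N (algebraMap K2 F2 (m : K2)) := by
                rw [map_intCast, map_intCast]
                exact map_intCast _ m
              have h9 : (y : N) = algebraMap F2 N (algebraMap K2 F2 (τ (δ : K2))) - (δ' : N) := by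
                rw [← h6, h5]
                ring
              change ((m : 𝓞 N) : N) = (y : N) * (c' : N)
              rw [h8, ← hc, map_mul, map_mul, map_sub, map_sub, h9]
              rfl
            rw [h7]
            exact P.mul_mem_right _ hy
          have hu2 : u ∈ Sg F2 N := by
            rw [hγ1] at hγ
            exact hγ
          rw [hb1 u hu2]
          exact h1.unr P hP hP0 u hu2 hI
      · intro t ht u hu
        have hc := ht.div ht0F
        have e : t * u * t⁻¹ = t0 * ((t0⁻¹ * t) * u * (t0⁻¹ * t)⁻¹) * t0⁻¹ := by group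
        rw [e, hb3 _ ((Sg F N).mul_mem ((Sg F N).mul_mem hc hu) ((Sg F N).inv_mem hc)),
          hb2.conj hc hu]
      · intro r hr u hu
        have hρb : Function.Bijective ρ := by
          have hinj : Function.Injective ρ := by
            intro h h' hh
            have h6 : h'⁻¹ * h = 1 := by
              ext x
              refine gen_mem hgen2 (RingHom.eqLocusField
                ((h'⁻¹ * h : F2 ≃ₐ[K2] F2) : F2 →+* F2) (RingHom.id F2)) (fun b => ?_) ?_ x
              · exact (h'⁻¹ * h).commutes b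
              · rintro _ ⟨b, rfl⟩
                change h'.symm (h (algebraMap F F2 b)) = algebraMap F F2 b
                rw [AlgEquiv.symm_apply_eq, hρ, hρ, hh]
            exact (inv_mul_eq_one.mp h6).symm
          rw [Fintype.bijective_iff_injective_and_card]
          refine ⟨hinj, ?_⟩
          rw [← Nat.card_eq_fintype_card, ← Nat.card_eq_fintype_card,
            IsGalois.card_aut_eq_finrank, IsGalois.card_aut_eq_finrank, hfr]
        rw [← Equiv.sum_comp (Equiv.ofBijective ρ hρb)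
          (fun h => b (r h * u * (r h)⁻¹)), ← hb4 u hu]
        refine Finset.sum_congr rfl fun h _ => ?_
        change b (r (ρ h) * u * (r (ρ h))⁻¹) = _
        have hc : r (ρ h) * (r0 h)⁻¹ ∈ Sg F N := by
          have h4 := (hr (ρ h)).mul (hr0F h).inv
          rw [mul_inv_cancel] at h4
          exact h4
        have e : r (ρ h) * u * (r (ρ h))⁻¹ =
            (r (ρ h) * (r0 h)⁻¹) * (r0 h * u * (r0 h)⁻¹) * (r (ρ h) * (r0 h)⁻¹)⁻¹ := by group
        rw [e, hb2.conj hc ((hr0F h).conj hu)]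
    intro u hu
    rw [← hb1 u hu]
    exact hb0 u (hle hu)

end

end H68TL
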