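import Pool.Agent.H68.TL.Ccy
import Pool.Agent.H68.TL.Dfm

/-!
ROW Una (the subgroup `H` and the element `τ`; about 150 lines).  PROOF.  `F` is cyclotomic of conductor `M p^(n+1)`, `kp` is an isomorphism of `Gal(F/ℚ)` with `(ℤ/M p^(n+1))ˣ` (`IsCyclotomicExtension.Rat.galEquivZMod`).
`exists_h0`: `H = {g | InH g}` is (by `kp`) the kernel of `(ℤ/M p^(n+1))ˣ → (ℤ/M p^(m+1))ˣ` (`ZMod.unitsMap`). The map `H → (ℤ/p^(n+1))ˣ` (`ZMod.unitsMap (dvd_mul_left _ _)`) is injective: a unit which is `1` modulo `M p^(m+1)`, so modulo `M`, and `1` modulo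
`p^(n+1)` is `1` (`M`, `p^(n+1)` coprime: `Nat.Coprime.mul_dvd_of_dvd_of_dvd` on `x.val - 1`, or `ZMod.chineseRemainder`; see `Ct_crt` in `Pool/Agent/H55/T3/Ct.lean`). `(ℤ/p^(n+1))ˣ` is cyclic, `p` odd (`ZMod.isCyclic_units_iff` and similar), so `H` is
cyclic (`isCyclic_of_injective`): `h0` a generator; `g ∈ H` iff `g = h0^k` with `k < orderOf h0` (`Subgroup.mem_zpowers_iff`, finite order: `mem_powers_iff_mem_range_orderOf`). `orderOf h0` is a power of `p`: `h0^(p^(n-m)) = 1` as it is `1` modulo `M`, and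
modulo `p^(n+1)`: `x = 1` modulo `p^(m+1)` implies `x^(p^k) = 1` modulo `p^(m+1+k)` (induction: `dvd_sub_pow_of_dvd_sub`, `Nat.dvd_prime_pow`).
`exists_tau`: a unit `x` modulo `M p^(n+1)` with `x = 1` modulo `M`, `x = -1` modulo `p^(n+1)` (Chinese remainder theorem, `Nat.chineseRemainder`, as in `Ct_crt`; unique); `τ = kp⁻¹ x`, `τ² = 1`. `J τ` is `-1` modulo `M`; `-1 ≠ 1` modulo `M` since `l ∣ M`,
`l ≥ 3`; `(J τ)² = 1`: order two (`orderOf_eq_prime`). `J² = 1`, `J ≠ 1` in the same way.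
-/

set_option autoImplicit false
open scoped Classical

open IsDedekindDomain NumberField H78M

namespace H68TL

theorem Una_map {N d a : ℕ} (hd : d ∣ N) (x : (ZMod N)ˣ) (ha : (a : ZMod N) = x) :
    ((ZMod.unitsMap hd x : (ZMod d)ˣ) : ZMod d) = (a : ZMod d) := by
  rw [ZMod.unitsMap_def, Units.coe_map, MonoidHom.coe_coe, ← ha, map_natCast]

theorem Una_comp {N m d : ℕ} (h1 : m ∣ N) (h2 : d ∣ m) (x : (ZMod N)ˣ) :
    ZMod.unitsMap h2 (ZMod.unitsMap h1 x) = ZMod.unitsMap (h2.trans h1) x := by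
  rw [← MonoidHom.comp_apply, ZMod.unitsMap_comp]

theorem Una_inj {M P : ℕ} [NeZero M] [NeZero P] (hc : Nat.Coprime M P) (x y : (ZMod (M * P))ˣ)
    (h1 : ZMod.unitsMap (dvd_mul_right M P) x = ZMod.unitsMap (dvd_mul_right M P) y)
    (h2 : ZMod.unitsMap (dvd_mul_left P M) x = ZMod.unitsMap (dvd_mul_left P M) y) : x = y := by
  have : NeZero (M * P) := ⟨mul_ne_zero (NeZero.ne M) (NeZero.ne P)⟩
  have hx : (((x : ZMod (M * P)).val : ℕ) : ZMod (M * P)) = x := ZMod.natCast_zmod_val _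
  have hy : (((y : ZMod (M * P)).val : ℕ) : ZMod (M * P)) = y := ZMod.natCast_zmod_val _
  have e1 := congrArg (fun w : (ZMod M)ˣ => (w : ZMod M)) h1
  have e2 := congrArg (fun w : (ZMod P)ˣ => (w : ZMod P)) h2
  rw [Una_map _ x hx, Una_map _ y hy, ZMod.natCast_eq_natCast_iff] at e1 e2
  apply Units.ext
  rw [← hx, ← hy, ZMod.natCast_eq_natCast_iff]
  exact (Nat.modEq_and_modEq_iff_modEq_mul hc).1 ⟨e1, e2⟩

theorem Una_neg {l M : ℕ} [Fact l.Prime] (hl2 : l ≠ 2) (hlM : l ∣ M) : (-1 : (ZMod M)ˣ) ≠ 1 := by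
  intro h
  have hl : l.Prime := Fact.out
  have h1 := congrArg (ZMod.unitsMap hlM) h
  rw [map_one] at h1
  have h2 := congrArg (fun w : (ZMod l)ˣ => (w : ZMod l)) h1
  simp only [Units.val_one] at h2
  rw [ZMod.unitsMap_def, Units.coe_map, MonoidHom.coe_coe, Units.val_neg, Units.val_one, map_neg,
    map_one] at h2
  have h3 : ((2 : ℕ) : ZMod l) = 0 := by
    have : (2 : ZMod l) = 1 - (-1) := by ring
    rw [Nat.cast_ofNat, this, h2, sub_self]
  rw [ZMod.natCast_eq_zero_iff] at h3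
  have h4 := Nat.le_of_dvd two_pos h3
  have h5 := hl.two_le
  omega

/-- a unit modulo `p^(n+1)` which is `1` modulo `p` has order dividing `p^n` -/
theorem Una_pow {p n : ℕ} [Fact p.Prime] (x : (ZMod (p ^ (n + 1)))ˣ)
    (h : ZMod.unitsMap (dvd_pow_self p (Nat.succ_ne_zero n)) x = 1) : x ^ p ^ n = 1 := by
  have hp : p.Prime := Fact.out
  have : NeZero (p ^ (n + 1)) := ⟨(pow_pos hp.pos _).ne'⟩
  have hx : (((x : ZMod (p ^ (n + 1))).val : ℕ) : ZMod (p ^ (n + 1))) = x := ZMod.natCast_zmod_val _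
  have e1 := congrArg (fun w : (ZMod p)ˣ => (w : ZMod p)) h
  simp only [Units.val_one] at e1
  rw [Una_map _ x hx] at e1
  have e2 : (p : ℤ) ∣ (((x : ZMod (p ^ (n + 1))).val : ℕ) : ℤ) - 1 := by
    rw [← ZMod.intCast_eq_intCast_iff_dvd_sub]
    push_cast
    exact e1.symm
  have e3 := dvd_sub_pow_of_dvd_sub e2 n
  rw [one_pow] at e3
  apply Units.ext
  rw [Units.val_pow_eq_pow_val, Units.val_one, ← hx]
  have e4 : ((p ^ (n + 1) : ℕ) : ℤ) ∣ (((x : ZMod (p ^ (n + 1))).val : ℕ) : ℤ) ^ p ^ n - 1 := by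
    push_cast
    exact e3
  rw [← ZMod.intCast_eq_intCast_iff_dvd_sub] at e4
  push_cast at e4
  exact e4.symm

theorem exists_h0 {p M m n : ℕ} [Fact p.Prime] [NeZero M] (hp2 : p ≠ 2) (hpM : p.Coprime M)
    (hmn : m ≤ n) (F : Type) [Field F] [NumberField F]
    [IsCyclotomicExtension {M * p ^ (n + 1)} ℚ F] :
    ∃ h0 : F ≃ₐ[ℚ] F, (∃ j : ℕ, orderOf h0 = p ^ j) ∧
      ∀ g : F ≃ₐ[ℚ] F, InH p M m n hmn g ↔ ∃ k < orderOf h0, g = h0 ^ k := by
  have hp : p.Prime := Fact.out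
  have : NeZero (p ^ (n + 1)) := ⟨(pow_pos hp.pos _).ne'⟩
  have hcop : Nat.Coprime M (p ^ (n + 1)) := (hpM.symm).pow_right _
  obtain ⟨e, he⟩ : ∃ e : (F ≃ₐ[ℚ] F) ≃* (ZMod (M * p ^ (n + 1)))ˣ, ∀ g, e g = kp (M * p ^ (n + 1)) g :=
    ⟨IsCyclotomicExtension.Rat.galEquivZMod (M * p ^ (n + 1)) F, fun _ => rfl⟩
  have hd := Nat.mul_dvd_mul_left M (pow_dvd_pow p (Nat.succ_le_succ hmn))
  obtain ⟨S, hS⟩ : ∃ S : Subgroup (ZMod (M * p ^ (n + 1)))ˣ, S = (ZMod.unitsMap hd).ker := ⟨_, rfl⟩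
  have hSm : ∀ x, x ∈ S ↔ ZMod.unitsMap hd x = 1 := by
    intro x
    rw [hS, MonoidHom.mem_ker]
  have hSM : ∀ x ∈ S, ZMod.unitsMap (dvd_mul_right M (p ^ (n + 1))) x = 1 := by
    intro x hx
    have h1 := congrArg (ZMod.unitsMap (dvd_mul_right M (p ^ (m + 1)))) ((hSm x).1 hx)
    rw [Una_comp, map_one] at h1
    exact h1
  have hSp : ∀ x ∈ S, ZMod.unitsMap (dvd_pow_self p (Nat.succ_ne_zero n))
      (ZMod.unitsMap (dvd_mul_left (p ^ (n + 1)) M) x) = 1 := by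
    intro x hx
    have h1 := congrArg (ZMod.unitsMap
      ((dvd_pow_self p (Nat.succ_ne_zero m)).trans (dvd_mul_left (p ^ (m + 1)) M))) ((hSm x).1 hx)
    rw [Una_comp, map_one] at h1
    rw [Una_comp]
    exact h1
  have hcyc : IsCyclic (ZMod (p ^ (n + 1)))ˣ := ZMod.isCyclic_units_of_prime_pow p hp hp2 (n + 1)
  have hcS : IsCyclic S := by
    refine isCyclic_of_injective ((ZMod.unitsMap (dvd_mul_left (p ^ (n + 1)) M)).comp S.subtype) ?_
    intro x y hxy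
    apply Subtype.ext
    refine Una_inj hcop _ _ ?_ hxy
    rw [hSM _ x.2, hSM _ y.2]
  obtain ⟨g, hg⟩ := hcS.exists_generator
  have hgS : ∀ x, x ∈ S ↔ ∃ k < orderOf (g : (ZMod (M * p ^ (n + 1)))ˣ),
      x = (g : (ZMod (M * p ^ (n + 1)))ˣ) ^ k := by
    intro x
    constructor
    · intro hx
      have h1 := hg ⟨x, hx⟩
      rw [mem_zpowers_iff_mem_range_orderOf, Finset.mem_image] at h1
      obtain ⟨k, hk, hkx⟩ := h1
      refine ⟨k, ?_, ?_⟩
      · rw [Subgroup.orderOf_coe]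
        exact Finset.mem_range.1 hk
      · have h2 := congrArg Subtype.val hkx
        exact h2.symm
    · rintro ⟨k, -, rfl⟩
      exact S.pow_mem g.2 k
  refine ⟨e.symm g, ?_, ?_⟩
  · have h1 : (g : (ZMod (M * p ^ (n + 1)))ˣ) ^ p ^ n = 1 := by
      refine Una_inj hcop _ _ ?_ ?_
      · rw [map_pow, hSM _ g.2, one_pow, map_one]
      · rw [map_pow, Una_pow _ (hSp _ g.2), map_one]
    have h2 : orderOf (e.symm (g : (ZMod (M * p ^ (n + 1)))ˣ)) =
        orderOf (g : (ZMod (M * p ^ (n + 1)))ˣ) := MulEquiv.orderOf_eq e.symm _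
    rw [h2]
    obtain ⟨j, -, hj⟩ := (Nat.dvd_prime_pow hp).1 (orderOf_dvd_of_pow_eq_one h1)
    exact ⟨j, hj⟩
  · intro x
    have h1 : InH p M m n hmn x ↔ e x ∈ S := by
      rw [hSm, he]
      exact Iff.rfl
    have h2 : orderOf (e.symm (g : (ZMod (M * p ^ (n + 1)))ˣ)) =
        orderOf (g : (ZMod (M * p ^ (n + 1)))ˣ) := MulEquiv.orderOf_eq e.symm _
    rw [h1, hgS, h2]
    constructor
    · rintro ⟨k, hk, hx⟩
      refine ⟨k, hk, ?_⟩
      rw [← map_pow, ← hx, MulEquiv.symm_apply_apply]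
    · rintro ⟨k, hk, hx⟩
      refine ⟨k, hk, ?_⟩
      rw [hx, map_pow, MulEquiv.apply_symm_apply]

theorem exists_tau {l p M n : ℕ} [Fact l.Prime] [Fact p.Prime] [NeZero M] (hl2 : l ≠ 2)
    (hlM : l ∣ M) (hpM : p.Coprime M) (F : Type) [Field F] [NumberField F]
    [IsCyclotomicExtension {M * p ^ (n + 1)} ℚ F] {J : F ≃ₐ[ℚ] F}
    (hJ : kp (M * p ^ (n + 1)) J = -1) :
    ∃ τ : F ≃ₐ[ℚ] F, IsTau p M n τ ∧ (∀ g : F ≃ₐ[ℚ] F, IsTau p M n g → g = τ) ∧ τ * τ = 1 ∧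
      orderOf (J * τ) = 2 ∧ orderOf J = 2 ∧ ∀ g g' : F ≃ₐ[ℚ] F, g * g' = g' * g := by
  have hp : p.Prime := Fact.out
  have : NeZero (p ^ (n + 1)) := ⟨(pow_pos hp.pos _).ne'⟩
  have hcop : Nat.Coprime M (p ^ (n + 1)) := (hpM.symm).pow_right _
  obtain ⟨e, he⟩ : ∃ e : (F ≃ₐ[ℚ] F) ≃* (ZMod (M * p ^ (n + 1)))ˣ, ∀ g, e g = kp (M * p ^ (n + 1)) g :=
    ⟨IsCyclotomicExtension.Rat.galEquivZMod (M * p ^ (n + 1)) F, fun _ => rfl⟩
  have hP : 0 < p ^ (n + 1) := pow_pos hp.pos _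
  -- the unit
  obtain ⟨x, hx1, hx2⟩ : ∃ x : (ZMod (M * p ^ (n + 1)))ˣ,
      ZMod.unitsMap (dvd_mul_right M (p ^ (n + 1))) x = 1 ∧
        ZMod.unitsMap (dvd_mul_left (p ^ (n + 1)) M) x = -1 := by
    obtain ⟨N, hN1, hN2⟩ := Nat.chineseRemainder hcop 1 (p ^ (n + 1) - 1)
    have hNM : (N : ZMod M) = 1 := by
      rw [← Nat.cast_one, ZMod.natCast_eq_natCast_iff]
      exact hN1
    have hNP : (N : ZMod (p ^ (n + 1))) = -1 := by
      have h1 : (N : ZMod (p ^ (n + 1))) = ((p ^ (n + 1) - 1 : ℕ) : ZMod (p ^ (n + 1))) :=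
        (ZMod.natCast_eq_natCast_iff _ _ _).2 hN2
      rw [h1, Nat.cast_sub hP, ZMod.natCast_self, Nat.cast_one, zero_sub]
    have hc1 : Nat.Coprime N M := by
      rw [← ZMod.isUnit_iff_coprime, hNM]
      exact isUnit_one
    have hc2 : Nat.Coprime N (p ^ (n + 1)) := by
      rw [← ZMod.isUnit_iff_coprime, hNP]
      exact isUnit_one.neg
    have hc : Nat.Coprime N (M * p ^ (n + 1)) := Nat.Coprime.mul_right hc1 hc2
    refine ⟨ZMod.unitOfCoprime N hc, ?_, ?_⟩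
    · apply Units.ext
      rw [Una_map (a := N) _ _ (ZMod.coe_unitOfCoprime N hc).symm, hNM, Units.val_one]
    · apply Units.ext
      rw [Una_map (a := N) _ _ (ZMod.coe_unitOfCoprime N hc).symm, hNP, Units.val_neg, Units.val_one]
  have hM1 := Una_neg (l := l) hl2 hlM
  have hcomm : ∀ g g' : F ≃ₐ[ℚ] F, g * g' = g' * g := by
    intro g g'
    apply e.injective
    rw [map_mul, map_mul]
    exact mul_comm _ _
  have hxx : x * x = 1 := by
    refine Una_inj hcop _ _ ?_ ?_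
    · rw [map_mul, hx1, map_one, one_mul]
    · rw [map_mul, hx2, map_one, neg_mul_neg, one_mul]
  have heJ : e J = -1 := by rw [he, hJ]
  have hJJ : J * J = 1 := by
    apply e.injective
    rw [map_mul, heJ, neg_mul_neg, one_mul, map_one]
  have hττ : e.symm x * e.symm x = 1 := by
    rw [← map_mul, hxx, map_one]
  refine ⟨e.symm x, ?_, ?_, hττ, ?_, ?_, hcomm⟩
  · unfold IsTau
    rw [← he, MulEquiv.apply_symm_apply]
    exact ⟨hx1, hx2⟩
  · intro g hg
    unfold IsTau at hg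
    rw [← he] at hg
    apply e.injective
    rw [MulEquiv.apply_symm_apply]
    exact Una_inj hcop _ _ (hg.1.trans hx1.symm) (hg.2.trans hx2.symm)
  · apply orderOf_eq_prime
    · have h1 : J * e.symm x * (J * e.symm x) = (J * J) * (e.symm x * e.symm x) := by
        rw [mul_assoc, ← mul_assoc (e.symm x) J, hcomm (e.symm x) J, mul_assoc J (e.symm x),
          ← mul_assoc J J]
      rw [pow_two, h1, hJJ, hττ, one_mul]
    · intro h
      have h1 := congrArg (fun g => ZMod.unitsMap (dvd_mul_right M (p ^ (n + 1))) (e g)) h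
      rw [map_mul, map_mul, MulEquiv.apply_symm_apply, hx1, mul_one, heJ, map_one, map_one] at h1
      apply hM1
      apply Units.ext
      have h2 := congrArg (fun w : (ZMod M)ˣ => (w : ZMod M)) h1
      simp only [Units.val_one] at h2
      rw [ZMod.unitsMap_def, Units.coe_map, MonoidHom.coe_coe, Units.val_neg, Units.val_one,
        map_neg, map_one] at h2
      rw [Units.val_neg, Units.val_one]
      exact h2
  · apply orderOf_eq_prime
    · rw [pow_two, hJJ]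
    · intro h
      rw [h, map_one] at heJ
      exact Una_neg (l := l) hl2 (hlM.trans (dvd_mul_right M (p ^ (n + 1)))) heJ.symm

theorem cplx_cyc {l p M n : ℕ} [Fact l.Prime] [Fact p.Prime] [NeZero M] (hl2 : l ≠ 2)
    (hlM : l ∣ M) (F : Type) [Field F] [NumberField F]
    [IsCyclotomicExtension {M * p ^ (n + 1)} ℚ F] (w : InfinitePlace F) : w.IsComplex := by
  have hl : l.Prime := Fact.out
  have hp : p.Prime := Fact.out
  have h3 : 3 ≤ l := by
    have := hl.two_le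
    omega
  have hN : 2 < M * p ^ (n + 1) := by
    have h1 : l ≤ M := Nat.le_of_dvd (NeZero.pos M) hlM
    have h2 : 0 < p ^ (n + 1) := pow_pos hp.pos _
    nlinarith
  have := IsCyclotomicExtension.Rat.isTotallyComplex (n := M * p ^ (n + 1)) F hN
  exact this.isComplex w

end H68TL
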